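import Pool.Agent.Q193.NS.Final1
import Pool.Agent.Y8.Asm3

/-!
The whole singular set (helper193).
-/

set_option autoImplicit false

open MeasureTheory Set Metric Filter Topology
open scoped ContDiff ENNReal

namespace Pool.Agent.Q193.NS

open H459R3.NS W221.NS Pool.Agent.Y7 Pool.Agent.Y8 Pool.Agent.Y458.NS Pool.Agent.TH305.LG

/-- Sets without `h`-measure. -/
def HNull (h : ℝ → ℝ) (A : Set (ℝ × V)) : Prop :=
  ∀ δ : ℝ, 0 < δ → ∀ ε : ℝ, 0 < ε → CovLe h δ A (ENNReal.ofReal ε)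

lemma HNull.mono {h : ℝ → ℝ} {A B : Set (ℝ × V)} (H : HNull h A) (hB : B ⊆ A) : HNull h B :=
  fun δ hδ ε hε => (H δ hδ ε hε).mono hB le_rfl

lemma HNull.iUnion {h : ℝ → ℝ} {κ : Type} [Countable κ] {A : κ → Set (ℝ × V)}
    (H : ∀ j, HNull h (A j)) : HNull h (⋃ j, A j) := by
  intro δ hδ ε hε
  obtain ⟨e, he, hs⟩ := ENNReal.exists_pos_sum_of_countable (ENNReal.ofReal_pos.2 hε).ne' κ
  refine (CovLe.iUnion fun j => ?_).mono subset_rfl hs.le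
  have := H j δ hδ (e j) (he j)
  rwa [ENNReal.ofReal_coe_nnreal] at this

lemma HNull.translate {h : ℝ → ℝ} {A : Set (ℝ × V)} (H : HNull h A) (b : V) :
    HNull h {z | (z.1, z.2 - b) ∈ A} := by
  intro δ hδ ε hε
  obtain ⟨ι, hι, c, r, h1, h2, h3⟩ := H δ hδ ε hε
  refine ⟨ι, hι, fun i => ((c i).1, (c i).2 + b), r, h1, ?_, h3⟩
  intro z hz
  obtain ⟨i, hi1, hi2⟩ := mem_iUnion.1 (h2 hz)
  refine mem_iUnion.2 ⟨i, hi1, ?_⟩
  have e : z.2 - ((c i).2 + b) = z.2 - b - (c i).2 := by abel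
  show ‖z.2 - ((c i).2 + b)‖ ≤ r i
  rw [e]
  exact hi2

lemma HNull.scale {h : ℝ → ℝ} {A : Set (ℝ × V)} (H : HNull h A) {ν : ℝ} (hν : 0 < ν) :
    HNull h {z | (ν * z.1, z.2) ∈ A} := by
  intro δ hδ ε hε
  obtain ⟨M, hM⟩ := exists_nat_ge (1 / ν)
  have hM1 : (0 : ℝ) < 2 * M + 1 := by positivity
  refine ((H δ hδ (ε / (2 * M + 1)) (by positivity)).scale hν hM).mono subset_rfl ?_
  have e : (2 * (M : ℝ≥0∞) + 1) = ENNReal.ofReal (2 * M + 1) := by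
    rw [ENNReal.ofReal_add (by positivity) (by norm_num), ENNReal.ofReal_mul (by norm_num)]
    simp
  rw [e, ← ENNReal.ofReal_mul hM1.le]
  apply ENNReal.ofReal_le_ofReal
  apply le_of_eq
  field_simp

/-- The atypical points. -/
lemma atyp {T E D : ℝ} {G : Set ℝ} {u : ℝ → V → V} {p : ℝ → V → ℝ} (hN : Turb 1 T E D G u p)
    {h : ℝ → ℝ} (hg : Gau h) {δ ε : ℝ} (hδ : 0 < δ) (hε : 0 < ε) : ∃ k₀ : ℕ,
      CovLe h δ {z | ∃ j ≥ k₀, ENNReal.ofReal ((j : ℝ) ^ 3 * rr j) < Ps G u (cyl j z)}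
        (ENNReal.ofReal ε) := by
  obtain ⟨k₁, hk₁⟩ := hg 1 one_pos
  obtain ⟨k₂, hk₂⟩ : ∃ k₂ : ℕ, rr k₂ < δ := by
    unfold rr
    exact exists_pow_lt_of_lt_one hδ (by norm_num)
  have hfin : ∑' j : ℕ, ENNReal.ofReal (1 / (j : ℝ) ^ 2) ≠ ⊤ :=
    (Real.summable_one_div_nat_pow.2 one_lt_two).tsum_ofReal_ne_top
  have hM : 81 * (125 * ENNReal.ofReal D) ≠ ⊤ := by
    refine ENNReal.mul_ne_top (by norm_num) (ENNReal.mul_ne_top (by norm_num) ENNReal.ofReal_ne_top)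
  have hten := ENNReal.Tendsto.mul_const (b := 81 * (125 * ENNReal.ofReal D))
    (ENNReal.tendsto_sum_nat_add _ hfin) (Or.inr hM)
  rw [zero_mul] at hten
  obtain ⟨k₃, hk₃⟩ := ((hten.eventually (ge_mem_nhds (ENNReal.ofReal_pos.2 hε))).and
    (eventually_ge_atTop (k₁ + k₂ + 1))).exists
  obtain ⟨hk₃, hk₄⟩ := hk₃
  refine ⟨k₃, ?_⟩
  have hcov : ∀ m : ℕ, CovLe h δ {z | ENNReal.ofReal (((m + k₃ : ℕ) : ℝ) ^ 3 * rr (m + k₃))
      < Ps G u (cyl (m + k₃) z)}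
      (ENNReal.ofReal (1 / ((m + k₃ : ℕ) : ℝ) ^ 2) * (81 * (125 * ENNReal.ofReal D))) := by
    intro m
    obtain ⟨j, hj⟩ : ∃ j, j = m + k₃ := ⟨_, rfl⟩
    rw [← hj]
    have hj1 : (1 : ℝ) ≤ j := by
      have : 1 ≤ j := by omega
      exact_mod_cast this
    have hr := rrp j
    refine cost_le (l := (j : ℝ) ^ 3 * rr j) (by positivity) (fun z hz => le_of_lt hz)
      ((rr_mono (by omega : k₂ ≤ j)).trans hk₂.le) ?_ (Ps_univ hN)
    have e : 1 / (j : ℝ) ^ 2 * ((j : ℝ) ^ 3 * rr j) = j * rr j := by field_simp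
    rw [e]
    have h1 := hk₁ j (by omega)
    rw [one_mul] at h1
    rcases le_or_gt (h (rr j)) 0 with hneg | hpos
    · exact hneg.trans (by positivity)
    · refine le_trans ?_ h1
      have h2 : (1 : ℝ) ≤ ((Nat.clog 2 j : ℝ) + 1) ^ 4 := by
        apply one_le_pow₀
        have : (0 : ℝ) ≤ Nat.clog 2 j := by positivity
        linarith
      nlinarith
  refine (CovLe.iUnion hcov).mono ?_ ?_
  · rintro z ⟨j, hj, hz⟩
    refine mem_iUnion.2 ⟨j - k₃, ?_⟩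
    rw [mem_ofPred_eq, Nat.sub_add_cancel hj]
    exact hz
  · rw [ENNReal.tsum_mul_right]
    exact hk₃

/-- The singular points in the cube and a compact time interval. -/
lemma main1 {T E D : ℝ} {G : Set ℝ} {u : ℝ → V → V} {p : ℝ → V → ℝ} (hN : Turb 1 T E D G u p)
    {h : ℝ → ℝ} (hg : Gau h) {α β : ℝ} (hα : 0 < α) (hβ : β < T) :
    HNull h {z | z.1 ∈ Icc α β ∧ z.2 ∈ cube ∧ SingPt G u z.1 z.2} := by
  intro δ hδ ε hε
  obtain ⟨C₂, hC₂, htyp⟩ := typ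
  have hD := D_nonneg hN
  obtain ⟨k₀, hk₀⟩ := atyp hN hg hδ (half_pos hε)
  have H := htyp T E D G u p hN h hg δ (ε / 2 / (C₂ * (D + 1))) α β hδ (by positivity) hα hβ k₀
  have e : ENNReal.ofReal ε = ENNReal.ofReal (ε / 2) + ENNReal.ofReal (ε / 2) := by
    rw [← ENNReal.ofReal_add (by positivity) (by positivity), add_halves]
  rw [e]
  refine (H.union hk₀).mono ?_ ?_
  · rintro z ⟨h1, h2, h3⟩
    by_cases hz : ∀ j ≥ k₀, Ps G u (cyl j z) ≤ ENNReal.ofReal ((j : ℝ) ^ 3 * rr j)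
    · exact Or.inl ⟨h1, h2, h3, hz⟩
    · right
      push Not at hz
      exact hz
  · refine add_le_add_left (ENNReal.ofReal_le_ofReal ?_) _
    rw [mul_div_assoc', div_mul_eq_mul_div, div_le_iff₀ (by positivity)]
    have : 0 ≤ C₂ * (ε / 2) := by positivity
    nlinarith

lemma sing_shift {ν T E D : ℝ} {G : Set ℝ} {u : ℝ → V → V} {p : ℝ → V → ℝ}
    (hN : Turb ν T E D G u p) {t : ℝ} {x : V} (n : K3) (h : SingPt G u t x) :
    SingPt G u t (x - iv n) := by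
  intro δ hδ B
  obtain ⟨s, hs, hst, y, hy, hB⟩ := h δ hδ B
  refine ⟨s, hs, hst, y - iv n, ?_, ?_⟩
  · rw [mem_ball, dist_eq_norm] at hy ⊢
    have e : y - iv n - (x - iv n) = y - x := by abel
    rwa [e]
  · rw [per_iv' (hN.per_u s hs) n y]
    exact hB

lemma sub_floor_mem (x : V) : x - iv (fun i => ⌊x i⌋) ∈ cube := by
  have h1 : ∀ i, 0 ≤ x i - ⌊x i⌋ := fun i => sub_nonneg.2 (Int.floor_le _)
  have h2 : ∀ i, x i - ⌊x i⌋ ≤ 1 := fun i => by linarith [Int.lt_floor_add_one (x i)]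
  exact ⟨fun i => h1 i, fun i => h2 i⟩

lemma main2 {T E D : ℝ} {G : Set ℝ} {u : ℝ → V → V} {p : ℝ → V → ℝ} (hN : Turb 1 T E D G u p)
    {h : ℝ → ℝ} (hg : Gau h) : HNull h {z | z.1 ∈ Ioo 0 T ∧ SingPt G u z.1 z.2} := by
  have H : ∀ q : ℕ × K3, HNull h {z | (z.1, z.2 - iv q.2) ∈ {z : ℝ × V |
      z.1 ∈ Icc (1 / ((q.1 : ℝ) + 1)) (T - 1 / ((q.1 : ℝ) + 1)) ∧ z.2 ∈ cube ∧
        SingPt G u z.1 z.2}} := by
    intro q
    apply HNull.translate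
    have : 0 < 1 / ((q.1 : ℝ) + 1) := by positivity
    exact main1 hN hg this (by linarith)
  refine (HNull.iUnion H).mono ?_
  rintro z ⟨hz, hs⟩
  obtain ⟨m, hm⟩ := exists_nat_one_div_lt (lt_min hz.1 (sub_pos.2 hz.2))
  obtain ⟨hm1, hm2⟩ := lt_min_iff.1 hm
  refine mem_iUnion.2 ⟨(m, fun i => ⌊z.2 i⌋), ⟨hm1.le, ?_⟩, sub_floor_mem _, sing_shift hN _ hs⟩
  show z.1 ≤ T - 1 / ((m : ℝ) + 1)
  linarith

/-- All viscosities. -/
theorem main3 {ν T E D : ℝ} {G : Set ℝ} {u : ℝ → V → V} {p : ℝ → V → ℝ} (hν : 0 < ν)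
    (hN : Turb ν T E D G u p) {h : ℝ → ℝ} (hg : Gau h) :
    HNull h {z | z.1 ∈ Ioo 0 T ∧ SingPt G u z.1 z.2} := by
  obtain ⟨h1, h2⟩ := Pool.Agent.Y8.B.p_wscal ν T E D G u p hν hN
  refine ((main2 h1 hg).scale hν).mono ?_
  rintro z ⟨hz, hs⟩
  refine ⟨⟨mul_pos hν hz.1, ?_⟩, h2 _ _ hs⟩
  exact mul_lt_mul_of_pos_left hz.2 hν

end Pool.Agent.Q193.NS
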