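import Pool.Agent.Q193.NS.Heavy

/-!
The cover at one level (helper193).
-/

set_option autoImplicit false

open MeasureTheory Set Metric Filter Topology
open scoped ContDiff ENNReal

namespace Pool.Agent.Q193.NS

open H459R3.NS W221.NS Pool.Agent.Y7 Pool.Agent.Y8 Pool.Agent.Y458.NS Pool.Agent.Y7.Cov1

lemma CovLe.empty (h : ℝ → ℝ) (δ : ℝ) : CovLe h δ ∅ 0 :=
  ⟨Empty, inferInstance, fun i => i.elim, fun i => i.elim, fun i => i.elim, empty_subset _, by
    simp⟩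

lemma CovLe.biUnion {h : ℝ → ℝ} {δ : ℝ} (S : Finset ℕ) {A : ℕ → Set (ℝ × (Fin 3 → ℝ))}
    {ε : ℕ → ℝ≥0∞} (H : ∀ j ∈ S, CovLe h δ (A j) (ε j)) :
    CovLe h δ (⋃ j ∈ S, A j) (∑ j ∈ S, ε j) := by
  classical
  induction S using Finset.induction_on with
  | empty => simpa using CovLe.empty h δ
  | insert a S ha ih =>
    rw [Finset.sum_insert ha, Finset.set_biUnion_insert]
    exact (H a (Finset.mem_insert_self _ _)).union
      (ih fun j hj => H j (Finset.mem_insert_of_mem hj))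

lemma rr_sq (k : ℕ) : rr k ^ 2 = (1 / 4) ^ k := by
  unfold rr
  rw [← pow_mul, mul_comm, pow_mul]
  norm_num

lemma cyl_eq (k : ℕ) (z : ℝ × V) : cyl k z = II k z.1 ×ˢ ball z.2 (rr k) := by
  ext w
  constructor
  · rintro ⟨h1, h2⟩
    rw [← rr_sq, abs_lt] at h1
    refine ⟨⟨by linarith [h1.1], by linarith [h1.2]⟩, ?_⟩
    rw [mem_ball, dist_eq_norm]
    exact h2
  · rintro ⟨h1, h2⟩
    refine ⟨?_, ?_⟩
    · rw [← rr_sq, abs_lt]
      exact ⟨by linarith [h1.1], by linarith [h1.2]⟩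
    · rw [mem_ball, dist_eq_norm] at h2
      exact h2

/-- The cost of a heavy family. -/
lemma cost_le {h : ℝ → ℝ} {δ : ℝ} {μ : Measure (ℝ × (Fin 3 → ℝ))} {k : ℕ}
    {A : Set (ℝ × (Fin 3 → ℝ))} {l c : ℝ} (hl : 0 < l) (hA : ∀ z ∈ A, ENNReal.ofReal l ≤ μ (cyl k z))
    (hk : rr k ≤ δ) (hc : h (rr k) ≤ c * l) {M : ℝ≥0∞} (hM : μ univ ≤ M) :
    CovLe h δ A (ENNReal.ofReal c * (81 * M)) := by
  have hl0 : ENNReal.ofReal l ≠ 0 := (ENNReal.ofReal_pos.2 hl).ne'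
  refine (cov_heavy h δ μ k A (ENNReal.ofReal l) hl0 ENNReal.ofReal_ne_top hA hk).mono
    subset_rfl ?_
  have h1 : ENNReal.ofReal (h ((1 / 2) ^ k)) / ENNReal.ofReal l ≤ ENNReal.ofReal c := by
    rw [ENNReal.div_le_iff hl0 ENNReal.ofReal_ne_top]
    rcases le_or_gt 0 c with hc0 | hc0
    · rw [← ENNReal.ofReal_mul hc0]
      exact ENNReal.ofReal_le_ofReal hc
    · have : h (rr k) ≤ 0 := hc.trans (by nlinarith)
      have e : ENNReal.ofReal (h ((1 / 2) ^ k)) = 0 := ENNReal.ofReal_eq_zero.2 this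
      rw [e]
      exact zero_le
  exact mul_le_mul' h1 (mul_le_mul_right hM _)

/-- The cover of the singular points with bounded dissipation, at the level `a + J`. -/
theorem level : ∃ C₁ η : ℝ, 1 ≤ C₁ ∧ 0 < η ∧ ∀ (T E D : ℝ) (G : Set ℝ) (u : ℝ → V → V)
    (p : ℝ → V → ℝ), Turb 1 T E D G u p → ∀ (a J q : ℕ) (A₀ : ℝ), J + 4 ≤ a → 1 ≤ A₀ →
      C₁ * A₀ ≤ 4 ^ q → C₁ * (a * A₀ * 2 ^ q) ≤ 2 ^ J → C₁ * (1 + E ^ 2) ^ 2 ≤ 2 ^ a →
      ∀ (h : ℝ → ℝ) (δ γ : ℝ), rr (a - J - 2) ≤ δ → 0 ≤ γ →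
      (∀ k, a ≤ k + J + 2 → k ≤ a + J → h (rr k) ≤ γ * rr k) → ∀ A : Set (ℝ × V),
      (∀ z ∈ A, z.2 ∈ cube ∧ SingPt G u z.1 z.2 ∧ 0 < z.1 - rr (a + q) ^ 2 ∧
        z.1 + rr (a + q) ^ 2 < T ∧ ∀ j ≤ a + J, Ps G u (cyl j z) ≤ ENNReal.ofReal (A₀ * rr j)) →
      CovLe h δ A (ENNReal.ofReal (4096 * γ) * (81 * Mb η G u (a + J - 4) univ)
        + ∑ j ∈ Finset.range (2 * J + 1), ENNReal.ofReal (128 * C₁ ^ 2 * (J + 1) ^ 2 * γ)
          * (81 * Ps G u (Lv G u (4 ^ j / (16 * C₁ * (J + 1)) ^ 2)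
            (4 ^ j * (128 * C₁ * (J + 1) * A₀) ^ 2) (a + J - j)))) := by
  obtain ⟨C₁, hC₁, hfast⟩ := fast
  obtain ⟨η, hη, hslow⟩ := slow
  obtain ⟨Kp, hKp, hpath⟩ := Pool.Agent.Y8.B.p_wpath
  refine ⟨C₁, η, hC₁, hη, ?_⟩
  intro T E D G u p hN a J q A₀ hJa hA₀ hq hJ hE h δ γ hδ hγ hgau A hA
  have hC₁0 : 0 < C₁ := by linarith
  have hJ1 : (0 : ℝ) < J + 1 := by positivity
  obtain ⟨n, hn⟩ : ∃ n, n = a + J := ⟨_, rfl⟩
  have ha1 : (1 : ℝ) ≤ a := by
    have : 1 ≤ a := by omega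
    exact_mod_cast this
  have h2q : (1 : ℝ) ≤ 2 ^ q := one_le_pow₀ (by norm_num)
  have hqJ : q ≤ J := by
    have h1 : (2 : ℝ) ^ q ≤ 2 ^ J := by
      refine le_trans ?_ hJ
      calc (2 : ℝ) ^ q = 1 * (1 * 1 * 2 ^ q) := by ring
        _ ≤ C₁ * (a * A₀ * 2 ^ q) := by gcongr
    exact (pow_le_pow_iff_right₀ (by norm_num : (1 : ℝ) < 2)).1 h1
  -- the two kinds of points
  obtain ⟨As, hAs⟩ : ∃ As : Set (ℝ × V), As = {z | z ∈ A ∧
    ENNReal.ofReal (rr n / 4096) ≤ Mb η G u (n - 4) (cyl n z)} := ⟨_, rfl⟩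
  obtain ⟨Af, hAf⟩ : ∃ Af : ℕ → Set (ℝ × V), Af = fun j => {z | z ∈ A ∧
    ENNReal.ofReal (rr (n - j) / (32 * C₁ ^ 2 * (J + 1) ^ 2))
      ≤ (Ps G u).restrict (Lv G u (4 ^ j / (16 * C₁ * (J + 1)) ^ 2)
            (4 ^ j * (128 * C₁ * (J + 1) * A₀) ^ 2) (n - j)) (cyl (n - j - 2) z)} := ⟨_, rfl⟩
  have hsplit : A ⊆ As ∪ ⋃ j ∈ Finset.range (2 * J + 1), Af j := by
    rintro ⟨t₀, x₀⟩ hz
    obtain ⟨hx₀, hsing, ht1, ht2, hty⟩ := hA _ hz
    simp only at hx₀ hsing ht1 ht2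
    have hIT : II (a + q) t₀ ⊆ Ioo 0 T := fun τ hτ => ⟨ht1.trans hτ.1, hτ.2.trans ht2⟩
    have hIn : II n t₀ ⊆ II (a + q) t₀ := II_sub (by omega) t₀
    have hTyj : ∀ (b j : ℕ), a + q ≤ b → j ≤ b → j ≤ n →
        ∫ t in II b t₀, B2 x₀ (rr j) (u t) ≤ A₀ * rr j := by
      intro b j hab hjb hjn
      have hIb : II b t₀ ⊆ Ioo 0 T := (II_sub hab t₀).trans hIT
      have h1 := B2_Ps hN (J' := II b t₀) measurableSet_Ioo (sub_ae hN hIb) hx₀ (rr_le1 j)
      have h2 : Ps G u (II b t₀ ×ˢ ball x₀ (rr j)) ≤ ENNReal.ofReal (A₀ * rr j) := by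
        refine le_trans (measure_mono ?_) (hty j (by omega))
        rw [cyl_eq]
        exact prod_mono (II_sub hjb t₀) subset_rfl
      have hr := rrp j
      exact (ENNReal.ofReal_le_ofReal_iff (by positivity)).1 (h1.trans h2)
    have hTy : Ty u (II (a + q) t₀) x₀ A₀ a := fun j hj => hTyj (a + q) j le_rfl (by omega)
      (by omega)
    have ht0 : t₀ ∈ Ioo 0 T := by
      constructor
      · linarith [sq_nonneg (rr (a + q))]
      · linarith [sq_nonneg (rr (a + q))]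
    obtain ⟨Cx, hCx, hpx⟩ := hpath E (rr n) (rrp n) (rr_le1 n)
    obtain ⟨X, X', hX0, hX⟩ := hpx T D G u p hN t₀ ht0 x₀
    obtain ⟨Cy, hCy, hpy⟩ := hpath E (rr (n + 4)) (rrp _) (rr_le1 _)
    obtain ⟨Y, Y', hY0, hY⟩ := hpy T D G u p hN t₀ ht0 x₀
    by_cases hex : (∃ t, |t - t₀| < rr n ^ 2 ∧ rr (n + 5) < ‖X t - x₀‖) ∨
        (∃ t, |t - t₀| < rr n ^ 2 ∧ rr (n + 5) < ‖Y t - x₀‖)
    · right
      have hmain : ∃ i, a ≤ i + J ∧ i ≤ a + J ∧
          rr (a + J) ≤ C₁ * (J + 1) * ∫ t in II (a + J) t₀, be i (u t) x₀ := by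
        rcases hex with hex | hex
        · exact hfast T E D G u p hN a J q n A₀ (by omega) hA₀ hq hJ hE (by omega) (by omega) t₀ x₀
            ht1 ht2 hTy X X' _ _ hX hX0 (by rw [← hn]; exact hex)
        · exact hfast T E D G u p hN a J q (n + 4) A₀ (by omega) hA₀ hq hJ hE (by omega)
            (by omega) t₀ x₀ ht1 ht2 hTy Y Y' _ _ hY hY0 (by rw [← hn]; exact hex)
      obtain ⟨i, hi1, hi2, hi3⟩ := hmain
      obtain ⟨k, hk⟩ : ∃ k, i = k + 4 := ⟨i - 4, by omega⟩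
      obtain ⟨j, hj⟩ : ∃ j, n = k + 4 + j := ⟨n - i, by omega⟩
      have hjJ : j ∈ Finset.range (2 * J + 1) := by
        rw [Finset.mem_range]
        omega
      simp only [mem_iUnion, exists_prop]
      refine ⟨j, hjJ, ?_⟩
      rw [hAf]
      refine ⟨hz, ?_⟩
      have hLm : MeasurableSet (Lv G u (4 ^ j / (16 * C₁ * (J + 1)) ^ 2)
            (4 ^ j * (128 * C₁ * (J + 1) * A₀) ^ 2) (n - j)) := Lv_meas hN _ _ _
      rw [Measure.restrict_apply' hLm, inter_comm]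
      rw [← hn, hk] at hi3
      rw [hj] at hi3 hIn
      have e1 : n - j = k + 4 := by omega
      rw [e1]
      exact heavy hC₁ hA₀ hN hx₀ (hIn.trans hIT) (hTyj _ k (by omega) (by omega) (by omega)) hi3
    · left
      push Not at hex
      obtain ⟨hXs, hYs⟩ := hex
      rw [hAs]
      refine ⟨hz, ?_⟩
      obtain ⟨m, hm⟩ : ∃ m, n = m + 4 := ⟨n - 4, by omega⟩
      have e4 : n - 4 = m := by omega
      rw [e4]
      rw [hm] at hXs hYs hX hY
      have hnq : rr (m + 4) ^ 2 ≤ rr (a + q) ^ 2 :=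
        pow_le_pow_left₀ (rrp _).le (rr_mono (by omega)) 2
      have hs := hslow T E D G u p hN m t₀ x₀ (by linarith) (by linarith) hsing X X' Y Y' _ _ _ _
        hX hY hY0 hXs hYs
      have hr := rrp (m + 4)
      have e8 : rr (m + 8) = rr (m + 4) / 16 := by
        rw [show m + 8 = (m + 4) + 4 by ring, rr_add' (m + 4) 4]
        unfold rr
        ring
      have hUm := Ub_meas hN η m
      unfold Mb
      rw [Measure.smul_apply, Measure.restrict_apply' hUm,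
        Measure.restrict_apply' (MeasurableSet.univ.prod Bx_meas), smul_eq_mul]
      have hsub : Ioo t₀ (t₀ + rr (m + 8) ^ 2 / 16) ×ˢ ball x₀ (rr (m + 4) / 2)
          ⊆ cyl n (t₀, x₀) ∩ Ub η G u m ∩ univ ×ˢ Bx := by
        intro w hw
        refine ⟨⟨?_, hs hw⟩, mem_univ _, ?_⟩
        · rw [cyl_eq, hm]
          obtain ⟨h1, h2⟩ := hw
          refine ⟨⟨?_, ?_⟩, ball_subset_ball (by linarith) h2⟩
          · have := h1.1
            simp only
            linarith [sq_nonneg (rr (m + 4))]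
          · have := h1.2
            rw [e8] at this
            simp only
            nlinarith
        · have h2 : w.2 ∈ ball x₀ (rr (m + 4) / 2) := hw.2
          have h3 := rr_le1 (m + 4)
          exact ball_Bx hx₀ (by linarith) h2
      have hvol : volume (Ioo t₀ (t₀ + rr (m + 8) ^ 2 / 16) ×ˢ ball x₀ (rr (m + 4) / 2))
          = ENNReal.ofReal (rr (m + 4) ^ 5 / 4096) := by
        rw [Measure.volume_eq_prod, Measure.prod_prod, Real.volume_Ioo,
          Real.volume_pi_ball _ (by positivity), Fintype.card_fin, ← ENNReal.ofReal_mul]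
        · congr 1
          rw [e8]
          ring
        · have := sq_nonneg (rr (m + 8))
          linarith
      refine le_trans ?_ (mul_le_mul_right (measure_mono hsub) _)
      rw [hvol, ← ENNReal.ofReal_mul (by positivity)]
      apply ENNReal.ofReal_le_ofReal
      have e9 : hh (sc 1 0 ^ 2) m = rr (m + 4) ^ 2 := by rw [← sc_hh, sc_rr]
      rw [e9, hm]
      apply le_of_eq
      field_simp
  refine CovLe.mono ?_ hsplit le_rfl
  rw [← hn]
  refine CovLe.union ?_ (CovLe.biUnion _ fun j hj => ?_)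
  · refine cost_le (l := rr n / 4096) (k := n) (μ := Mb η G u (n - 4)) (by
      have := rrp n
      positivity) (fun z hz => ?_) (le_trans (rr_mono (by omega)) hδ) ?_ le_rfl
    · rw [hAs] at hz
      exact hz.2
    · have := hgau n (by omega) (by omega)
      linarith
  · have hj' := Finset.mem_range.1 hj
    have hr := rrp (n - j)
    refine cost_le (l := rr (n - j) / (32 * C₁ ^ 2 * (J + 1) ^ 2)) (k := n - j - 2)
      (μ := (Ps G u).restrict (Lv G u (4 ^ j / (16 * C₁ * (J + 1)) ^ 2)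
            (4 ^ j * (128 * C₁ * (J + 1) * A₀) ^ 2) (n - j))) (by positivity)
      (fun z hz => ?_) (le_trans (rr_mono (by omega)) hδ) ?_ ?_
    · rw [hAf] at hz
      exact hz.2
    · have h1 := hgau (n - j - 2) (by omega) (by omega)
      have e2 : rr (n - j - 2) = 4 * rr (n - j) := by
        have : n - j = (n - j - 2) + 2 := by omega
        rw [this, rr_add' (n - j - 2) 2]
        unfold rr
        simp only [Nat.add_sub_cancel]
        ring
      rw [e2] at h1 ⊢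
      refine h1.trans (le_of_eq ?_)
      field_simp
      ring
    · rw [Measure.restrict_apply MeasurableSet.univ, univ_inter]

end Pool.Agent.Q193.NS
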