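import Pool.Agent.Q193.NS.Mass
import Pool.Agent.Y8.Asm3

/-!
Slow points: the paths stay near the point, so all windows around it are bad (helper193).
-/

set_option autoImplicit false

open MeasureTheory Set Metric Filter Topology
open scoped ContDiff ENNReal

namespace Pool.Agent.Q193.NS

open H459R3.NS W221.NS Pool.Agent.Y7 Pool.Agent.Y8 Pool.Agent.Y8.WS Pool.Agent.TH305.LG
open Pool.Agent.Y7.Cov1 Pool.Agent.Y458.NS

lemma sc_rr (m : ℕ) : sc 1 m = rr (m + 4) := by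
  unfold sc Hl.Rr rr
  rw [pow_add, one_div_pow (2 : ℝ) m]
  ring

lemma rr_add' (a b : ℕ) : rr (a + b) = rr a * rr b := by
  unfold rr
  rw [pow_add]

lemma rr_mono {a b : ℕ} (h : a ≤ b) : rr b ≤ rr a := by
  unfold rr
  exact pow_le_pow_of_le_one (by norm_num) (by norm_num) h

lemma rr_le1 (a : ℕ) : rr a ≤ 1 := by
  unfold rr
  exact pow_le_one₀ (by norm_num) (by norm_num)

/-- Monotonicity of the dissipation in the ball. -/
lemma B2_mono {v : V → V} (hv : ContDiff ℝ ∞ v) {a b : V} {ρ σ : ℝ} (h : ball a ρ ⊆ ball b σ) :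
    B2 a ρ v ≤ B2 b σ v := by
  unfold B2
  exact setIntegral_mono_set (ballint (gsq_sm hv).continuous b σ)
    (Eventually.of_forall fun x => gsq_nn v x) h.eventuallyLE

theorem slow : ∃ η : ℝ, 0 < η ∧ ∀ (T E D : ℝ) (G : Set ℝ) (u : ℝ → V → V) (p : ℝ → V → ℝ),
    Turb 1 T E D G u p → ∀ (m : ℕ) (t₀ : ℝ) (x₀ : V), rr (m + 4) ^ 2 < t₀ →
      t₀ + rr (m + 4) ^ 2 < T → SingPt G u t₀ x₀ →
      ∀ (X X' Y Y' : ℝ → V) (B C B' C' : ℝ), FPath T (rr (m + 4)) B C G u p X X' →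
        FPath T (rr (m + 8)) B' C' G u p Y Y' → Y t₀ = x₀ →
        (∀ t, |t - t₀| < rr (m + 4) ^ 2 → ‖X t - x₀‖ ≤ rr (m + 9)) →
        (∀ t, |t - t₀| < rr (m + 4) ^ 2 → ‖Y t - x₀‖ ≤ rr (m + 9)) →
          Ioo t₀ (t₀ + rr (m + 8) ^ 2 / 16) ×ˢ ball x₀ (rr (m + 4) / 2) ⊆ Ub η G u m := by
  obtain ⟨C, hC, hsm⟩ := Pool.Agent.Y8.WS.wsmall
  obtain ⟨ε, hε, hcr⟩ := Pool.Agent.Y8.B.p_crit3
  obtain ⟨η, hη⟩ : ∃ η, η = min (1 / C) (ε / (32 * C)) := ⟨_, rfl⟩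
  have hη0 : 0 < η := by rw [hη]; positivity
  have hη1 : C * η ≤ 1 := by
    have : η ≤ 1 / C := by rw [hη]; exact min_le_left _ _
    calc C * η ≤ C * (1 / C) := by gcongr
      _ = 1 := by field_simp
  have hη2 : C * η ≤ ε / 32 := by
    have : η ≤ ε / (32 * C) := by rw [hη]; exact min_le_right _ _
    calc C * η ≤ C * (ε / (32 * C)) := by gcongr
      _ = ε / 32 := by field_simp
  refine ⟨η, hη0, ?_⟩
  intro T E D G u p h m t₀ x₀ ht1 ht2 hsing X X' Y Y' B C₁ B' C₂ hX hY hY0 hXs hYs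
  rintro ⟨s, y⟩ ⟨hs, hy⟩
  obtain ⟨r, hr⟩ : ∃ r, r = rr (m + 4) := ⟨_, rfl⟩
  have e8 : rr (m + 8) = r / 16 := by
    rw [hr, show m + 8 = (m + 4) + 4 by ring, rr_add']
    unfold rr
    norm_num
    ring
  have e9 : rr (m + 9) = r / 32 := by
    rw [hr, show m + 9 = (m + 4) + 5 by ring, rr_add']
    unfold rr
    norm_num
    ring
  have hr0 : 0 < r := by rw [hr]; exact rrp _
  have hr1 : r ≤ 1 := by rw [hr]; exact rr_le1 _
  rw [e8] at hs
  rw [← hr] at ht1 ht2 hXs hYs hy hX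
  rw [e8] at hY
  rw [e9] at hXs hYs
  obtain ⟨hs1, hs2⟩ := hs
  have hs1 : t₀ < s := hs1
  have hs2 : s < t₀ + (r / 16) ^ 2 / 16 := hs2
  have hr2 : 0 < r ^ 2 := by positivity
  have hs3 : s < t₀ + r ^ 2 := by nlinarith
  have hsT : s < T := by linarith
  have hsr : r ^ 2 < s := by linarith
  have hr16 : (r / 16) ^ 2 ≤ r ^ 2 := by nlinarith
  by_contra hcon
  have hcon' : ∫⁻ τ in Ioo (s - hh (sc 1 0 ^ 2) m) s, FtO 1 G u (τ, y)
      ≤ ENNReal.ofReal (η / hh (sc 1 0 ^ 2) m) := not_lt.1 hcon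
  rw [← sc_hh, sc_rr, ← hr] at hcon'
  have hint : ∫⁻ τ in Ioo (s - sc 1 m ^ 2) s, Fx 1 (u τ) y ≤ ENNReal.ofReal (η / sc 1 m ^ 2) := by
    rw [sc_rr, ← hr]
    refine le_trans (lintegral_mono_ae ?_) hcon'
    filter_upwards [aeT h (by linarith : 0 ≤ s - r ^ 2) hsT.le] with τ hτ
    rw [FtO_eq 1 u hτ]
  have hwin : ∀ τ ∈ Ioo (s - r ^ 2) s, |τ - t₀| < r ^ 2 := by
    intro τ hτ
    rw [abs_lt]
    constructor
    · linarith [hτ.1]
    · linarith [hτ.2]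
  have hy' : ‖y - x₀‖ < r / 2 := by
    have : y ∈ ball x₀ (r / 2) := hy
    rwa [mem_ball, dist_eq_norm] at this
  have h1 := hsm T E D G u p h 1 one_pos m s (by rw [sc_rr, ← hr]; exact hsr) hsT (fun _ => y) X X'
    B C₁ (by rw [sc_rr, ← hr]; exact hX) (by
      intro τ hτ
      rw [sc_rr, ← hr] at hτ ⊢
      have h2 := hXs τ (hwin τ hτ)
      have h3 : ‖y - X τ‖ ≤ ‖y - x₀‖ + ‖X τ - x₀‖ := by
        rw [norm_sub_rev (X τ)]
        exact norm_sub_le_norm_sub_add_norm_sub y x₀ (X τ)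
      linarith) η hη0 hη1 hint
  rw [sc_rr, ← hr] at h1
  have h2 := hcr T E D G u p h (r / 16) s (by positivity) (by linarith) (by linarith) hsT Y Y' B' C₂
    hY t₀ ⟨by linarith, hs1⟩ x₀ (by
      rw [hY0]
      exact mem_ball_self (by positivity)) hsing
  have hXG : ContinuousOn X G := fun τ hτ => (hX.hd τ (h.subG hτ)).continuousAt.continuousWithinAt
  have hYG : ContinuousOn Y G := fun τ hτ => (hY.hd τ (h.subG hτ)).continuousAt.continuousWithinAt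
  have hsub : Ioo (s - (r / 16) ^ 2) s ⊆ Ioo (s - 9 / 16 * r ^ 2) s := by
    apply Ioo_subset_Ioo_left
    nlinarith
  have hIT : Ioo (s - 9 / 16 * r ^ 2) s ⊆ Ioo 0 T := by
    intro τ hτ
    constructor
    · nlinarith [hτ.1]
    · linarith [hτ.2]
  have i1 : IntegrableOn (fun τ => B2 (X τ) (r * (3 / 4)) (u τ)) (Ioo (s - 9 / 16 * r ^ 2) s) :=
    (B2_mov_int h hXG _).mono_set_ae (sub_ae h hIT)
  have i2 : IntegrableOn (fun τ => B2 (Y τ) (8 * (r / 16)) (u τ)) (Ioo (s - (r / 16) ^ 2) s) :=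
    (B2_mov_int h hYG _).mono_set_ae (sub_ae h (hsub.trans hIT))
  have h3 : ∫ τ in Ioo (s - (r / 16) ^ 2) s, B2 (Y τ) (8 * (r / 16)) (u τ)
      ≤ ∫ τ in Ioo (s - (r / 16) ^ 2) s, B2 (X τ) (r * (3 / 4)) (u τ) := by
    refine integral_mono_ae i2 (i1.mono_set hsub) ?_
    have hpos : 0 ≤ s - (r / 16) ^ 2 := by linarith
    filter_upwards [aeT h hpos hsT.le, ae_restrict_mem measurableSet_Ioo] with τ hτ hτI
    refine B2_mono (h.spv hτ).1 ?_
    have hw : |τ - t₀| < r ^ 2 := hwin τ ⟨by linarith [hτI.1], hτI.2⟩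
    have a1 := hXs τ hw
    have a2 := hYs τ hw
    apply ball_subset_ball'
    rw [dist_eq_norm]
    have a3 : ‖Y τ - X τ‖ ≤ ‖Y τ - x₀‖ + ‖X τ - x₀‖ := by
      rw [norm_sub_rev (X τ)]
      exact norm_sub_le_norm_sub_add_norm_sub (Y τ) x₀ (X τ)
    linarith
  have h4 : ∫ τ in Ioo (s - (r / 16) ^ 2) s, B2 (X τ) (r * (3 / 4)) (u τ)
      ≤ ∫ τ in Ioo (s - 9 / 16 * r ^ 2) s, B2 (X τ) (r * (3 / 4)) (u τ) :=
    setIntegral_mono_set i1 (Eventually.of_forall fun τ => B2_nn' _ _ _) hsub.eventuallyLE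
  have h5 : C * η * r ≤ ε / 32 * r := mul_le_mul_of_nonneg_right hη2 hr0.le
  have h6 : 0 < ε * r := by positivity
  linarith

end Pool.Agent.Q193.NS
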