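import Pool.Agent.Q193.NS.Fast4

/-!
Fast points, fifth part: the alternative (helper193).
-/

set_option autoImplicit false

open MeasureTheory Set Metric Filter Topology
open scoped ContDiff ENNReal

namespace Pool.Agent.Q193.NS

open H459R3.NS W221.NS Pool.Agent.Y8 Pool.Agent.Y458.NS

lemma II_sub {a b : ℕ} (h : a ≤ b) (t₀ : ℝ) : II b t₀ ⊆ II a t₀ := by
  unfold II
  have h1 : rr b ^ 2 ≤ rr a ^ 2 := pow_le_pow_left₀ (rrp b).le (rr_mono h) 2
  exact Ioo_subset_Ioo (by linarith) (by linarith)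

/-- The sum which bounds the velocity. -/
noncomputable def SN (a J : ℕ) (v : V → V) (x : V) : ℝ :=
  (∑ i ∈ Finset.range (J + 1), be (a + i) v x)
    + ∑ k ∈ Finset.range a, (1 / 2) ^ k * be (a + 1 - k) v x

lemma SN_nn (a J : ℕ) (v : V → V) (x : V) : 0 ≤ SN a J v x := by
  unfold SN
  have h1 : 0 ≤ ∑ i ∈ Finset.range (J + 1), be (a + i) v x :=
    Finset.sum_nonneg fun i _ => be_nn _ _ _
  have h2 : 0 ≤ ∑ k ∈ Finset.range a, (1 / 2) ^ k * be (a + 1 - k) v x :=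
    Finset.sum_nonneg fun k _ => mul_nonneg (by positivity) (be_nn _ _ _)
  linarith

section

variable {T E D : ℝ} {G : Set ℝ} {u : ℝ → V → V} {p : ℝ → V → ℝ}

lemma Ty_mono (h : Turb 1 T E D G u p) {I I' : Set ℝ} (hI : I ≤ᵐ[volume] G) (hs : I' ⊆ I)
    {x₀ : V} {A₀ : ℝ} {a : ℕ} (hT : Ty u I x₀ A₀ a) : Ty u I' x₀ A₀ a := fun j hj =>
  (setIntegral_mono_set ((B2_int h x₀ _).mono_set_ae hI)
    (Eventually.of_forall fun t => B2_nn' _ _ _) hs.eventuallyLE).trans (hT j hj)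

lemma SN_int (h : Turb 1 T E D G u p) (a J : ℕ) (x : V) :
    IntegrableOn (fun t => SN a J (u t) x) G := by
  unfold SN
  exact (integrable_finsetSum _ fun i _ => be_int h _ x).add
    (integrable_finsetSum _ fun k _ => (be_int h _ x).const_mul _)

/-- The velocity of a path near the point. -/
lemma speed' {CD C₃ U : ℝ} (hCD : 0 < CD) (hC₃ : 0 ≤ C₃)
    (hdy : ∀ u : V → V, ContDiff ℝ ∞ u → ∀ (x y : V) (r s : ℝ),
    0 < s → s ≤ r → ‖y - x‖ ≤ r → ‖mo s u y - mo r u x‖ ≤ CD * √(s⁻¹ * B2 x (4 * r) u))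
    {v : V → V} (hv : ContDiff ℝ ∞ v) (x y : V) {a J m : ℕ} (h1 : a + J ≤ m)
    (h2 : m ≤ a + J + 4) (hy : ‖y - x‖ ≤ rr (a + J))
    (hmo : ‖mo (rr a) v x‖ ≤ C₃ * U + C₃ * √(NN2 a v x * rr a)) :
    ‖mo (rr m) v y‖ ≤ C₃ * U + (4 * CD + C₃) * SN a J v x := by
  have a1 := near hCD hdy hv x y h1 h2 hy
  have a2 := tele hCD hdy hv x a J
  have a3 := sqrt_NN2 a v x
  have a4 : ‖mo (rr m) v y‖ ≤ ‖mo (rr m) v y - mo (rr (a + J)) v x‖
      + (‖mo (rr (a + J)) v x - mo (rr a) v x‖ + ‖mo (rr a) v x‖) := by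
    have b1 : mo (rr m) v y = (mo (rr m) v y - mo (rr (a + J)) v x)
        + ((mo (rr (a + J)) v x - mo (rr a) v x) + mo (rr a) v x) := by abel
    calc ‖mo (rr m) v y‖ = ‖(mo (rr m) v y - mo (rr (a + J)) v x)
        + ((mo (rr (a + J)) v x - mo (rr a) v x) + mo (rr a) v x)‖ := by rw [← b1]
      _ ≤ _ := (norm_add_le _ _).trans (add_le_add_right (norm_add_le _ _) _)
  obtain ⟨S1, hS1⟩ : ∃ S, S = ∑ i ∈ Finset.range J, be (a + i) v x := ⟨_, rfl⟩
  obtain ⟨S2, hS2⟩ : ∃ S, S = ∑ k ∈ Finset.range a, (1 / 2) ^ k * be (a + 1 - k) v x := ⟨_, rfl⟩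
  have hSN : SN a J v x = S1 + be (a + J) v x + S2 := by
    unfold SN
    rw [Finset.sum_range_succ, hS1, hS2]
  rw [← hS1] at a2
  rw [← hS2] at a3
  have hS10 : 0 ≤ S1 := by rw [hS1]; exact Finset.sum_nonneg fun i _ => be_nn _ _ _
  have hS20 : 0 ≤ S2 := by
    rw [hS2]
    exact Finset.sum_nonneg fun k _ => mul_nonneg (by positivity) (be_nn _ _ _)
  have hb := be_nn (a + J) v x
  have a5 : C₃ * √(NN2 a v x * rr a) ≤ C₃ * S2 := mul_le_mul_of_nonneg_left a3 hC₃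
  rw [hSN]
  have a6 : 0 ≤ CD * S1 := by positivity
  have a7 : 0 ≤ CD * S2 := by positivity
  have a8 : 0 ≤ C₃ * S1 := by positivity
  have a9 : 0 ≤ C₃ * be (a + J) v x := by positivity
  have a10 : (4 * CD + C₃) * (S1 + be (a + J) v x + S2) = 4 * (CD * S1) + 4 * (CD * be (a + J) v x)
      + 4 * (CD * S2) + C₃ * S1 + C₃ * be (a + J) v x + C₃ * S2 := by ring
  rw [a10]
  linarith

theorem fast : ∃ C₁ : ℝ, 1 ≤ C₁ ∧ ∀ (T E D : ℝ) (G : Set ℝ) (u : ℝ → V → V) (p : ℝ → V → ℝ),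
    Turb 1 T E D G u p → ∀ (a J q m : ℕ) (A₀ : ℝ), 2 ≤ a → 1 ≤ A₀ →
      C₁ * A₀ ≤ 4 ^ q → C₁ * (a * A₀ * 2 ^ q) ≤ 2 ^ J → C₁ * (1 + E ^ 2) ^ 2 ≤ 2 ^ a →
      a + J ≤ m → m ≤ a + J + 4 → ∀ (t₀ : ℝ) (x₀ : V), 0 < t₀ - rr (a + q) ^ 2 →
        t₀ + rr (a + q) ^ 2 < T → Ty u (II (a + q) t₀) x₀ A₀ a →
          ∀ (X Y : ℝ → V) (B C : ℝ), FPath T (rr m) B C G u p X Y → X t₀ = x₀ →
            (∃ t, |t - t₀| < rr (a + J) ^ 2 ∧ rr (a + J + 5) < ‖X t - x₀‖) →
              ∃ i, a ≤ i + J ∧ i ≤ a + J ∧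
                rr (a + J) ≤ C₁ * (J + 1) * ∫ t in II (a + J) t₀, be i (u t) x₀ := by
  obtain ⟨C₃, hC₃, hcore⟩ := core
  obtain ⟨CD, hCD, hdy⟩ := Pool.Agent.Y8.B.p_dymo
  obtain ⟨C₁, hC₁⟩ : ∃ C, C = 128 * C₃ + 384 * (4 * CD + C₃) + 1 := ⟨_, rfl⟩
  have hC₁0 : 0 < C₁ := by rw [hC₁]; positivity
  have hC₁a : 1 ≤ C₁ := by
    rw [hC₁]
    have : 0 ≤ 128 * C₃ + 384 * (4 * CD + C₃) := by positivity
    linarith
  refine ⟨C₁, hC₁a, ?_⟩
  intro T E D G u p h a J q m A₀ ha2 hA₀ hq hJ hE hm1 hm2 t₀ x₀ ht1 ht2 hTy X Y B C hX hX0 hex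
  obtain ⟨t, htt, hfar⟩ := hex
  have hC₃C : C₃ ≤ C₁ := by
    rw [hC₁]
    have : 0 ≤ 384 * (4 * CD + C₃) := by positivity
    linarith
  have ha1 : (1 : ℝ) ≤ a := by
    have : 1 ≤ a := by omega
    exact_mod_cast this
  have h2q : (1 : ℝ) ≤ 2 ^ q := one_le_pow₀ (by norm_num)
  have hqJ : q ≤ J := by
    have h1 : (2 : ℝ) ^ q ≤ 2 ^ J := by
      refine le_trans ?_ hJ
      calc (2 : ℝ) ^ q = 1 * (1 * 1 * 2 ^ q) := by ring
        _ ≤ C₁ * (a * A₀ * 2 ^ q) := by gcongr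
    exact (pow_le_pow_iff_right₀ (by norm_num : (1 : ℝ) < 2)).1 h1
  have hJ0 : 1 ≤ J := by
    by_contra hc
    have hJ00 : J = 0 := by omega
    rw [hJ00, pow_zero] at hJ
    have h1 : C₁ * 1 ≤ C₁ * (a * A₀ * 2 ^ q) := by
      apply mul_le_mul_of_nonneg_left _ hC₁0.le
      calc (1 : ℝ) = 1 * 1 * 1 := by ring
        _ ≤ a * A₀ * 2 ^ q := by gcongr
    have h2 : 1 < C₁ := by
      rw [hC₁]
      have : 0 < 128 * C₃ + 384 * (4 * CD + C₃) := by positivity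
      linarith
    linarith
  obtain ⟨n, hn⟩ : ∃ n, n = a + J := ⟨_, rfl⟩
  have hc := hcore T E D G u p h a q A₀ ha2 hA₀
    ((mul_le_mul_of_nonneg_right hC₃C (by linarith)).trans hq)
    ((mul_le_mul_of_nonneg_right hC₃C (by positivity)).trans hE) t₀ x₀ ht1 ht2 hTy
  obtain ⟨U, hU⟩ : ∃ U : ℝ, U = a * A₀ * 2 ^ q * 2 ^ a := ⟨_, rfl⟩
  rw [← hU] at hc
  have hU0 : 0 ≤ U := by rw [hU]; positivity
  rw [← hn] at hm1 hm2 htt hfar ⊢
  have hIa : II (a + q) t₀ ⊆ Ioo 0 T := fun τ hτ => ⟨ht1.trans hτ.1, hτ.2.trans ht2⟩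
  have hIn : II n t₀ ⊆ II (a + q) t₀ := II_sub (by omega) t₀
  have hIT : II n t₀ ⊆ Ioo 0 T := hIn.trans hIa
  have hIae := sub_ae h hIT
  have hTy' := Ty_mono h (sub_ae h hIa) hIn hTy
  have hrn := rrp n
  have hUn : C₁ * U * rr n ≤ 1 := by
    have h1 : C₁ * U ≤ 2 ^ n := by
      rw [hU, hn, pow_add]
      calc C₁ * (a * A₀ * 2 ^ q * 2 ^ a) = C₁ * (a * A₀ * 2 ^ q) * 2 ^ a := by ring
        _ ≤ 2 ^ J * 2 ^ a := mul_le_mul_of_nonneg_right hJ (by positivity)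
        _ = 2 ^ a * 2 ^ J := by ring
    calc C₁ * U * rr n ≤ 2 ^ n * rr n := mul_le_mul_of_nonneg_right h1 hrn.le
      _ = 1 := two_rr n
  have hsubc : uIcc t₀ t ⊆ II n t₀ := by
    have habs := abs_lt.1 htt
    intro τ hτ
    rw [mem_uIcc] at hτ
    have h2 : 0 < rr n ^ 2 := by positivity
    rcases hτ with h1 | h1
    · exact ⟨by linarith [h1.1], by linarith [h1.2]⟩
    · exact ⟨by linarith [h1.1], by linarith [h1.2]⟩
  have hsubo : uIoc t₀ t ⊆ II n t₀ := uIoc_subset_uIcc.trans hsubc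
  have hae : ∀ᵐ τ ∂(volume.restrict (uIoc t₀ t)), τ ∈ G := by
    rw [ae_restrict_iff' measurableSet_uIoc]
    exact sub_ae h (hsubo.trans hIT)
  have hNi : IntegrableOn (fun τ => SN a J (u τ) x₀) (II n t₀) := (SN_int h a J x₀).mono_set_ae hIae
  have e5 : rr (n + 5) = rr n / 32 := by
    rw [rr_add' n 5]
    unfold rr
    norm_num
    ring
  have hft := first_time (X := X) (Y := Y) (N := fun τ => SN a J (u τ) x₀) (G := G)
      (t₀ := t₀) (t := t) (r := rr (n + 5)) (L := rr n ^ 2) (a := C₃ * U) (b := 4 * CD + C₃)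
      (rrp _) (by positivity) (by positivity) (fun τ hτ => hX.hd τ (hIT (hsubc hτ)))
      (intervalIntegrable_iff.2 ((FPath_Y_int h hX).mono_set (hsubo.trans hIT))) htt.le
      (by rw [hX0]; exact hfar) hae (hNi.mono_set hsubo) (fun τ => SN_nn _ _ _ _) (by
        intro τ hτ hτI hle
        rw [hX0] at hle
        rw [hX.ev τ hτ]
        refine speed' hCD (by linarith) hdy (h.spv hτ).1 x₀ (X τ) (by omega) (by omega) ?_
          (hc τ ⟨hIn (hsubo hτI), hτ⟩)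
        rw [← hn]
        refine hle.trans ?_
        rw [e5]
        linarith)
  have h1 : ∫ τ in uIoc t₀ t, SN a J (u τ) x₀ ≤ ∫ τ in II n t₀, SN a J (u τ) x₀ :=
    setIntegral_mono_set hNi (Filter.Eventually.of_forall fun τ => SN_nn _ _ _ _)
      hsubo.eventuallyLE
  by_contra hcon
  push Not at hcon
  obtain ⟨θ, hθ⟩ : ∃ θ, θ = rr n / (C₁ * (J + 1)) := ⟨_, rfl⟩
  have hJ1 : (0 : ℝ) < J + 1 := by positivity
  have hθ0 : 0 ≤ θ := by rw [hθ]; positivity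
  have hθ1 : (J + 1) * θ = rr n / C₁ := by
    rw [hθ]
    field_simp
  have hθ2 : θ ≤ rr n / C₁ := by
    rw [← hθ1]
    have : (0 : ℝ) ≤ J := Nat.cast_nonneg J
    nlinarith
  have hbe : ∀ i, a ≤ i + J → i ≤ n → ∫ t in II n t₀, be i (u t) x₀ ≤ θ := by
    intro i hi1 hi2
    have h2 := hcon i hi1 hi2
    rw [hθ, le_div_iff₀ (by positivity), mul_comm]
    exact h2.le
  have hI0 : MeasurableSet (II n t₀) := measurableSet_Ioo
  have hIf : volume (II n t₀) ≠ ⊤ := by unfold II; exact measure_Ioo_lt_top.ne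
  have hvol : volume.real (II n t₀) = 2 * rr n ^ 2 := by
    unfold II
    rw [measureReal_def, Real.volume_Ioo, ENNReal.toReal_ofReal (by nlinarith)]
    ring
  have hsqA : √A₀ ≤ A₀ := by
    rw [Real.sqrt_le_left (by linarith)]
    nlinarith
  have hbi : ∀ i, Integrable (fun t => be i (u t) x₀) (volume.restrict (II n t₀)) := fun i =>
    (be_int h i x₀).mono_set_ae hIae
  have hint : ∫ τ in II n t₀, SN a J (u τ) x₀ ≤ 6 * (rr n / C₁) := by
    unfold SN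
    rw [integral_add (integrable_finsetSum _ fun i _ => hbi _)
      (integrable_finsetSum _ fun k _ => (hbi _).const_mul _),
      integral_finsetSum _ fun i _ => hbi _,
      integral_finsetSum _ fun k _ => (hbi _).const_mul _]
    have s1 : ∑ i ∈ Finset.range (J + 1), ∫ t in II n t₀, be (a + i) (u t) x₀
        ≤ ∑ _i ∈ Finset.range (J + 1), θ := Finset.sum_le_sum fun i hi => by
      have := Finset.mem_range.1 hi
      exact hbe (a + i) (by omega) (by omega)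
    rw [Finset.sum_const, Finset.card_range, nsmul_eq_mul] at s1
    push_cast at s1
    have s2 : ∀ k ∈ Finset.range a, ∫ t in II n t₀, (1 / 2) ^ k * be (a + 1 - k) (u t) x₀
        ≤ θ * (1 / 2) ^ k + 3 * √A₀ * rr n * rr J := by
      intro k hk
      have hk' := Finset.mem_range.1 hk
      rw [integral_const_mul]
      have p1 : (0 : ℝ) < (1 / 2) ^ k := by positivity
      have p2 : 0 ≤ 3 * √A₀ * rr n * rr J := by
        have := rrp J
        positivity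
      by_cases hkJ : k ≤ J
      · have h3 := hbe (a + 1 - k) (by omega) (by omega)
        have h4 := mul_le_mul_of_nonneg_left h3 p1.le
        linarith
      · have h3 := be_le h hI0 hIf hIae (by linarith : 0 ≤ A₀) hTy' hrn hvol.le
          (i := a - 1 - k) (by omega)
        rw [show a - 1 - k + 2 = a + 1 - k by omega] at h3
        have h4 : ((1 : ℝ) / 2) ^ k ≤ rr J := rr_mono (by omega : J ≤ k)
        have h5 : 0 ≤ ∫ t in II n t₀, be (a + 1 - k) (u t) x₀ :=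
          integral_nonneg fun t => be_nn _ _ _
        have h6 : (1 / 2) ^ k * ∫ t in II n t₀, be (a + 1 - k) (u t) x₀
            ≤ rr J * (3 * √A₀ * rr n) := mul_le_mul h4 h3 h5 (rrp J).le
        have h7 : 0 ≤ θ * (1 / 2) ^ k := by positivity
        linarith
    have s3 := Finset.sum_le_sum s2
    rw [Finset.sum_add_distrib, ← Finset.mul_sum, Finset.sum_const, Finset.card_range,
      nsmul_eq_mul] at s3
    have s4 := mul_le_mul_of_nonneg_left (geo_le (1 / 2) (by norm_num) le_rfl a) hθ0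
    have s5 : (a : ℝ) * (3 * √A₀ * rr n * rr J) ≤ 3 * (rr n / C₁) := by
      have h3 : C₁ * (a * √A₀ * rr J) ≤ 1 := by
        have h4 : C₁ * (a * √A₀) ≤ 2 ^ J := by
          refine le_trans ?_ hJ
          apply mul_le_mul_of_nonneg_left _ hC₁0.le
          calc (a : ℝ) * √A₀ ≤ a * A₀ * 1 := by
                rw [mul_one]
                gcongr
            _ ≤ a * A₀ * 2 ^ q := by gcongr
        calc C₁ * (a * √A₀ * rr J) = C₁ * (a * √A₀) * rr J := by ring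
          _ ≤ 2 ^ J * rr J := mul_le_mul_of_nonneg_right h4 (rrp J).le
          _ = 1 := two_rr J
      have h4 : (a : ℝ) * √A₀ * rr J ≤ 1 / C₁ := by
        rw [le_div_iff₀ hC₁0]
        linarith
      have h5 := mul_le_mul_of_nonneg_right h4 (by positivity : 0 ≤ 3 * rr n)
      calc (a : ℝ) * (3 * √A₀ * rr n * rr J) = a * √A₀ * rr J * (3 * rr n) := by ring
        _ ≤ 1 / C₁ * (3 * rr n) := h5
        _ = 3 * (rr n / C₁) := by ring
    linarith
  have hb' : 0 < 4 * CD + C₃ := by positivity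
  have h3 : (4 * CD + C₃) * ∫ τ in uIoc t₀ t, SN a J (u τ) x₀
      ≤ (4 * CD + C₃) * (6 * (rr n / C₁)) :=
    mul_le_mul_of_nonneg_left (h1.trans hint) hb'.le
  have h4 : (4 * CD + C₃) * (6 * (rr n / C₁)) < rr n / 64 := by
    have e : (4 * CD + C₃) * (6 * (rr n / C₁)) = (384 * (4 * CD + C₃)) * rr n / C₁ / 64 := by
      ring
    rw [e]
    apply div_lt_div_of_pos_right _ (by norm_num)
    rw [div_lt_iff₀ hC₁0, mul_comm]
    apply mul_lt_mul_of_pos_left _ hrn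
    rw [hC₁]
    have : 0 ≤ 128 * C₃ := by positivity
    linarith
  have h5 : C₃ * U * rr n ^ 2 ≤ rr n / 128 := by
    have e : C₃ * U * rr n ^ 2 = (128 * C₃ * U * rr n) * rr n / 128 := by ring
    rw [e]
    apply div_le_div_of_nonneg_right _ (by norm_num)
    have h6 : 128 * C₃ * U * rr n ≤ C₁ * U * rr n := by
      have : 128 * C₃ ≤ C₁ := by
        rw [hC₁]
        have : 0 ≤ 384 * (4 * CD + C₃) := by positivity
        linarith
      gcongr
    have h7 := mul_le_mul_of_nonneg_right (h6.trans hUn) hrn.le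
    linarith
  rw [e5] at hft
  linarith

end

end Pool.Agent.Q193.NS
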