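import Mathlib

/-!
Covers by parabolic cylinders: dyadic parabolic cubes, counting (helper193).
-/

set_option autoImplicit false

open MeasureTheory Set
open scoped ENNReal

namespace Pool.Agent.Q193.NS

/-- The index of the dyadic parabolic cube of generation `k` which contains `z`. -/
noncomputable def idx (k : ℕ) (z : ℝ × (Fin 3 → ℝ)) : ℤ × (Fin 3 → ℤ) :=
  (⌊z.1 * 4 ^ k⌋, fun i => ⌊z.2 i * 2 ^ k⌋)

/-- The dyadic parabolic cube with index `q`. -/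
def cb (k : ℕ) (q : ℤ × (Fin 3 → ℤ)) : Set (ℝ × (Fin 3 → ℝ)) := {z | idx k z = q}

/-- The open parabolic cylinder around `z` with radius `2⁻ᵏ`. -/
def cyl (k : ℕ) (z : ℝ × (Fin 3 → ℝ)) : Set (ℝ × (Fin 3 → ℝ)) :=
  {w | |w.1 - z.1| < (1 / 4) ^ k ∧ ‖w.2 - z.2‖ < (1 / 2) ^ k}

/-- The closed parabolic cylinder. -/
def clc (c : ℝ × (Fin 3 → ℝ)) (r : ℝ) : Set (ℝ × (Fin 3 → ℝ)) :=
  {z | |z.1 - c.1| ≤ r ^ 2 ∧ ‖z.2 - c.2‖ ≤ r}

lemma idx_meas (k : ℕ) : Measurable (idx k) := by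
  unfold idx
  refine Measurable.prodMk ?_ ?_
  · exact Int.measurable_floor.comp (measurable_fst.mul_const _)
  · refine measurable_pi_lambda _ fun i => ?_
    exact Int.measurable_floor.comp (((measurable_pi_apply i).comp measurable_snd).mul_const _)

lemma cb_meas (k : ℕ) (q : ℤ × (Fin 3 → ℤ)) : MeasurableSet (cb k q) :=
  idx_meas k (measurableSet_singleton q)

/-- The neighbours of the origin. -/
noncomputable def nbs : Finset (ℤ × (Fin 3 → ℤ)) :=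
  Finset.Icc (-1) 1 ×ˢ Fintype.piFinset (fun _ => Finset.Icc (-1) 1)

lemma nbs_card : nbs.card = 81 := by
  unfold nbs
  rw [Finset.card_product, Fintype.card_piFinset]
  simp

lemma floor_near {a b : ℝ} (h : |a - b| < 1) : ⌊a⌋ - ⌊b⌋ ∈ Finset.Icc (-1 : ℤ) 1 := by
  rw [Finset.mem_Icc]
  obtain ⟨h1, h2⟩ := abs_lt.1 h
  have e1 := Int.floor_le a
  have e2 := Int.lt_floor_add_one a
  have e3 := Int.floor_le b
  have e4 := Int.lt_floor_add_one b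
  constructor
  · have : (⌊b⌋ : ℝ) < ⌊a⌋ + 2 := by linarith
    have : ⌊b⌋ < ⌊a⌋ + 2 := by exact_mod_cast this
    omega
  · have : (⌊a⌋ : ℝ) < ⌊b⌋ + 2 := by linarith
    have : ⌊a⌋ < ⌊b⌋ + 2 := by exact_mod_cast this
    omega

lemma cyl_sub (k : ℕ) (z : ℝ × (Fin 3 → ℝ)) : cyl k z ⊆ ⋃ e ∈ nbs, cb k (idx k z + e) := by
  intro w hw
  obtain ⟨h1, h2⟩ := hw
  simp only [mem_iUnion, exists_prop]
  refine ⟨idx k w - idx k z, ?_, ?_⟩
  · unfold nbs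
    rw [Finset.mem_product]
    constructor
    · show ⌊w.1 * 4 ^ k⌋ - ⌊z.1 * 4 ^ k⌋ ∈ _
      apply floor_near
      rw [← sub_mul, abs_mul, abs_of_pos (by positivity : (0 : ℝ) < 4 ^ k)]
      have h3 : ((1 : ℝ) / 4) ^ k * 4 ^ k = 1 := by
        rw [← mul_pow]
        norm_num
      rw [← h3]
      exact mul_lt_mul_of_pos_right h1 (by positivity)
    · rw [Fintype.mem_piFinset]
      intro i
      show ⌊w.2 i * 2 ^ k⌋ - ⌊z.2 i * 2 ^ k⌋ ∈ _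
      apply floor_near
      rw [← sub_mul, abs_mul, abs_of_pos (by positivity : (0 : ℝ) < 2 ^ k)]
      have h3 : ((1 : ℝ) / 2) ^ k * 2 ^ k = 1 := by
        rw [← mul_pow]
        norm_num
      rw [← h3]
      have h4 : |w.2 i - z.2 i| ≤ ‖w.2 - z.2‖ := norm_le_pi_norm (w.2 - z.2) i
      exact mul_lt_mul_of_pos_right (h4.trans_lt h2) (by positivity)
  · show idx k w = idx k z + (idx k w - idx k z)
    abel

lemma tsum_cb (μ : Measure (ℝ × (Fin 3 → ℝ))) (k : ℕ) : ∑' q, μ (cb k q) = μ univ := by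
  rw [← measure_iUnion ?_ (cb_meas k)]
  · congr 1
    exact eq_univ_of_forall fun z => mem_iUnion.2 ⟨idx k z, rfl⟩
  · intro a b hab
    rw [Function.onFun, Set.disjoint_left]
    intro z h1 h2
    exact hab (h1.symm.trans h2)

/-- The number of cubes which contain a point whose cylinder is heavy. -/
lemma count (μ : Measure (ℝ × (Fin 3 → ℝ))) (k : ℕ) (A : Set (ℝ × (Fin 3 → ℝ))) (l : ℝ≥0∞)
    (h : ∀ z ∈ A, l ≤ μ (cyl k z)) : ∑' _q : (idx k '' A), l ≤ 81 * μ univ := by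
  have h1 : ∀ q : (idx k '' A), l ≤ ∑ e ∈ nbs, μ (cb k (q.1 + e)) := by
    rintro ⟨q, z, hz, rfl⟩
    refine (h z hz).trans ((measure_mono (cyl_sub k z)).trans ?_)
    exact measure_biUnion_finset_le _ _
  calc ∑' _q : (idx k '' A), l ≤ ∑' q : (idx k '' A), ∑ e ∈ nbs, μ (cb k (q.1 + e)) :=
        ENNReal.tsum_le_tsum h1
    _ ≤ ∑' q, ∑ e ∈ nbs, μ (cb k (q + e)) :=
        ENNReal.tsum_comp_le_tsum_of_injective Subtype.val_injective
          (fun q => ∑ e ∈ nbs, μ (cb k (q + e)))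
    _ = ∑ e ∈ nbs, ∑' q, μ (cb k (q + e)) := by
        rw [Summable.tsum_finsetSum fun e _ => ENNReal.summable]
    _ = ∑ e ∈ nbs, μ univ := by
        refine Finset.sum_congr rfl fun e _ => ?_
        rw [← tsum_cb μ k]
        exact (Equiv.addRight e).tsum_eq (fun q => μ (cb k q))
    _ = 81 * μ univ := by
        rw [Finset.sum_const, nbs_card, nsmul_eq_mul]
        norm_num

/-- `A` is covered by countably many parabolic cylinders of radius at most `δ` with cost at most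
`ε`. -/
def CovLe (h : ℝ → ℝ) (δ : ℝ) (A : Set (ℝ × (Fin 3 → ℝ))) (ε : ℝ≥0∞) : Prop :=
  ∃ (ι : Type) (_ : Countable ι) (c : ι → ℝ × (Fin 3 → ℝ)) (r : ι → ℝ),
    (∀ i, 0 < r i ∧ r i ≤ δ) ∧ A ⊆ ⋃ i, clc (c i) (r i) ∧ ∑' i, ENNReal.ofReal (h (r i)) ≤ ε

lemma CovLe.mono {h : ℝ → ℝ} {δ : ℝ} {A B : Set (ℝ × (Fin 3 → ℝ))} {ε ε' : ℝ≥0∞}
    (H : CovLe h δ A ε) (hB : B ⊆ A) (he : ε ≤ ε') : CovLe h δ B ε' := by
  obtain ⟨ι, hι, c, r, h1, h2, h3⟩ := H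
  exact ⟨ι, hι, c, r, h1, hB.trans h2, h3.trans he⟩

lemma CovLe.union {h : ℝ → ℝ} {δ : ℝ} {A B : Set (ℝ × (Fin 3 → ℝ))} {ε ε' : ℝ≥0∞}
    (H : CovLe h δ A ε) (H' : CovLe h δ B ε') : CovLe h δ (A ∪ B) (ε + ε') := by
  obtain ⟨ι, hι, c, r, h1, h2, h3⟩ := H
  obtain ⟨ι', hι', c', r', h1', h2', h3'⟩ := H'
  refine ⟨ι ⊕ ι', inferInstance, Sum.elim c c', Sum.elim r r', ?_, ?_, ?_⟩
  · rintro (i | i)
    · exact h1 i
    · exact h1' i
  · rintro z (hz | hz)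
    · obtain ⟨i, hi⟩ := mem_iUnion.1 (h2 hz)
      exact mem_iUnion.2 ⟨Sum.inl i, hi⟩
    · obtain ⟨i, hi⟩ := mem_iUnion.1 (h2' hz)
      exact mem_iUnion.2 ⟨Sum.inr i, hi⟩
  · rw [Summable.tsum_sum (f := fun i => ENNReal.ofReal (h (Sum.elim r r' i))) ENNReal.summable
      ENNReal.summable]
    exact add_le_add h3 h3'

lemma CovLe.iUnion {h : ℝ → ℝ} {δ : ℝ} {κ : Type} [Countable κ]
    {A : κ → Set (ℝ × (Fin 3 → ℝ))} {ε : κ → ℝ≥0∞}
    (H : ∀ j, CovLe h δ (A j) (ε j)) : CovLe h δ (⋃ j, A j) (∑' j, ε j) := by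
  choose ι hι c r h1 h2 h3 using H
  refine ⟨Σ j, ι j, inferInstance, fun i => c i.1 i.2, fun i => r i.1 i.2, ?_, ?_, ?_⟩
  · exact fun i => h1 i.1 i.2
  · intro z hz
    obtain ⟨j, hj⟩ := mem_iUnion.1 hz
    obtain ⟨i, hi⟩ := mem_iUnion.1 (h2 j hj)
    exact mem_iUnion.2 ⟨⟨j, i⟩, hi⟩
  · rw [ENNReal.tsum_sigma']
    exact ENNReal.tsum_le_tsum h3

lemma cb_sub (k : ℕ) (q : ℤ × (Fin 3 → ℤ)) :
    cb k q ⊆ clc ((q.1 : ℝ) * (1 / 4) ^ k, fun i => (q.2 i : ℝ) * (1 / 2) ^ k) ((1 / 2) ^ k) := by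
  intro z hz
  have hz1 : ⌊z.1 * 4 ^ k⌋ = q.1 := congrArg Prod.fst hz
  have hz2 : ∀ i, ⌊z.2 i * 2 ^ k⌋ = q.2 i := fun i => congrFun (congrArg Prod.snd hz) i
  have e4 : ((1 : ℝ) / 4) ^ k * 4 ^ k = 1 := by
    rw [← mul_pow]
    norm_num
  have e2 : ((1 : ℝ) / 2) ^ k * 2 ^ k = 1 := by
    rw [← mul_pow]
    norm_num
  have e5 : (((1 : ℝ) / 2) ^ k) ^ 2 = (1 / 4) ^ k := by
    rw [← pow_mul, mul_comm, pow_mul]
    norm_num
  refine ⟨?_, ?_⟩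
  · rw [e5]
    show |z.1 - (q.1 : ℝ) * (1 / 4) ^ k| ≤ (1 / 4) ^ k
    rw [Int.floor_eq_iff] at hz1
    have p4 : (0 : ℝ) < (1 / 4) ^ k := by positivity
    have h1 : z.1 = z.1 * 4 ^ k * (1 / 4) ^ k := by
      rw [mul_assoc, mul_comm ((4 : ℝ) ^ k), e4, mul_one]
    rw [abs_le]
    have h2 := mul_le_mul_of_nonneg_right hz1.1 p4.le
    have h3 := mul_lt_mul_of_pos_right hz1.2 p4
    rw [← h1] at h2 h3
    constructor <;> nlinarith
  · rw [pi_norm_le_iff_of_nonneg (by positivity)]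
    intro i
    show |z.2 i - (q.2 i : ℝ) * (1 / 2) ^ k| ≤ (1 / 2) ^ k
    have hz2 := hz2 i
    rw [Int.floor_eq_iff] at hz2
    have p4 : (0 : ℝ) < (1 / 2) ^ k := by positivity
    have h1 : z.2 i = z.2 i * 2 ^ k * (1 / 2) ^ k := by
      rw [mul_assoc, mul_comm ((2 : ℝ) ^ k), e2, mul_one]
    rw [abs_le]
    have h2 := mul_le_mul_of_nonneg_right hz2.1 p4.le
    have h3 := mul_lt_mul_of_pos_right hz2.2 p4
    rw [← h1] at h2 h3
    constructor <;> nlinarith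

/-- The cover of the points whose cylinders are heavy. -/
lemma cov_heavy (h : ℝ → ℝ) (δ : ℝ) (μ : Measure (ℝ × (Fin 3 → ℝ))) (k : ℕ)
    (A : Set (ℝ × (Fin 3 → ℝ))) (l : ℝ≥0∞) (hl0 : l ≠ 0) (hlt : l ≠ ⊤)
    (hA : ∀ z ∈ A, l ≤ μ (cyl k z)) (hk : (1 / 2) ^ k ≤ δ) :
    CovLe h δ A (ENNReal.ofReal (h ((1 / 2) ^ k)) / l * (81 * μ univ)) := by
  refine ⟨(idx k '' A), inferInstance,
    fun q => ((q.1.1 : ℝ) * (1 / 4) ^ k, fun i => (q.1.2 i : ℝ) * (1 / 2) ^ k),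
    fun _ => (1 / 2) ^ k, fun _ => ⟨by positivity, hk⟩, ?_, ?_⟩
  · intro z hz
    exact mem_iUnion.2 ⟨⟨idx k z, z, hz, rfl⟩, cb_sub k _ rfl⟩
  · have h1 : ∀ _q : (idx k '' A), ENNReal.ofReal (h ((1 / 2) ^ k))
        = ENNReal.ofReal (h ((1 / 2) ^ k)) / l * l := fun _ =>
      (ENNReal.div_mul_cancel hl0 hlt).symm
    rw [tsum_congr h1, ENNReal.tsum_mul_left]
    exact mul_le_mul_right (count μ k A l hA) _

/-- Compression of time. -/
lemma CovLe.scale {h : ℝ → ℝ} {δ : ℝ} {A : Set (ℝ × (Fin 3 → ℝ))} {ε : ℝ≥0∞} {ν : ℝ} (hν : 0 < ν)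
    {M : ℕ} (hM : 1 / ν ≤ M) (H : CovLe h δ A ε) :
    CovLe h δ {z | (ν * z.1, z.2) ∈ A} ((2 * M + 1) * ε) := by
  obtain ⟨ι, hι, c, r, h1, h2, h3⟩ := H
  refine ⟨ι × Fin (2 * M + 1), inferInstance,
    fun i => ((c i.1).1 / ν + ((i.2 : ℕ) - (M : ℝ)) * r i.1 ^ 2, (c i.1).2), fun i => r i.1,
    fun i => h1 i.1, ?_, ?_⟩
  · intro z hz
    obtain ⟨i, hi1, hi2⟩ := mem_iUnion.1 (h2 hz)
    have hr := (h1 i).1
    have hi1 : |ν * z.1 - (c i).1| ≤ r i ^ 2 := hi1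
    have hi2 : ‖z.2 - (c i).2‖ ≤ r i := hi2
    obtain ⟨d, hd⟩ : ∃ d, d = z.1 - (c i).1 / ν := ⟨_, rfl⟩
    have hd1 : |d| ≤ M * r i ^ 2 := by
      have e : d = (ν * z.1 - (c i).1) * (1 / ν) := by
        rw [hd]
        field_simp
      rw [e, abs_mul, abs_of_pos (by positivity : 0 < 1 / ν), mul_comm]
      exact mul_le_mul hM hi1 (abs_nonneg _) (by positivity)
    obtain ⟨m, hm⟩ : ∃ m : ℤ, m = ⌊d / r i ^ 2⌋ := ⟨_, rfl⟩
    have hr2 : 0 < r i ^ 2 := by positivity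
    have hm1 : (m : ℝ) ≤ d / r i ^ 2 := by rw [hm]; exact Int.floor_le _
    have hm2 : d / r i ^ 2 < m + 1 := by rw [hm]; exact Int.lt_floor_add_one _
    rw [le_div_iff₀ hr2] at hm1
    rw [div_lt_iff₀ hr2] at hm2
    obtain ⟨hd2, hd3⟩ := abs_le.1 hd1
    have hmM : -(M : ℤ) ≤ m := by
      have : -(M : ℝ) < m + 1 := by
        by_contra hc
        push Not at hc
        have := mul_le_mul_of_nonneg_right hc hr2.le
        linarith
      have : -(M : ℤ) < m + 1 := by exact_mod_cast this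
      omega
    have hmM2 : m ≤ M := by
      by_contra hc
      push Not at hc
      have h5 : (M : ℝ) + 1 ≤ m := by exact_mod_cast hc
      have := mul_le_mul_of_nonneg_right h5 hr2.le
      nlinarith
    refine mem_iUnion.2 ⟨(i, ⟨(m + M).toNat, by omega⟩), ?_, hi2⟩
    show |z.1 - ((c i).1 / ν + ((((m + M).toNat : ℕ) : ℝ) - M) * r i ^ 2)| ≤ r i ^ 2
    have e1 : (((m + M).toNat : ℕ) : ℝ) = m + M := by
      have : (((m + M).toNat : ℕ) : ℤ) = m + M := Int.toNat_of_nonneg (by omega)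
      exact_mod_cast this
    rw [e1]
    have e2 : z.1 - ((c i).1 / ν + ((m + M : ℝ) - M) * r i ^ 2) = d - m * r i ^ 2 := by
      rw [hd]
      ring
    rw [e2, abs_le]
    constructor <;> nlinarith
  · rw [ENNReal.tsum_prod']
    simp only [tsum_fintype, Finset.sum_const, Finset.card_univ,
      Fintype.card_fin, nsmul_eq_mul]
    rw [ENNReal.tsum_mul_left]
    push_cast
    exact mul_le_mul_right h3 _

end Pool.Agent.Q193.NS
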