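import Pool.Agent.Q193.NS.Slow

/-!
Fast points, first part: estimates at a fixed time, and their integrals in time (helper193).
-/

set_option autoImplicit false

open MeasureTheory Set Metric Filter Topology
open scoped ContDiff ENNReal

namespace Pool.Agent.Q193.NS

open H459R3.NS W221.NS Pool.Agent.Y8 Pool.Agent.Y458.NS

/-- The size of the oscillation of the field at the scale `rr i`. -/
noncomputable def be (i : ℕ) (v : V → V) (x : V) : ℝ := √(2 ^ i * B2 x (4 * rr i) v)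

lemma be_nn (i : ℕ) (v : V → V) (x : V) : 0 ≤ be i v x := Real.sqrt_nonneg _

lemma rr_inv (i : ℕ) : (rr i)⁻¹ = 2 ^ i := by
  unfold rr
  rw [one_div, inv_pow, inv_inv]

lemma two_rr (i : ℕ) : 2 ^ i * rr i = 1 := by
  rw [← rr_inv]
  exact inv_mul_cancel₀ (rrp i).ne'

lemma sqrt_sum {ι : Type*} (s : Finset ι) (f : ι → ℝ) (hf : ∀ i ∈ s, 0 ≤ f i) :
    √(∑ i ∈ s, f i) ≤ ∑ i ∈ s, √(f i) := by
  classical
  induction s using Finset.induction_on with
  | empty => simp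
  | insert a s ha ih =>
    rw [Finset.sum_insert ha, Finset.sum_insert ha]
    have h1 : 0 ≤ f a := hf a (Finset.mem_insert_self _ _)
    have h2 : 0 ≤ ∑ i ∈ s, f i := Finset.sum_nonneg fun i hi => hf i (Finset.mem_insert_of_mem hi)
    have h3 := ih fun i hi => hf i (Finset.mem_insert_of_mem hi)
    have h4 : √(f a + ∑ i ∈ s, f i) ≤ √(f a) + √(∑ i ∈ s, f i) := by
      rw [Real.sqrt_le_left (by positivity)]
      nlinarith [Real.sq_sqrt h1, Real.sq_sqrt h2,
        mul_nonneg (Real.sqrt_nonneg (f a)) (Real.sqrt_nonneg (∑ i ∈ s, f i))]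
    linarith

/-- Comparison of the means at two scales. -/
lemma tele {CD : ℝ} (hCD : 0 < CD) (hdy : ∀ u : V → V, ContDiff ℝ ∞ u → ∀ (x y : V) (r s : ℝ),
    0 < s → s ≤ r → ‖y - x‖ ≤ r → ‖mo s u y - mo r u x‖ ≤ CD * √(s⁻¹ * B2 x (4 * r) u))
    {v : V → V} (hv : ContDiff ℝ ∞ v) (x : V) (a k : ℕ) :
    ‖mo (rr (a + k)) v x - mo (rr a) v x‖ ≤ 2 * CD * ∑ i ∈ Finset.range k, be (a + i) v x := by
  induction k with
  | zero => simp
  | succ k ih =>
    have h1 := hdy v hv x x (rr (a + k)) (rr (a + (k + 1))) (rrp _) (rr_mono (by omega))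
      (by rw [sub_self, norm_zero]; exact (rrp _).le)
    have h2 : √((rr (a + (k + 1)))⁻¹ * B2 x (4 * rr (a + k)) v) ≤ 2 * be (a + k) v x := by
      rw [rr_inv]
      have hb := B2_nn' x (4 * rr (a + k)) v
      have : (2 : ℝ) ^ (a + (k + 1)) * B2 x (4 * rr (a + k)) v
          ≤ 2 ^ 2 * (2 ^ (a + k) * B2 x (4 * rr (a + k)) v) := by
        rw [show a + (k + 1) = (a + k) + 1 by ring, pow_succ]
        have : 0 ≤ (2 : ℝ) ^ (a + k) * B2 x (4 * rr (a + k)) v := by positivity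
        linarith
      refine (Real.sqrt_le_sqrt this).trans (le_of_eq ?_)
      rw [Real.sqrt_mul (by positivity), Real.sqrt_sq (by norm_num)]
      rfl
    rw [Finset.sum_range_succ]
    have h3 : ‖mo (rr (a + (k + 1))) v x - mo (rr a) v x‖
        ≤ ‖mo (rr (a + (k + 1))) v x - mo (rr (a + k)) v x‖
          + ‖mo (rr (a + k)) v x - mo (rr a) v x‖ := norm_sub_le_norm_sub_add_norm_sub _ _ _
    have h4 := mul_le_mul_of_nonneg_left h2 hCD.le
    linarith

/-- The mean of a path near the point. -/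
lemma near {CD : ℝ} (hCD : 0 < CD) (hdy : ∀ u : V → V, ContDiff ℝ ∞ u → ∀ (x y : V) (r s : ℝ),
    0 < s → s ≤ r → ‖y - x‖ ≤ r → ‖mo s u y - mo r u x‖ ≤ CD * √(s⁻¹ * B2 x (4 * r) u))
    {v : V → V} (hv : ContDiff ℝ ∞ v) (x y : V) {n m : ℕ} (hnm : n ≤ m) (hmn : m ≤ n + 4)
    (hy : ‖y - x‖ ≤ rr n) : ‖mo (rr m) v y - mo (rr n) v x‖ ≤ 4 * CD * be n v x := by
  have h1 := hdy v hv x y (rr n) (rr m) (rrp _) (rr_mono hnm) hy
  have hb := B2_nn' x (4 * rr n) v
  have h2 : √((rr m)⁻¹ * B2 x (4 * rr n) v) ≤ 4 * be n v x := by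
    rw [rr_inv]
    have h3 : (2 : ℝ) ^ m ≤ 2 ^ (n + 4) := pow_le_pow_right₀ (by norm_num) hmn
    have : (2 : ℝ) ^ m * B2 x (4 * rr n) v ≤ 4 ^ 2 * (2 ^ n * B2 x (4 * rr n) v) := by
      refine (mul_le_mul_of_nonneg_right h3 hb).trans (le_of_eq ?_)
      rw [pow_add]
      ring
    refine (Real.sqrt_le_sqrt this).trans (le_of_eq ?_)
    rw [Real.sqrt_mul (by positivity), Real.sqrt_sq (by norm_num)]
    rfl
  have h4 := mul_le_mul_of_nonneg_left h2 hCD.le
  linarith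

/-- The weighted dissipation. -/
lemma sqrt_NN2 (a : ℕ) (v : V → V) (x : V) :
    √(NN2 a v x * rr a) ≤ ∑ k ∈ Finset.range a, (1 / 2) ^ k * be (a + 1 - k) v x := by
  unfold NN2
  rw [Finset.sum_mul]
  refine (sqrt_sum _ _ fun k _ => ?_).trans (Finset.sum_le_sum fun k hk => ?_)
  · have := rrp a
    have := B2_nn' x (2 ^ (k + 1) * rr a) v
    positivity
  · have hka : k < a := Finset.mem_range.1 hk
    obtain ⟨j, hj⟩ : ∃ j, a = k + j := ⟨a - k, by omega⟩
    have e0 : a + 1 - k = j + 1 := by omega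
    rw [e0]
    have hr := rrp a
    have e1 : 2 ^ (k + 1) * rr a = 4 * rr (j + 1) := by
      rw [hj, rr_add' k j, rr_add' j 1, pow_succ]
      have h1 := two_rr k
      have h2 : rr 1 = 1 / 2 := by unfold rr; norm_num
      rw [h2]
      linear_combination (2 * rr j) * h1
    have e2 : rr a ^ 2 * ((2 ^ k * rr a) ^ 4)⁻¹ * B2 x (2 ^ (k + 1) * rr a) v * rr a
        ≤ ((1 / 2) ^ k) ^ 2 * (2 ^ (j + 1) * B2 x (4 * rr (j + 1)) v) := by
      rw [e1]
      have hb := B2_nn' x (4 * rr (j + 1)) v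
      have h3 : rr a ^ 2 * ((2 ^ k * rr a) ^ 4)⁻¹ * rr a = (rr a)⁻¹ * ((1 / 2) ^ k) ^ 4 := by
        rw [one_div, inv_pow]
        field_simp
      have h4 : (rr a)⁻¹ = 2 ^ k * 2 ^ j := by rw [rr_inv, hj, pow_add]
      have h5 : ((1 : ℝ) / 2) ^ k * 2 ^ k = 1 := by
        rw [← mul_pow]
        norm_num
      have h6 : (rr a)⁻¹ * ((1 / 2) ^ k) ^ 4 ≤ ((1 / 2) ^ k) ^ 2 * 2 ^ (j + 1) := by
        rw [h4]
        have h7 : (2 : ℝ) ^ k * 2 ^ j * ((1 / 2) ^ k) ^ 4 = ((1 / 2) ^ k) ^ 2 * 2 ^ j * (1 / 2) ^ k := by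
          linear_combination (2 ^ j * ((1 / 2 : ℝ) ^ k) ^ 3) * h5
        rw [h7, pow_succ (2 : ℝ) j]
        have h8 : ((1 : ℝ) / 2) ^ k ≤ 1 := pow_le_one₀ (by norm_num) (by norm_num)
        have h9 : 0 ≤ ((1 / 2 : ℝ) ^ k) ^ 2 * 2 ^ j := by positivity
        nlinarith
      calc rr a ^ 2 * ((2 ^ k * rr a) ^ 4)⁻¹ * B2 x (4 * rr (j + 1)) v * rr a
          = (rr a ^ 2 * ((2 ^ k * rr a) ^ 4)⁻¹ * rr a) * B2 x (4 * rr (j + 1)) v := by ring
        _ = ((rr a)⁻¹ * ((1 / 2) ^ k) ^ 4) * B2 x (4 * rr (j + 1)) v := by rw [h3]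
        _ ≤ (((1 / 2) ^ k) ^ 2 * 2 ^ (j + 1)) * B2 x (4 * rr (j + 1)) v :=
            mul_le_mul_of_nonneg_right h6 hb
        _ = _ := by ring
    refine (Real.sqrt_le_sqrt e2).trans (le_of_eq ?_)
    rw [Real.sqrt_mul (by positivity), Real.sqrt_sq (by positivity)]
    rfl

section

variable {T E D : ℝ} {G : Set ℝ} {u : ℝ → V → V} {p : ℝ → V → ℝ}

lemma be_cont (h : Turb 1 T E D G u p) (i : ℕ) (x : V) :
    ContinuousOn (fun t => be i (u t) x) G := by
  have h1 : ContinuousOn (fun t => B2 x (4 * rr i) (u t)) G :=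
    pint_cont h.openG (gsq_joint h.openG h.smooth_u).continuousOn x _
  exact Real.continuous_sqrt.comp_continuousOn (continuousOn_const.mul h1)

lemma B2_int (h : Turb 1 T E D G u p) (x : V) (ρ : ℝ) :
    IntegrableOn (fun t => B2 x ρ (u t)) G :=
  B2_mov_int h (X := fun _ => x) continuousOn_const _

lemma be_int (h : Turb 1 T E D G u p) (i : ℕ) (x : V) :
    IntegrableOn (fun t => be i (u t) x) G := by
  have hi : IntegrableOn (fun t => 1 + 2 ^ i * B2 x (4 * rr i) (u t)) G :=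
    (integrableOn_const h.volG).add ((B2_int h x _).const_mul _)
  refine Integrable.mono' hi ((be_cont h i x).aestronglyMeasurable h.openG.measurableSet) ?_
  refine Eventually.of_forall fun t => ?_
  have hb : 0 ≤ 2 ^ i * B2 x (4 * rr i) (u t) := mul_nonneg (by positivity) (B2_nn' _ _ _)
  rw [Real.norm_eq_abs, abs_of_nonneg (be_nn _ _ _)]
  unfold be
  rw [Real.sqrt_le_left (by linarith)]
  nlinarith

/-- Jensen's inequality. -/
lemma int_sqrt {I : Set ℝ} (hI : MeasurableSet I) (hIf : volume I ≠ ⊤) {f : ℝ → ℝ}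
    (hf : IntegrableOn f I) (h0 : ∀ t, 0 ≤ f t) (hs : IntegrableOn (fun t => √(f t)) I)
    {L Q : ℝ} (hL : volume.real I ≤ L) (hQ : ∫ t in I, f t ≤ Q) (hL0 : 0 < L) (hQ0 : 0 ≤ Q) :
    ∫ t in I, √(f t) ≤ √(L * Q) := by
  rcases hQ0.eq_or_lt with h1 | h1
  · have h2 : ∫ t in I, f t = 0 := le_antisymm (by rw [← h1] at hQ; exact hQ)
      (integral_nonneg h0)
    have h3 := (setIntegral_eq_zero_iff_of_nonneg_ae (Eventually.of_forall h0) hf).1 h2
    have h4 : ∫ t in I, √(f t) = 0 := by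
      rw [integral_eq_zero_of_ae]
      filter_upwards [h3] with t ht
      rw [ht]
      simp
    rw [h4]
    exact Real.sqrt_nonneg _
  · obtain ⟨lm, hlm⟩ : ∃ l, l = √(Q / L) := ⟨_, rfl⟩
    have hl : 0 < lm := by rw [hlm]; positivity
    have hl2 : lm ^ 2 = Q / L := by rw [hlm]; exact Real.sq_sqrt (by positivity)
    have h2 : ∀ t, √(f t) ≤ lm / 2 + f t / (2 * lm) := by
      intro t
      have h3 : √(f t) * √(f t) = f t := Real.mul_self_sqrt (h0 t)
      have h4 : 0 ≤ (√(f t) - lm) ^ 2 := sq_nonneg _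
      rw [← sub_nonneg]
      have h5 : lm / 2 + f t / (2 * lm) - √(f t) = (√(f t) - lm) ^ 2 / (2 * lm) := by
        rw [← h3]
        field_simp
        ring_nf
        rw [Real.sqrt_sq (Real.sqrt_nonneg _)]
      rw [h5]
      positivity
    have hc : Integrable (fun _ : ℝ => lm / 2) (volume.restrict I) :=
      integrableOn_const (μ := volume) (s := I) (C := lm / 2) hIf
    have hd : Integrable (fun t : ℝ => f t / (2 * lm)) (volume.restrict I) := hf.div_const _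
    have h3 : ∫ t in I, √(f t) ≤ ∫ t in I, (lm / 2 + f t / (2 * lm)) :=
      integral_mono hs (hc.add hd) h2
    rw [integral_add hc hd, setIntegral_const, integral_div, smul_eq_mul] at h3
    have h4 : volume.real I * (lm / 2) ≤ L * (lm / 2) := by gcongr
    have h5 : (∫ t in I, f t) / (2 * lm) ≤ Q / (2 * lm) := by gcongr
    have h6 : L * (lm / 2) + Q / (2 * lm) = √(L * Q) := by
      have h7 : Q = lm ^ 2 * L := by rw [hl2]; field_simp
      have h8 : L * Q = (lm * L) ^ 2 := by rw [h7]; ring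
      rw [h8, Real.sqrt_sq (by positivity), h7]
      field_simp
      ring
    linarith

end

end Pool.Agent.Q193.NS
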