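import Pool.Agent.Q193.NS.Fast1

/-!
Fast points, second part: the bound of the mean velocity in a short window (helper193).
-/

set_option autoImplicit false

open MeasureTheory Set Metric Filter Topology
open scoped ContDiff ENNReal

namespace Pool.Agent.Q193.NS

open H459R3.NS W221.NS Pool.Agent.Y8 Pool.Agent.Y458.NS

/-- A bound of the mean velocity in a window, by its value at one time. -/
lemma sup_lem {r w A L κ C₀ c₀ B Z t₀ : ℝ} {G : Set ℝ} {M c : ℝ → V} {h N₁ N₂ : ℝ → ℝ}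
    {I : Set ℝ} (hI : I = Ioo (t₀ - w) (t₀ + w))
    (hr : 0 < r) (hw : 0 < w) (hA : 0 ≤ A) (hL : 0 ≤ L) (hc₀ : 0 < c₀) (hκ : c₀ ≤ κ)
    (hC₀ : 0 < C₀) (hB : 0 ≤ B)
    (hnull : volume (I \ G) = 0)
    (hN₁0 : ∀ t, 0 ≤ N₁ t) (hN₂0 : ∀ t, 0 ≤ N₂ t)
    (iN₁ : IntegrableOn N₁ I) (iN₂ : IntegrableOn N₂ I)
    (is : IntegrableOn (fun t => √(N₂ t)) I) (ih : IntegrableOn h I)
    (hN₁ : ∫ t in I, N₁ t ≤ A / r) (hN₂ : ∫ t in I, N₂ t ≤ A / r)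
    (hM : ∀ s ∈ I ∩ G, ∀ t ∈ I ∩ G, s ≤ t → ‖M t - M s‖ ≤ ∫ τ in Ioo s t, h τ)
    (hh0 : ∀ t, 0 ≤ h t)
    (hh : ∀ t ∈ I ∩ G, h t ≤ C₀ * (N₁ t + N₂ t + ‖c t‖ * √(N₂ t / r) + √(N₂ t) / √(r ^ 3)
      + ‖c t‖ ^ 2 + B))
    (hMc : ∀ t ∈ I ∩ G, ‖M t - κ • c t‖ ≤ C₀ * (√(N₂ t * r) + B))
    (hcL : ∀ t ∈ I ∩ G, ‖c t‖ ≤ L)
    (hZ : √(2 * w * (A / r)) ≤ Z) (hsmall : C₀ / c₀ * (Z / √r + 2 * w * L) ≤ 1 / 2) :
    ∀ s ∈ I ∩ G, ∀ t ∈ I ∩ G, ‖M t‖ ≤ 2 * ‖M s‖ + 2 * (C₀ * ((2 + C₀ / c₀) * (A / r)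
      + C₀ * B / c₀ * (Z / √r) + Z / √(r ^ 3) + L / c₀ * C₀ * (√r * Z + 2 * w * B)
      + 2 * w * B)) := by
  intro s₀ hs₀ t₁ ht₁
  have hI0 : MeasurableSet I := by rw [hI]; exact measurableSet_Ioo
  have hIf : volume I ≠ ⊤ := by rw [hI]; exact measure_Ioo_lt_top.ne
  have hvol : volume.real I = 2 * w := by
    rw [hI, measureReal_def, Real.volume_Ioo, ENNReal.toReal_ofReal (by linarith)]
    ring
  have hdiff : ∀ s ∈ I ∩ G, ∀ t ∈ I ∩ G, ‖M t‖ ≤ ‖M s‖ + ∫ τ in I, h τ := by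
    have key : ∀ s ∈ I ∩ G, ∀ t ∈ I ∩ G, s ≤ t → ‖M t - M s‖ ≤ ∫ τ in I, h τ := by
      intro s hs t ht hst
      refine (hM s hs t ht hst).trans (setIntegral_mono_set ih (Eventually.of_forall hh0) ?_)
      refine LE.le.eventuallyLE ?_
      have h1 := hs.1
      have h2 := ht.1
      rw [hI] at h1 h2 ⊢
      exact Ioo_subset_Ioo h1.1.le h2.2.le
    intro s hs t ht
    rcases le_total s t with hst | hst
    · have h1 := key s hs t ht hst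
      have h2 := norm_le_norm_add_norm_sub (M s) (M t)
      rw [norm_sub_rev] at h2
      have h3 : ‖M t‖ ≤ ‖M s‖ + ‖M t - M s‖ := by
        have := norm_add_le (M s) (M t - M s)
        rwa [add_sub_cancel] at this
      linarith
    · have h1 := key t ht s hs hst
      have h3 : ‖M t‖ ≤ ‖M s‖ + ‖M t - M s‖ := by
        have := norm_add_le (M s) (M t - M s)
        rwa [add_sub_cancel] at this
      rw [norm_sub_rev] at h1
      linarith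
  obtain ⟨W, hW⟩ : ∃ W : Set ℝ, W = (fun t => ‖M t‖) '' (I ∩ G) := ⟨_, rfl⟩
  have hbdd : BddAbove W := by
    refine ⟨‖M s₀‖ + ∫ τ in I, h τ, ?_⟩
    rw [hW]
    rintro _ ⟨t, ht, rfl⟩
    exact hdiff s₀ hs₀ t ht
  have hne : W.Nonempty := by
    rw [hW]
    exact ⟨_, s₀, hs₀, rfl⟩
  obtain ⟨S, hS⟩ : ∃ S, S = sSup W := ⟨_, rfl⟩
  have hSle : ∀ t ∈ I ∩ G, ‖M t‖ ≤ S := by
    intro t ht
    rw [hS]
    apply le_csSup hbdd
    rw [hW]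
    exact ⟨t, ht, rfl⟩
  have hS0 : 0 ≤ S := (norm_nonneg _).trans (hSle s₀ hs₀)
  have hc : ∀ t ∈ I ∩ G, ‖c t‖ ≤ (S + C₀ * (√(N₂ t) * √r + B)) / c₀ := by
    intro t ht
    rw [le_div_iff₀ hc₀, mul_comm]
    have h1 : c₀ * ‖c t‖ ≤ κ * ‖c t‖ := mul_le_mul_of_nonneg_right hκ (norm_nonneg _)
    have h2 : κ * ‖c t‖ = ‖κ • c t‖ := by
      rw [norm_smul, Real.norm_eq_abs, abs_of_pos (hc₀.trans_le hκ)]
    have h3 : ‖κ • c t‖ ≤ ‖M t‖ + ‖M t - κ • c t‖ := by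
      calc ‖κ • c t‖ = ‖M t - (M t - κ • c t)‖ := by rw [sub_sub_cancel]
        _ ≤ _ := norm_sub_le _ _
    have h4 := hMc t ht
    rw [Real.sqrt_mul (hN₂0 t)] at h4
    have h5 := hSle t ht
    linarith
  have hsr : 0 < √r := Real.sqrt_pos.2 hr
  obtain ⟨a₂, ha₂⟩ : ∃ a, a = 1 + C₀ / c₀ := ⟨_, rfl⟩
  obtain ⟨a₃, ha₃⟩ : ∃ a, a = (S + C₀ * B) / c₀ / √r + 1 / √(r ^ 3) + L / c₀ * C₀ * √r := ⟨_, rfl⟩
  obtain ⟨a₄, ha₄⟩ : ∃ a, a = L / c₀ * (S + C₀ * B) + B := ⟨_, rfl⟩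
  have ha₂0 : 0 ≤ a₂ := by rw [ha₂]; positivity
  have ha₃0 : 0 ≤ a₃ := by rw [ha₃]; positivity
  have ha₄0 : 0 ≤ a₄ := by rw [ha₄]; positivity
  have hpt : ∀ t ∈ I ∩ G, h t ≤ C₀ * (N₁ t + a₂ * N₂ t + a₃ * √(N₂ t) + a₄) := by
    intro t ht
    refine (hh t ht).trans (mul_le_mul_of_nonneg_left ?_ hC₀.le)
    have h1 := hc t ht
    have h2 := hcL t ht
    have hs0 := Real.sqrt_nonneg (N₂ t)
    have hss : √(N₂ t) * √(N₂ t) = N₂ t := Real.mul_self_sqrt (hN₂0 t)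
    have h3 : ‖c t‖ * √(N₂ t / r) ≤ (S + C₀ * B) / c₀ / √r * √(N₂ t) + C₀ / c₀ * N₂ t := by
      rw [Real.sqrt_div (hN₂0 t)]
      have h4 : ‖c t‖ * (√(N₂ t) / √r)
          ≤ (S + C₀ * (√(N₂ t) * √r + B)) / c₀ * (√(N₂ t) / √r) :=
        mul_le_mul_of_nonneg_right h1 (by positivity)
      refine h4.trans (le_of_eq ?_)
      rw [← hss]
      rw [Real.sqrt_mul_self hs0]
      field_simp
      ring
    have h5 : ‖c t‖ ^ 2 ≤ L / c₀ * C₀ * √r * √(N₂ t) + L / c₀ * (S + C₀ * B) := by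
      have h6 : ‖c t‖ ^ 2 ≤ L * ((S + C₀ * (√(N₂ t) * √r + B)) / c₀) := by
        rw [sq]
        exact mul_le_mul h2 h1 (norm_nonneg _) hL
      refine h6.trans (le_of_eq ?_)
      field_simp
      ring
    have h7 : √(N₂ t) / √(r ^ 3) = 1 / √(r ^ 3) * √(N₂ t) := by ring
    rw [h7, ha₂, ha₃, ha₄]
    linarith
  have hint : ∫ τ in I, h τ ≤ C₀ * (A / r + a₂ * (A / r) + a₃ * Z + a₄ * (2 * w)) := by
    have i1 : Integrable (fun t => a₂ * N₂ t) (volume.restrict I) := iN₂.const_mul _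
    have i2 : Integrable (fun t => a₃ * √(N₂ t)) (volume.restrict I) := is.const_mul _
    have i3 : Integrable (fun _ : ℝ => a₄) (volume.restrict I) :=
      integrableOn_const (μ := volume) (s := I) (C := a₄) hIf
    have i4 : Integrable (fun t => N₁ t + a₂ * N₂ t) (volume.restrict I) := iN₁.add i1
    have i5 : Integrable (fun t => N₁ t + a₂ * N₂ t + a₃ * √(N₂ t)) (volume.restrict I) :=
      i4.add i2
    have i6 : Integrable (fun t => N₁ t + a₂ * N₂ t + a₃ * √(N₂ t) + a₄) (volume.restrict I) :=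
      i5.add i3
    have h1 : ∫ τ in I, h τ
        ≤ ∫ t in I, C₀ * (N₁ t + a₂ * N₂ t + a₃ * √(N₂ t) + a₄) := by
      refine integral_mono_ae ih (i6.const_mul _) ?_
      have h2 : ∀ᵐ t ∂(volume.restrict I), t ∈ G := by
        rw [ae_iff, Measure.restrict_apply' hI0]
        refine measure_mono_null ?_ hnull
        rintro t ⟨ht1, ht2⟩
        exact ⟨ht2, ht1⟩
      filter_upwards [h2, ae_restrict_mem hI0] with t ht ht'
      exact hpt t ⟨ht', ht⟩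
    rw [integral_const_mul, integral_add i5 i3, integral_add i4 i2, integral_add iN₁ i1,
      integral_const_mul, integral_const_mul, setIntegral_const, hvol, smul_eq_mul] at h1
    refine h1.trans (mul_le_mul_of_nonneg_left ?_ hC₀.le)
    have h2 : a₂ * ∫ t in I, N₂ t ≤ a₂ * (A / r) := mul_le_mul_of_nonneg_left hN₂ ha₂0
    have h3 : ∫ t in I, √(N₂ t) ≤ Z := by
      refine le_trans ?_ hZ
      exact int_sqrt hI0 hIf iN₂ hN₂0 is hvol.le hN₂ (by positivity) (by positivity)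
    have h4 := mul_le_mul_of_nonneg_left h3 ha₃0
    linarith
  have hkey : ∀ t ∈ I ∩ G, ‖M t‖ ≤ ‖M s₀‖ + S / 2 + C₀ * ((2 + C₀ / c₀) * (A / r)
      + C₀ * B / c₀ * (Z / √r) + Z / √(r ^ 3) + L / c₀ * C₀ * (√r * Z + 2 * w * B)
      + 2 * w * B) := by
    intro t ht
    refine (hdiff s₀ hs₀ t ht).trans ?_
    have h1 : S * (C₀ / c₀ * (Z / √r + 2 * w * L)) ≤ S * (1 / 2) :=
      mul_le_mul_of_nonneg_left hsmall hS0
    have h2 : C₀ * (A / r + a₂ * (A / r) + a₃ * Z + a₄ * (2 * w))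
        = S * (C₀ / c₀ * (Z / √r + 2 * w * L)) + C₀ * ((2 + C₀ / c₀) * (A / r)
      + C₀ * B / c₀ * (Z / √r) + Z / √(r ^ 3) + L / c₀ * C₀ * (√r * Z + 2 * w * B)
      + 2 * w * B) := by
      rw [ha₂, ha₃, ha₄]
      ring
    linarith
  have hSup : S ≤ ‖M s₀‖ + S / 2 + C₀ * ((2 + C₀ / c₀) * (A / r)
      + C₀ * B / c₀ * (Z / √r) + Z / √(r ^ 3) + L / c₀ * C₀ * (√r * Z + 2 * w * B)
      + 2 * w * B) := by
    rw [hS]
    refine csSup_le hne ?_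
    rw [← hS, hW]
    rintro _ ⟨t, ht, rfl⟩
    exact hkey t ht
  have := hSle t₁ ht₁
  linarith

end Pool.Agent.Q193.NS
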