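import Pool.Agent.Q193.NS.Fast2

/-!
Fast points, third part: integrals over a short window (helper193).
-/

set_option autoImplicit false

open MeasureTheory Set Metric Filter Topology
open scoped ContDiff ENNReal

namespace Pool.Agent.Q193.NS

open H459R3.NS W221.NS Pool.Agent.Y8 Pool.Agent.Y458.NS

section

variable {T E D : ℝ} {G : Set ℝ} {u : ℝ → V → V} {p : ℝ → V → ℝ}

/-- The hypothesis on the dissipation around the point in a window. -/
def Ty (u : ℝ → V → V) (I : Set ℝ) (x₀ : V) (A₀ : ℝ) (a : ℕ) : Prop :=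
  ∀ j ≤ a, ∫ t in I, B2 x₀ (rr j) (u t) ≤ A₀ * rr j

lemma pow_k (k j : ℕ) : 2 ^ (k + 1) * rr (k + j + 1) = rr j := by
  rw [show k + j + 1 = (k + 1) + j by ring, rr_add' (k + 1) j]
  have := two_rr (k + 1)
  rw [← mul_assoc, this, one_mul]

lemma geo_le (c : ℝ) (hc0 : 0 ≤ c) (hc : c ≤ 1 / 2) (a : ℕ) :
    ∑ k ∈ Finset.range a, c ^ k ≤ 2 := by
  have h1 : ∑ k ∈ Finset.range a, c ^ k ≤ ∑ k ∈ Finset.range a, (1 / 2 : ℝ) ^ k :=
    Finset.sum_le_sum fun k _ => pow_le_pow_left₀ hc0 hc k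
  have h2 : ∑ k ∈ Finset.range a, (1 / 2 : ℝ) ^ k = 2 * (1 - (1 / 2) ^ a) := by
    induction a with
    | zero => simp
    | succ a ih =>
      rw [Finset.sum_range_succ, ih (Finset.sum_le_sum fun k _ => pow_le_pow_left₀ hc0 hc k),
        pow_succ]
      ring
  have h3 : (0 : ℝ) < (1 / 2) ^ a := by positivity
  linarith

lemma NN2_le (h : Turb 1 T E D G u p) {I : Set ℝ} (hI : I ≤ᵐ[volume] G) {x₀ : V} {A₀ : ℝ}
    (hA : 0 ≤ A₀) {a : ℕ} (hT : Ty u I x₀ A₀ a) :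
    ∫ t in I, NN2 a (u t) x₀ ≤ 4 * A₀ / rr a := by
  unfold NN2
  have hi : ∀ k, IntegrableOn (fun t => rr a ^ 2 * ((2 ^ k * rr a) ^ 4)⁻¹
      * B2 x₀ (2 ^ (k + 1) * rr a) (u t)) I := fun k =>
    ((B2_int h x₀ _).mono_set_ae hI).const_mul _
  rw [integral_finsetSum _ fun k _ => hi k]
  have hr := rrp a
  have h1 : ∀ k ∈ Finset.range a, ∫ t in I, rr a ^ 2 * ((2 ^ k * rr a) ^ 4)⁻¹
      * B2 x₀ (2 ^ (k + 1) * rr a) (u t) ≤ 2 * A₀ / rr a * (1 / 8) ^ k := by
    intro k hk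
    obtain ⟨j, hj⟩ : ∃ j, a = k + j + 1 := ⟨a - k - 1, by have := Finset.mem_range.1 hk; omega⟩
    have e1 : 2 ^ (k + 1) * rr a = rr j := by rw [hj]; exact pow_k k j
    rw [integral_const_mul]
    have h2 := hT j (by omega)
    rw [← e1] at h2
    refine (mul_le_mul_of_nonneg_left h2 (by positivity)).trans (le_of_eq ?_)
    rw [one_div, inv_pow]
    have e8 : (8 : ℝ) ^ k = (2 ^ k) ^ 3 := by
      rw [← pow_mul, mul_comm, pow_mul]
      norm_num
    rw [e8]
    field_simp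
    ring
  refine (Finset.sum_le_sum h1).trans ?_
  rw [← Finset.mul_sum]
  have h3 := geo_le (1 / 8) (by norm_num) (by norm_num) a
  have h4 : 0 ≤ 2 * A₀ / rr a := by positivity
  have h5 := mul_le_mul_of_nonneg_left h3 h4
  refine h5.trans (le_of_eq ?_)
  ring

lemma NN1_le (h : Turb 1 T E D G u p) {I : Set ℝ} (hI : I ≤ᵐ[volume] G) {x₀ : V} {A₀ : ℝ}
    (hA : 0 ≤ A₀) {a : ℕ} (hT : Ty u I x₀ A₀ a) :
    ∫ t in I, NN1 a a (u t) x₀ ≤ 4 * A₀ / rr a := by
  unfold NN1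
  have hf : (Finset.range a).filter (fun k => k ≤ a) = Finset.range a := by
    apply Finset.filter_true_of_mem
    intro k hk
    exact (Finset.mem_range.1 hk).le
  rw [hf]
  have hi : ∀ k, IntegrableOn (fun t => ((2 ^ k * rr a) ^ 2)⁻¹
      * B2 x₀ (2 ^ (k + 1) * rr a) (u t)) I := fun k =>
    ((B2_int h x₀ _).mono_set_ae hI).const_mul _
  rw [integral_finsetSum _ fun k _ => hi k]
  have hr := rrp a
  have h1 : ∀ k ∈ Finset.range a, ∫ t in I, ((2 ^ k * rr a) ^ 2)⁻¹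
      * B2 x₀ (2 ^ (k + 1) * rr a) (u t) ≤ 2 * A₀ / rr a * (1 / 2) ^ k := by
    intro k hk
    obtain ⟨j, hj⟩ : ∃ j, a = k + j + 1 := ⟨a - k - 1, by have := Finset.mem_range.1 hk; omega⟩
    have e1 : 2 ^ (k + 1) * rr a = rr j := by rw [hj]; exact pow_k k j
    rw [integral_const_mul]
    have h2 := hT j (by omega)
    rw [← e1] at h2
    refine (mul_le_mul_of_nonneg_left h2 (by positivity)).trans (le_of_eq ?_)
    rw [one_div, inv_pow]
    field_simp
    ring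
  refine (Finset.sum_le_sum h1).trans ?_
  rw [← Finset.mul_sum]
  have h3 := geo_le (1 / 2) (by norm_num) (by norm_num) a
  have h4 : 0 ≤ 2 * A₀ / rr a := by positivity
  have h5 := mul_le_mul_of_nonneg_left h3 h4
  refine h5.trans (le_of_eq ?_)
  ring

lemma be_le (h : Turb 1 T E D G u p) {I : Set ℝ} (hI0 : MeasurableSet I) (hIf : volume I ≠ ⊤)
    (hI : I ≤ᵐ[volume] G) {x₀ : V} {A₀ : ℝ} (hA : 0 ≤ A₀) {a : ℕ} (hT : Ty u I x₀ A₀ a) {L : ℝ}
    (hL0 : 0 < L) (hL : volume.real I ≤ 2 * L ^ 2) {i : ℕ} (hi : i ≤ a) :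
    ∫ t in I, be (i + 2) (u t) x₀ ≤ 3 * √A₀ * L := by
  unfold be
  have e1 : 4 * rr (i + 2) = rr i := by
    rw [rr_add' i 2]
    unfold rr
    ring
  rw [e1]
  have h1 : ∫ t in I, 2 ^ (i + 2) * B2 x₀ (rr i) (u t) ≤ 4 * A₀ := by
    rw [integral_const_mul]
    have h2 := mul_le_mul_of_nonneg_left (hT i hi) (by positivity : (0 : ℝ) ≤ 2 ^ (i + 2))
    refine h2.trans (le_of_eq ?_)
    have h3 := two_rr i
    rw [pow_add]
    linear_combination (4 * A₀) * h3
  have h2 : IntegrableOn (fun t => √(2 ^ (i + 2) * B2 x₀ (rr i) (u t))) I := by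
    have := (be_int h (i + 2) x₀).mono_set_ae hI
    unfold be at this
    rwa [e1] at this
  have h3 := int_sqrt hI0 hIf (((B2_int h x₀ (rr i)).mono_set_ae hI).const_mul (2 ^ (i + 2)))
    (fun t => mul_nonneg (by positivity) (B2_nn' _ _ _)) h2 hL h1 (by positivity) (by positivity)
  refine h3.trans ?_
  have h4 : 2 * L ^ 2 * (4 * A₀) ≤ (3 * L) ^ 2 * A₀ := by nlinarith [mul_nonneg (sq_nonneg L) hA]
  refine (Real.sqrt_le_sqrt h4).trans (le_of_eq ?_)
  rw [Real.sqrt_mul (by positivity), Real.sqrt_sq (by positivity)]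
  ring

/-- A time at which the oscillations are at most their means. -/
lemma good_time (h : Turb 1 T E D G u p) {I : Set ℝ} (hI0 : MeasurableSet I)
    (hIf : volume I ≠ ⊤)
    (hI : I ≤ᵐ[volume] G) {x₀ : V} {A₀ : ℝ} (hA : 0 ≤ A₀) {a : ℕ} (hT : Ty u I x₀ A₀ a) {L : ℝ}
    (hL0 : 0 < L) (hL : volume.real I = 2 * L ^ 2) :
    ∃ s ∈ I ∩ G, ∑ i ∈ Finset.range a, be (i + 2) (u s) x₀ ≤ 2 * a * √A₀ / L := by
  have hGm := h.openG.measurableSet
  have hv : (volume : Measure ℝ).restrict (I ∩ G) = volume.restrict I := by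
    apply Measure.restrict_congr_set
    filter_upwards [hI] with t ht
    apply propext
    exact ⟨fun h1 => h1.1, fun h1 => ⟨h1, ht h1⟩⟩
  have hvr : volume (I ∩ G) = volume I := by
    have := congrArg (fun μ : Measure ℝ => μ univ) hv
    simpa using this
  have hpos : volume (I ∩ G) ≠ 0 := by
    rw [hvr]
    intro h0
    have : volume.real I = 0 := by
      rw [measureReal_def, h0, ENNReal.toReal_zero]
    rw [hL] at this
    have : 0 < 2 * L ^ 2 := by positivity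
    linarith
  have hint : IntegrableOn (fun t => ∑ i ∈ Finset.range a, be (i + 2) (u t) x₀) (I ∩ G) := by
    refine IntegrableOn.mono_set ?_ inter_subset_right
    exact integrable_finsetSum _ fun i _ => be_int h (i + 2) x₀
  obtain ⟨s, hs, hs2⟩ := exists_le_setAverage hpos (by rw [hvr]; exact hIf) hint
  refine ⟨s, hs, hs2.trans ?_⟩
  rw [setAverage_eq, measureReal_def, hvr, ← measureReal_def, hL, hv, smul_eq_mul,
    integral_finsetSum _ fun i _ => (be_int h (i + 2) x₀).mono_set_ae hI]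
  have h1 : ∑ i ∈ Finset.range a, ∫ t in I, be (i + 2) (u t) x₀
      ≤ ∑ _i ∈ Finset.range a, 3 * √A₀ * L := Finset.sum_le_sum fun i hi =>
    be_le h hI0 hIf hI hA hT hL0 hL.le (Finset.mem_range.1 hi).le
  rw [Finset.sum_const, Finset.card_range, nsmul_eq_mul] at h1
  have h2 := mul_le_mul_of_nonneg_left h1 (by positivity : 0 ≤ (2 * L ^ 2)⁻¹)
  refine h2.trans ?_
  have h3 : (2 * L ^ 2)⁻¹ * (a * (3 * √A₀ * L)) = 3 / 2 * (a * √A₀ / L) := by
    field_simp
  have h4 : 0 ≤ a * √A₀ / L := by positivity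
  rw [h3]
  have h5 : 2 * (a : ℝ) * √A₀ / L = 2 * (a * √A₀ / L) := by ring
  rw [h5]
  linarith

end

end Pool.Agent.Q193.NS
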