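import Pool.Agent.Q193.NS.Fast3

/-!
Fast points, fourth part: the bound of the mean at a coarse scale (helper193).
-/

set_option autoImplicit false

open MeasureTheory Set Metric Filter Topology
open scoped ContDiff ENNReal

namespace Pool.Agent.Q193.NS

open H459R3.NS W221.NS Pool.Agent.Y8 Pool.Agent.Y458.NS

lemma NF_zero (a : ℕ) (v : V → V) (x : V) : NF a a v x = 0 := by
  unfold NF
  have hf : (Finset.range a).filter (fun k => a ≤ k) = ∅ := by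
    apply Finset.filter_false_of_mem
    intro k hk
    have := Finset.mem_range.1 hk
    omega
  rw [hf, Finset.sum_empty]

/-- The sum of the oscillations, reversed. -/
lemma sum_refl (a : ℕ) (f : ℕ → ℝ) :
    ∑ k ∈ Finset.range a, f (a + 1 - k) = ∑ i ∈ Finset.range a, f (i + 2) := by
  rw [← Finset.sum_range_reflect]
  refine Finset.sum_congr rfl fun k hk => ?_
  have := Finset.mem_range.1 hk
  congr 1
  omega

lemma abs_le_B (E : ℝ) : |E| ≤ 1 + E ^ 2 := by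
  rw [abs_le]
  constructor <;> nlinarith [sq_nonneg (E + 1 / 2), sq_nonneg (E - 1 / 2)]

lemma sqrt_le_add {x : ℝ} (hx : 0 ≤ x) : √x ≤ 1 + x := by
  rw [Real.sqrt_le_left (by linarith)]
  nlinarith

lemma sqrt_le_self' {x : ℝ} (hx : 1 ≤ x) : √x ≤ x := by
  rw [Real.sqrt_le_left (by linarith)]
  nlinarith

lemma small_zeta {C₃ A₀ s ζ k : ℝ} (hC : 9 ≤ C₃) (hk : (12 * k) ^ 2 ≤ C₃) (hA : 1 ≤ A₀)
    (hs : 0 ≤ s) (hζ : ζ = 3 * √A₀ * s) (h : C₃ * (A₀ * s ^ 2) ≤ 1) :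
    ζ ^ 2 = 9 * (A₀ * s ^ 2) ∧ ζ ≤ 1 ∧ k * ζ ≤ 1 / 4 := by
  have h0 : 0 ≤ A₀ * s ^ 2 := by positivity
  have hζ0 : 0 ≤ ζ := by rw [hζ]; positivity
  have h2 : ζ ^ 2 = 9 * (A₀ * s ^ 2) := by
    rw [hζ, mul_pow, mul_pow, Real.sq_sqrt (by linarith)]
    ring
  refine ⟨h2, ?_, ?_⟩
  · have h1 : ζ ^ 2 ≤ 1 ^ 2 := by
      rw [h2]
      nlinarith
    exact le_of_sq_le_sq h1 (by norm_num)
  · have h1 : (k * ζ) ^ 2 ≤ (1 / 4) ^ 2 := by
      rw [mul_pow, h2]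
      nlinarith
    exact le_of_sq_le_sq h1 (by norm_num)

lemma small_KE {C₃ K e B r k : ℝ} (hK : K ^ 2 ≤ C₃) (hk : (8 * K * k) ^ 2 ≤ C₃)
    (he : 0 ≤ e) (heB : e ≤ B) (hr : 0 ≤ r) (h : C₃ * (B ^ 2 * r) ≤ 1) :
    K * e * √r ≤ 1 ∧ k * (2 * (K * e * √r)) ≤ 1 / 4 := by
  have h2 : e ^ 2 * r ≤ B ^ 2 * r :=
    mul_le_mul_of_nonneg_right (pow_le_pow_left₀ he heB 2) hr
  have h0 : 0 ≤ e ^ 2 * r := by positivity
  have hs : (√r) ^ 2 = r := Real.sq_sqrt hr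
  have hC : 0 ≤ C₃ := (sq_nonneg _).trans hK
  constructor
  · have h1 : (K * e * √r) ^ 2 ≤ 1 ^ 2 := by
      have e1 : (K * e * √r) ^ 2 = K ^ 2 * (e ^ 2 * r) := by
        rw [mul_pow, mul_pow, hs]
        ring
      rw [e1, one_pow]
      exact (mul_le_mul hK h2 h0 hC).trans h
    exact le_of_sq_le_sq h1 (by norm_num)
  · have h1 : (k * (2 * (K * e * √r))) ^ 2 ≤ (1 / 4) ^ 2 := by
      have e1 : (k * (2 * (K * e * √r))) ^ 2 = (8 * K * k) ^ 2 * (e ^ 2 * r) / 16 := by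
        have : (k * (2 * (K * e * √r))) ^ 2 = k ^ 2 * 4 * K ^ 2 * e ^ 2 * (√r) ^ 2 := by ring
        rw [this, hs]
        ring
      rw [e1]
      have := (mul_le_mul hk h2 h0 hC).trans h
      linarith
    exact le_of_sq_le_sq h1 (by norm_num)

lemma Z_bd {σ A₀ r s ζ : ℝ} (hr : 0 < r) (hσ : σ = r * s) (hA : 0 ≤ A₀) (hζ0 : 0 ≤ ζ)
    (hζ : ζ ^ 2 = 9 * (A₀ * s ^ 2)) : √(2 * σ ^ 2 * (4 * A₀ / r)) ≤ √r * ζ := by
  have h1 : 2 * σ ^ 2 * (4 * A₀ / r) ≤ (√r * ζ) ^ 2 := by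
    rw [mul_pow, Real.sq_sqrt hr.le, hζ, hσ]
    have : 2 * (r * s) ^ 2 * (4 * A₀ / r) = r * (8 * (A₀ * s ^ 2)) := by
      field_simp
      ring
    rw [this]
    have : 0 ≤ A₀ * s ^ 2 := by positivity
    nlinarith
  refine (Real.sqrt_le_sqrt h1).trans (le_of_eq ?_)
  exact Real.sqrt_sq (by positivity)

lemma rem_bd {C₀ c₀ A₀ r B L σ ζ : ℝ} (hC₀ : 0 < C₀) (hc₀ : 0 < c₀) (hr : 0 < r)
    (hA : 1 ≤ A₀) (hB : 0 ≤ B) (hBr : B ≤ 1 / r) (hζ0 : 0 ≤ ζ) (hζ1 : ζ ≤ 1)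
    (hLr : L * r ≤ 1 / r) (hLw : 2 * σ ^ 2 * L ≤ 2) (hσ : σ ^ 2 ≤ 1) :
    C₀ * ((2 + C₀ / c₀) * (4 * A₀ / r)
      + C₀ * B / c₀ * (√r * ζ / √r) + √r * ζ / (r * √r)
      + L / c₀ * C₀ * (√r * (√r * ζ) + 2 * σ ^ 2 * B) + 2 * σ ^ 2 * B)
      ≤ C₀ * (11 + 8 * (C₀ / c₀)) * (A₀ / r) := by
  have hsr : 0 < √r := Real.sqrt_pos.2 hr
  have hsr2 : √r * √r = r := Real.mul_self_sqrt hr.le
  have hA0r : 1 / r ≤ A₀ / r := div_le_div_of_nonneg_right hA hr.le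
  have hr0' : 0 < 1 / r := by positivity
  have e1 : √r * ζ / √r = ζ := by field_simp
  have e2 : √r * ζ / (r * √r) = ζ / r := by field_simp
  have e3 : √r * (√r * ζ) = r * ζ := by rw [← mul_assoc, hsr2]
  rw [e1, e2, e3, mul_assoc C₀ (11 + 8 * (C₀ / c₀))]
  refine mul_le_mul_of_nonneg_left ?_ hC₀.le
  have hk : 0 ≤ C₀ / c₀ := by positivity
  have t1 : C₀ * B / c₀ * ζ ≤ C₀ / c₀ * (A₀ / r) := by
    have : C₀ * B / c₀ * ζ = C₀ / c₀ * (B * ζ) := by ring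
    rw [this]
    refine mul_le_mul_of_nonneg_left ?_ hk
    have : B * ζ ≤ B * 1 := mul_le_mul_of_nonneg_left hζ1 hB
    linarith
  have t2 : ζ / r ≤ A₀ / r := by
    refine le_trans ?_ hA0r
    exact div_le_div_of_nonneg_right hζ1 hr.le
  have t3 : L / c₀ * C₀ * (r * ζ + 2 * σ ^ 2 * B) ≤ C₀ / c₀ * (3 * (A₀ / r)) := by
    have e : L / c₀ * C₀ * (r * ζ + 2 * σ ^ 2 * B)
        = C₀ / c₀ * (L * r * ζ + 2 * σ ^ 2 * L * B) := by ring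
    rw [e]
    refine mul_le_mul_of_nonneg_left ?_ hk
    have u1 : L * r * ζ ≤ 1 / r * 1 := mul_le_mul hLr hζ1 hζ0 hr0'.le
    have u2 : 2 * σ ^ 2 * L * B ≤ 2 * B := mul_le_mul_of_nonneg_right hLw hB
    linarith
  have t4 : 2 * σ ^ 2 * B ≤ 2 * (A₀ / r) := by
    have u2 : 2 * σ ^ 2 * B ≤ 2 * 1 * B := mul_le_mul_of_nonneg_right (by linarith) hB
    linarith
  have t5 : (2 + C₀ / c₀) * (4 * A₀ / r) = 8 * (A₀ / r) + 4 * (C₀ / c₀ * (A₀ / r)) := by ring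
  have t6 : (11 + 8 * (C₀ / c₀)) * (A₀ / r) = 11 * (A₀ / r) + 8 * (C₀ / c₀ * (A₀ / r)) := by
    ring
  have t7 : 0 ≤ C₀ / c₀ * (A₀ / r) := by positivity
  have t8 : C₀ / c₀ * (3 * (A₀ / r)) = 3 * (C₀ / c₀ * (A₀ / r)) := by ring
  have t9 : 0 ≤ A₀ / r := by positivity
  rw [t5, t6]
  rw [t8] at t3
  linarith

theorem core : ∃ C₃ : ℝ, 1 ≤ C₃ ∧ ∀ (T E D : ℝ) (G : Set ℝ) (u : ℝ → V → V) (p : ℝ → V → ℝ),
    Turb 1 T E D G u p → ∀ (a q : ℕ) (A₀ : ℝ), 2 ≤ a → 1 ≤ A₀ → C₃ * A₀ ≤ 4 ^ q →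
      C₃ * (1 + E ^ 2) ^ 2 ≤ 2 ^ a → ∀ (t₀ : ℝ) (x₀ : V), 0 < t₀ - rr (a + q) ^ 2 →
        t₀ + rr (a + q) ^ 2 < T → Ty u (II (a + q) t₀) x₀ A₀ a →
          ∀ t ∈ II (a + q) t₀ ∩ G, ‖mo (rr a) (u t) x₀‖
            ≤ C₃ * (a * A₀ * 2 ^ q * 2 ^ a) + C₃ * √(NN2 a (u t) x₀ * rr a) := by
  obtain ⟨Ck, hCk, hker⟩ := Pool.Agent.Y8.B.p_ker2
  obtain ⟨CD, hCD, hdy⟩ := Pool.Agent.Y8.B.p_dymo
  obtain ⟨CH, hCH, hhb⟩ := Pool.Agent.Y8.B.p_hbd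
  obtain ⟨CM, c₀, hc₀, hc₀C, hmc⟩ := Pool.Agent.Y8.B.p_mc
  obtain ⟨K, hK, hmo⟩ := mo_bd
  have hT := Pool.Agent.Y8.B.p_tcut
  have hCM : 0 < CM := hc₀.trans_le hc₀C
  obtain ⟨C₀, hC₀⟩ : ∃ C₀, C₀ = 3 * CH + CM := ⟨_, rfl⟩
  have hC₀0 : 0 < C₀ := by rw [hC₀]; positivity
  -- the constants
  obtain ⟨R₀, hR₀⟩ : ∃ R, R = C₀ * (11 + 8 * (C₀ / c₀)) := ⟨_, rfl⟩
  have hR₀0 : 0 < R₀ := by rw [hR₀]; positivity
  obtain ⟨P, hP⟩ : ∃ P, P = 2 * (CM * (8 * K + 1) + CM * (2 * CD + 1) * 2) + 2 * R₀ := ⟨_, rfl⟩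
  have hP0 : 0 < P := by rw [hP]; positivity
  obtain ⟨C₃, hC₃⟩ : ∃ C, C = 9 + (12 * C₀ / c₀) ^ 2 + K ^ 2 + (8 * K * C₀ / c₀) ^ 2
    + (P + CM) / c₀ := ⟨_, rfl⟩
  have hC₃a : 9 ≤ C₃ := by
    rw [hC₃]
    have : 0 ≤ (12 * C₀ / c₀) ^ 2 + K ^ 2 + (8 * K * C₀ / c₀) ^ 2 + (P + CM) / c₀ := by positivity
    linarith
  have hC₃b : (12 * C₀ / c₀) ^ 2 ≤ C₃ := by
    rw [hC₃]
    have : 0 ≤ 9 + K ^ 2 + (8 * K * C₀ / c₀) ^ 2 + (P + CM) / c₀ := by positivity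
    linarith
  have hC₃c : K ^ 2 ≤ C₃ := by
    rw [hC₃]
    have : 0 ≤ 9 + (12 * C₀ / c₀) ^ 2 + (8 * K * C₀ / c₀) ^ 2 + (P + CM) / c₀ := by positivity
    linarith
  have hC₃d : (8 * K * C₀ / c₀) ^ 2 ≤ C₃ := by
    rw [hC₃]
    have : 0 ≤ 9 + (12 * C₀ / c₀) ^ 2 + K ^ 2 + (P + CM) / c₀ := by positivity
    linarith
  have hC₃e : (P + CM) / c₀ ≤ C₃ := by
    rw [hC₃]
    have : 0 ≤ 9 + (12 * C₀ / c₀) ^ 2 + K ^ 2 + (8 * K * C₀ / c₀) ^ 2 := by positivity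
    linarith
  clear hC₃
  have hC₃0 : 0 < C₃ := by linarith
  refine ⟨C₃, by linarith, ?_⟩
  intro T E D G u p h a q A₀ ha2 hA₀ hq hE t₀ x₀ ht1 ht2 hTy
  obtain ⟨r, hr⟩ : ∃ r, r = rr a := ⟨_, rfl⟩
  have hr0 : 0 < r := by rw [hr]; exact rrp a
  have hr1 : r ≤ 1 := by rw [hr]; exact rr_le1 a
  have h2r : 2 ^ a * r = 1 := by rw [hr]; exact two_rr a
  have h2r' : (2 : ℝ) ^ a = 1 / r := by rw [← h2r]; field_simp
  obtain ⟨σ, hσ⟩ : ∃ σ, σ = rr (a + q) := ⟨_, rfl⟩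
  have hσ0 : 0 < σ := by rw [hσ]; exact rrp _
  have hσr : σ = r * rr q := by rw [hσ, hr, rr_add']
  have hq0 := rrp q
  have hq1 : rr q ≤ 1 := rr_le1 q
  have hσ1 : σ ≤ r := by rw [hσr]; exact mul_le_of_le_one_right hr0.le hq1
  rw [← hσ] at ht1 ht2
  obtain ⟨I, hI⟩ : ∃ I : Set ℝ, I = Ioo (t₀ - σ ^ 2) (t₀ + σ ^ 2) := ⟨_, rfl⟩
  have hII : II (a + q) t₀ = I := by rw [hI, hσ]; rfl
  rw [hII] at hTy ⊢
  have hI0 : MeasurableSet I := by rw [hI]; exact measurableSet_Ioo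
  have hIf : volume I ≠ ⊤ := by rw [hI]; exact measure_Ioo_lt_top.ne
  have hvol : volume.real I = 2 * σ ^ 2 := by
    rw [hI, measureReal_def, Real.volume_Ioo,
      ENNReal.toReal_ofReal (by linarith [pow_pos hσ0 2])]
    ring
  have hIT : I ⊆ Ioo 0 T := by
    rw [hI]
    intro τ hτ
    exact ⟨ht1.trans hτ.1, hτ.2.trans ht2⟩
  have hIae := sub_ae h hIT
  have hnull : volume (I \ G) = 0 := by
    refine measure_mono_null ?_ h.fullG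
    exact fun τ hτ => ⟨hIT hτ.1, hτ.2⟩
  obtain ⟨hgs, hes, hen, hall⟩ := hker r hr0 hr1
  have hg0 : ∀ z, 1 / 2 ≤ ‖z‖ → gg r z = 0 := fun z hz => ((hall z).1 hz).1
  obtain ⟨κ, hκ1, hκ2, hcmp⟩ := hmc a ha2
  obtain ⟨B', hB'⟩ : ∃ B', B' = 1 + E ^ 2 := ⟨_, rfl⟩
  rw [← hB'] at hE
  have hB'1 : 1 ≤ B' := by rw [hB']; linarith [sq_nonneg E]
  have hEB : |E| ≤ B' := by rw [hB']; exact abs_le_B E
  obtain ⟨Mf, hMf⟩ : ∃ Mf : ℝ → V, Mf = fun t l => MN (rr a) (u t) x₀ l := ⟨_, rfl⟩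
  obtain ⟨cf, hcf⟩ : ∃ cf : ℝ → V, cf = fun t => mo (rr a) (u t) x₀ := ⟨_, rfl⟩
  obtain ⟨hf, hhf⟩ : ∃ hf : ℝ → ℝ, hf = fun t => ∑ l, |HH (rr a) (u t) x₀ l| := ⟨_, rfl⟩
  have hN2i : IntegrableOn (fun t => NN2 a (u t) x₀) I := (NN2_int h a x₀).mono_set_ae hIae
  have hN1i : IntegrableOn (fun t => NN1 a a (u t) x₀) I := (NN1_int h a a x₀).mono_set_ae hIae
  -- the comparison of the means
  have F1 : ∀ τ ∈ G, ‖Mf τ - κ • cf τ‖ ≤ CM * (√(NN2 a (u τ) x₀ * r) + B') := by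
    intro τ hτ
    rw [pi_norm_le_iff_of_nonneg (by positivity)]
    intro l
    have h1 := hcmp (u τ) (h.spv hτ) (h.divfree τ hτ) x₀ l
    rw [hMf, hcf]
    refine h1.trans (mul_le_mul_of_nonneg_left ?_ hCM.le)
    have := h.energy_le τ hτ
    rw [hB', hr]
    linarith
  have F2 : ∀ τ ∈ G, hf τ ≤ C₀ * (NN1 a a (u τ) x₀ + NN2 a (u τ) x₀
      + ‖cf τ‖ * √(NN2 a (u τ) x₀ / r) + √(NN2 a (u τ) x₀) / √(r ^ 3)
      + ‖cf τ‖ ^ 2 + B') := by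
    intro τ hτ
    obtain ⟨Q, hQ⟩ : ∃ Q, Q = NN1 a a (u τ) x₀ + NN2 a (u τ) x₀
      + ‖cf τ‖ * √(NN2 a (u τ) x₀ / r) + √(NN2 a (u τ) x₀) / √(r ^ 3)
      + ‖cf τ‖ ^ 2 := ⟨_, rfl⟩
    rw [← hQ]
    have hQ0 : 0 ≤ Q := by
      rw [hQ]
      have := NN1_nn a a (u τ) x₀
      have := NN2_nn a (u τ) x₀
      positivity
    have h1 : ∀ l, |HH (rr a) (u τ) x₀ l| ≤ CH * (Q + B') := by
      intro l
      have h2 := hhb (u τ) (h.spv hτ) (h.divfree τ hτ) a a ha2 x₀ l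
      refine h2.trans (mul_le_mul_of_nonneg_left ?_ hCH.le)
      have h3 := h.energy_le τ hτ
      have h4 : ‖mo (rr a) (u τ) x₀‖ ^ 2 / (2 ^ a * rr a) = ‖mo (rr a) (u τ) x₀‖ ^ 2 := by
        rw [two_rr, div_one]
      rw [NF_zero, h4, hQ, hB', hcf, hr]
      linarith
    rw [hhf]
    have h3 : ∑ l, |HH (rr a) (u τ) x₀ l| ≤ ∑ _l : Fin 3, CH * (Q + B') :=
      Finset.sum_le_sum fun l _ => h1 l
    simp at h3
    have h4 : 0 ≤ CM * (Q + B') := by positivity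
    rw [hC₀]
    refine h3.trans ?_
    linarith
  have hf0 : ∀ τ, 0 ≤ hf τ := fun τ => by
    rw [hhf]
    exact Finset.sum_nonneg fun l _ => abs_nonneg _
  have F3 : ∀ s ∈ G, ∀ t ∈ G, s ≤ t → IntegrableOn hf (Ioo s t) ∧
      ‖Mf t - Mf s‖ ≤ ∫ τ in Ioo s t, hf τ := by
    intro s hs t ht hst
    rw [hr] at hgs hg0
    have h1 := fun l => MN_mod hT h hgs hg0 x₀ l hs ht hst
    have h2 : IntegrableOn hf (Ioo s t) := by
      rw [hhf]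
      exact integrable_finsetSum _ fun l _ => (h1 l).1.abs
    refine ⟨h2, ?_⟩
    rw [pi_norm_le_iff_of_nonneg (integral_nonneg hf0)]
    intro l
    have h3 : (Mf t - Mf s) l = ∫ τ in Ioo s t, HH (rr a) (u τ) x₀ l := by
      rw [← (h1 l).2, hMf]
      rfl
    rw [h3]
    refine norm_integral_le_of_norm_le h2 (Filter.Eventually.of_forall fun τ => ?_)
    rw [hhf]
    exact Finset.single_le_sum (f := fun l => |HH (rr a) (u τ) x₀ l|)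
      (fun l _ => abs_nonneg _) (Finset.mem_univ l)
  have hhfi : IntegrableOn hf I := by
    obtain ⟨s', hs'G, hs'0, hs'1⟩ := ex_reg h ht1 le_rfl (by linarith [pow_pos hσ0 2])
    obtain ⟨t', ht'G, ht'0, ht'1⟩ := ex_reg h ht2 (by linarith [pow_pos hσ0 2]) le_rfl
    have h1 := (F3 s' hs'G t' ht'G (by linarith [pow_pos hσ0 2])).1
    rw [hI]
    exact h1.mono_set (Ioo_subset_Ioo hs'1.le ht'0.le)
  -- small quantities
  obtain ⟨ζ, hζ⟩ : ∃ ζ, ζ = 3 * √A₀ * rr q := ⟨_, rfl⟩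
  have hζ0 : 0 ≤ ζ := by rw [hζ]; positivity
  have hqA : C₃ * (A₀ * rr q ^ 2) ≤ 1 := by
    have h1 := mul_le_mul_of_nonneg_right hq (by positivity : 0 ≤ rr q ^ 2)
    have h2 : (4 : ℝ) ^ q * rr q ^ 2 = 1 := by
      have h3 := two_rr q
      have h4 : (4 : ℝ) ^ q = (2 ^ q) ^ 2 := by
        rw [← pow_mul, mul_comm, pow_mul]
        norm_num
      rw [h4, ← mul_pow, h3, one_pow]
    rw [h2] at h1
    linarith
  obtain ⟨hζ2, hζ1, hζ3⟩ := small_zeta (k := C₀ / c₀) hC₃a (by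
    have : 12 * (C₀ / c₀) = 12 * C₀ / c₀ := by ring
    rw [this]
    exact hC₃b) hA₀ hq0.le hζ hqA
  have hEr : C₃ * (B' ^ 2 * r) ≤ 1 := by
    have h1 := mul_le_mul_of_nonneg_right hE hr0.le
    rw [h2r] at h1
    linarith
  have hsr : 0 < √r := Real.sqrt_pos.2 hr0
  have hsr2 : √r * √r = r := Real.mul_self_sqrt hr0.le
  obtain ⟨hKE, hKE2⟩ := small_KE (k := C₀ / c₀) (K := K) hC₃c (by
    have : 8 * K * (C₀ / c₀) = 8 * K * C₀ / c₀ := by ring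
    rw [this]
    exact hC₃d) (abs_nonneg E) hEB hr0.le hEr
  have hBr : B' * r ≤ 1 := by
    have h1 : B' * r ≤ B' ^ 2 * r := by
      rw [sq, mul_assoc]
      exact le_mul_of_one_le_left (by positivity) hB'1
    have h2 : 0 ≤ B' ^ 2 * r := by positivity
    have h3 : 1 * (B' ^ 2 * r) ≤ C₃ * (B' ^ 2 * r) :=
      mul_le_mul_of_nonneg_right (by linarith) h2
    linarith
  -- the sup bound
  obtain ⟨L, hL⟩ : ∃ L, L = K * |E| / √(r ^ 3) := ⟨_, rfl⟩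
  have hL0 : 0 ≤ L := by rw [hL]; positivity
  have hr3 : √(r ^ 3) = r * √r := by
    rw [show r ^ 3 = r ^ 2 * r by ring, Real.sqrt_mul (by positivity), Real.sqrt_sq hr0.le]
  have hLr : L * r = K * |E| * √r / r := by
    rw [hL, hr3]
    have : K * |E| / (r * √r) * r = K * |E| * (1 / √r) := by field_simp
    rw [this]
    have h5 : 1 / √r = √r / r := by
      rw [div_eq_div_iff hsr.ne' hr0.ne', one_mul, hsr2]
    rw [h5]
    ring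
  have hLr1 : L * r ≤ 1 / r := by
    rw [hLr]
    exact div_le_div_of_nonneg_right hKE hr0.le
  have hLw : 2 * σ ^ 2 * L ≤ 2 * (K * |E| * √r) := by
    have h1 : σ ^ 2 ≤ r ^ 2 := pow_le_pow_left₀ hσ0.le hσ1 2
    have h2 : σ ^ 2 * L ≤ r ^ 2 * L := mul_le_mul_of_nonneg_right h1 hL0
    have h3 : r ^ 2 * L = K * |E| * √r := by
      have : r ^ 2 * L = r * (L * r) := by ring
      rw [this, hLr]
      field_simp
    linarith
  have hLw1 : 2 * σ ^ 2 * L ≤ 2 := by linarith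
  have hZ : √(2 * σ ^ 2 * (4 * A₀ / r)) ≤ √r * ζ :=
    Z_bd hr0 hσr (by linarith) hζ0 hζ2
  have hsup := sup_lem (r := r) (w := σ ^ 2) (A := 4 * A₀) (L := L) (κ := κ) (C₀ := C₀)
    (c₀ := c₀) (B := B') (Z := √r * ζ) (t₀ := t₀) (G := G) (M := Mf) (c := cf) (h := hf)
    (N₁ := fun t => NN1 a a (u t) x₀) (N₂ := fun t => NN2 a (u t) x₀) hI hr0 (by positivity)
    (by positivity) hL0 hc₀ hκ1 hC₀0 (by linarith) hnull (fun t => NN1_nn _ _ _ _)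
    (fun t => NN2_nn _ _ _) hN1i hN2i (by
      have h1 : IntegrableOn (fun t => 1 + NN2 a (u t) x₀) I :=
        (integrableOn_const (μ := volume) (s := I) (C := (1 : ℝ)) hIf).add hN2i
      refine Integrable.mono' h1
        (Real.continuous_sqrt.comp_aestronglyMeasurable hN2i.aestronglyMeasurable) ?_
      refine Eventually.of_forall fun t => ?_
      have hb := NN2_nn a (u t) x₀
      show ‖√(NN2 a (u t) x₀)‖ ≤ 1 + NN2 a (u t) x₀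
      rw [Real.norm_eq_abs, abs_of_nonneg (Real.sqrt_nonneg _)]
      exact sqrt_le_add hb) hhfi
    (by rw [hr]; exact NN1_le h hIae (by linarith) hTy)
    (by rw [hr]; exact NN2_le h hIae (by linarith) hTy)
    (fun s hs t ht hst => (F3 s hs.2 t ht.2 hst).2) hf0
    (fun t ht => F2 t ht.2)
    (fun t ht => (F1 t ht.2).trans (mul_le_mul_of_nonneg_right (by rw [hC₀]; linarith)
      (by positivity)))
    (fun t ht => by
      rw [hcf, hL]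
      have := hmo E (u t) (h.spv ht.2) (h.energy_le t ht.2) (rr a) x₀ (rrp a) (rr_le1 a)
      rwa [← hr] at this ⊢)
    hZ (by
      have e : √r * ζ / √r = ζ := by field_simp
      rw [e]
      have h1 : 2 * σ ^ 2 * L ≤ 2 * (K * |E| * √r) := hLw
      have h2 : C₀ / c₀ * (2 * σ ^ 2 * L) ≤ C₀ / c₀ * (2 * (K * |E| * √r)) :=
        mul_le_mul_of_nonneg_left h1 (by positivity)
      rw [mul_add]
      linarith)
  -- the remainder
  have hA0r : 1 / r ≤ A₀ / r := div_le_div_of_nonneg_right hA₀ hr0.le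
  have hr0' : 0 < 1 / r := by positivity
  have hB'r : B' ≤ 1 / r := by rw [le_div_iff₀ hr0]; exact hBr
  have hrem := rem_bd (L := L) (σ := σ) hC₀0 hc₀ hr0 hA₀ (by linarith : 0 ≤ B') hB'r hζ0 hζ1
    hLr1 hLw1 (pow_le_one₀ hσ0.le (hσ1.trans hr1))
  rw [← hr3, ← hR₀] at hrem
  -- the good time
  obtain ⟨s, hs, hs2⟩ := good_time h hI0 hIf hIae (by linarith : 0 ≤ A₀) hTy hσ0 hvol
  obtain ⟨W, hW⟩ : ∃ W, W = ∑ i ∈ Finset.range a, be (i + 2) (u s) x₀ := ⟨_, rfl⟩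
  rw [← hW] at hs2
  have hW0 : 0 ≤ W := by rw [hW]; exact Finset.sum_nonneg fun i _ => be_nn _ _ _
  obtain ⟨U, hU⟩ : ∃ U : ℝ, U = a * A₀ * 2 ^ q * 2 ^ a := ⟨_, rfl⟩
  have ha1 : (1 : ℝ) ≤ a := by
    have : 1 ≤ a := by omega
    exact_mod_cast this
  have h2q : (1 : ℝ) ≤ 2 ^ q := one_le_pow₀ (by norm_num)
  have hUA : A₀ / r ≤ U := by
    rw [hU, h2r']
    have : A₀ ≤ a * A₀ * 2 ^ q := by
      calc A₀ = 1 * A₀ * 1 := by ring
        _ ≤ a * A₀ * 2 ^ q := by gcongr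
    calc A₀ / r = A₀ * (1 / r) := by ring
      _ ≤ a * A₀ * 2 ^ q * (1 / r) := mul_le_mul_of_nonneg_right this hr0'.le
  have hWU : W ≤ 2 * U := by
    refine hs2.trans ?_
    have e1 : 2 * (a : ℝ) * √A₀ / σ = 2 * (a * √A₀ * (2 ^ q * 2 ^ a)) := by
      have : 1 / σ = 2 ^ q * 2 ^ a := by
        rw [hσ, one_div, rr_inv, pow_add, mul_comm]
      calc 2 * (a : ℝ) * √A₀ / σ = 2 * (a * √A₀ * (1 / σ)) := by ring
        _ = _ := by rw [this]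
    have hsA : √A₀ ≤ A₀ := sqrt_le_self' hA₀
    rw [e1, hU]
    have : (a : ℝ) * √A₀ * (2 ^ q * 2 ^ a) ≤ a * A₀ * (2 ^ q * 2 ^ a) := by gcongr
    linarith
  have hms : ‖Mf s‖ ≤ CM * (8 * K + 1) * B' + CM * (2 * CD + 1) * W := by
    have h1 := F1 s hs.2
    have h2 : ‖cf s‖ ≤ 8 * K * B' + 2 * CD * W := by
      have h3 := tele hCD hdy (h.spv hs.2).1 x₀ 2 (a - 2)
      rw [show 2 + (a - 2) = a by omega] at h3
      have h4 := hmo E (u s) (h.spv hs.2) (h.energy_le s hs.2) (rr 2) x₀ (rrp 2) (rr_le1 2)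
      have e5 : √(rr 2 ^ 3) = 1 / 8 := by
        have : rr 2 ^ 3 = (1 / 8) ^ 2 := by unfold rr; norm_num
        rw [this, Real.sqrt_sq (by norm_num)]
      rw [e5] at h4
      have h5 : ∑ i ∈ Finset.range (a - 2), be (2 + i) (u s) x₀ ≤ W := by
        rw [hW]
        have : ∑ i ∈ Finset.range (a - 2), be (2 + i) (u s) x₀
            = ∑ i ∈ Finset.range (a - 2), be (i + 2) (u s) x₀ :=
          Finset.sum_congr rfl fun i _ => by rw [add_comm]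
        rw [this]
        exact Finset.sum_le_sum_of_subset_of_nonneg (Finset.range_mono (by omega))
          fun i _ _ => be_nn _ _ _
      have h6 : ‖mo (rr a) (u s) x₀‖ ≤ ‖mo (rr 2) (u s) x₀‖
          + ‖mo (rr a) (u s) x₀ - mo (rr 2) (u s) x₀‖ := by
        have := norm_add_le (mo (rr 2) (u s) x₀) (mo (rr a) (u s) x₀ - mo (rr 2) (u s) x₀)
        rwa [add_sub_cancel] at this
      have h7 : 2 * CD * ∑ i ∈ Finset.range (a - 2), be (2 + i) (u s) x₀ ≤ 2 * CD * W :=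
        mul_le_mul_of_nonneg_left h5 (by positivity)
      have h8 : K * |E| / (1 / 8) ≤ 8 * K * B' := by
        have : K * |E| / (1 / 8) = 8 * K * |E| := by ring
        rw [this]
        exact mul_le_mul_of_nonneg_left hEB (by positivity)
      rw [hcf]
      show ‖mo (rr a) (u s) x₀‖ ≤ _
      linarith
    have h3 : √(NN2 a (u s) x₀ * r) ≤ W := by
      rw [hr]
      refine (sqrt_NN2 a (u s) x₀).trans ?_
      rw [hW, ← sum_refl a (fun i => be i (u s) x₀)]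
      refine Finset.sum_le_sum fun k _ => ?_
      exact mul_le_of_le_one_left (be_nn _ _ _) (pow_le_one₀ (by norm_num) (by norm_num))
    have h4 : ‖Mf s‖ ≤ ‖κ • cf s‖ + ‖Mf s - κ • cf s‖ := by
      have := norm_add_le (κ • cf s) (Mf s - κ • cf s)
      rwa [add_sub_cancel] at this
    have h5 : ‖κ • cf s‖ ≤ CM * (8 * K * B' + 2 * CD * W) := by
      rw [norm_smul, Real.norm_eq_abs, abs_of_pos (hc₀.trans_le hκ1)]
      exact mul_le_mul hκ2 h2 (norm_nonneg _) hCM.le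
    have h6 : CM * (√(NN2 a (u s) x₀ * r) + B') ≤ CM * (W + B') :=
      mul_le_mul_of_nonneg_left (by linarith) hCM.le
    have h7 : CM * (8 * K * B' + 2 * CD * W) + CM * (W + B')
        = CM * (8 * K + 1) * B' + CM * (2 * CD + 1) * W := by ring
    linarith
  intro t ht
  have h1 := hsup s hs t ht
  have h2 : ‖Mf t‖ ≤ P * U := by
    have h3 : CM * (8 * K + 1) * B' ≤ CM * (8 * K + 1) * U := by
      apply mul_le_mul_of_nonneg_left _ (by positivity)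
      linarith
    have h4 : CM * (2 * CD + 1) * W ≤ CM * (2 * CD + 1) * (2 * U) :=
      mul_le_mul_of_nonneg_left hWU (by positivity)
    have h5 : R₀ * (A₀ / r) ≤ R₀ * U := mul_le_mul_of_nonneg_left hUA hR₀0.le
    have h6 : P * U = 2 * (CM * (8 * K + 1) * U + CM * (2 * CD + 1) * (2 * U)) + 2 * (R₀ * U) := by
      rw [hP]
      ring
    linarith
  have h3 : ‖cf t‖ ≤ (P * U + CM * (√(NN2 a (u t) x₀ * r) + B')) / c₀ := by
    rw [le_div_iff₀ hc₀, mul_comm]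
    have u1 : c₀ * ‖cf t‖ ≤ κ * ‖cf t‖ := mul_le_mul_of_nonneg_right hκ1 (norm_nonneg _)
    have u2 : κ * ‖cf t‖ = ‖κ • cf t‖ := by
      rw [norm_smul, Real.norm_eq_abs, abs_of_pos (hc₀.trans_le hκ1)]
    have u3 : ‖κ • cf t‖ ≤ ‖Mf t‖ + ‖Mf t - κ • cf t‖ := by
      calc ‖κ • cf t‖ = ‖Mf t - (Mf t - κ • cf t)‖ := by rw [sub_sub_cancel]
        _ ≤ _ := norm_sub_le _ _
    have u4 := F1 t ht.2
    linarith
  rw [← hU]
  have h4 : ‖mo (rr a) (u t) x₀‖ = ‖cf t‖ := by rw [hcf]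
  rw [h4]
  refine h3.trans ?_
  have hN0 : 0 ≤ √(NN2 a (u t) x₀ * r) := Real.sqrt_nonneg _
  have hU0 : 0 ≤ U := le_trans (by positivity) hUA
  have h5 : (P * U + CM * (√(NN2 a (u t) x₀ * r) + B')) / c₀
      ≤ (P + CM) / c₀ * U + (P + CM) / c₀ * √(NN2 a (u t) x₀ * r) := by
    rw [div_mul_eq_mul_div, div_mul_eq_mul_div, ← add_div]
    apply div_le_div_of_nonneg_right _ hc₀.le
    have u1 : CM * B' ≤ CM * U := mul_le_mul_of_nonneg_left (by linarith) hCM.le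
    have u2 : 0 ≤ P * √(NN2 a (u t) x₀ * r) := by positivity
    have u3 : (P + CM) * U + (P + CM) * √(NN2 a (u t) x₀ * r)
        = P * U + CM * √(NN2 a (u t) x₀ * r) + CM * U + P * √(NN2 a (u t) x₀ * r) := by ring
    rw [u3]
    have u4 : P * U + CM * (√(NN2 a (u t) x₀ * r) + B')
        = P * U + CM * √(NN2 a (u t) x₀ * r) + CM * B' := by ring
    rw [u4]
    linarith
  have h6 : (P + CM) / c₀ * U ≤ C₃ * U := mul_le_mul_of_nonneg_right hC₃e hU0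
  have h7 : (P + CM) / c₀ * √(NN2 a (u t) x₀ * r) ≤ C₃ * √(NN2 a (u t) x₀ * r) :=
    mul_le_mul_of_nonneg_right hC₃e hN0
  rw [← hr]
  linarith

end Pool.Agent.Q193.NS
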