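import Pool.Agent.Q193.NS.Level

/-!
Pigeonholing over the levels: the typical singular points (helper193).
-/

set_option autoImplicit false

open MeasureTheory Set Metric Filter Topology
open scoped ContDiff ENNReal

namespace Pool.Agent.Q193.NS

open H459R3.NS W221.NS Pool.Agent.Y7 Pool.Agent.Y8 Pool.Agent.Y458.NS

/-- The gauge condition on dyadic radii. -/
def Gau (h : ℝ → ℝ) : Prop := ∀ ε : ℝ, 0 < ε → ∃ k₀ : ℕ, ∀ k ≥ k₀,
  h (rr k) * ((Nat.clog 2 k : ℝ) + 1) ^ 4 ≤ ε * (k * rr k)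

lemma pow_big (m : ℕ) (hm : 7 ≤ m) : 14 * (m + 1) + 6 ≤ 2 ^ m := by
  induction m, hm using Nat.le_induction with
  | base => norm_num
  | succ n hn ih =>
    rw [pow_succ]
    omega

lemma clog_facts {N : ℕ} (hN : 256 ≤ N) : 8 ≤ Nat.clog 2 N ∧ 14 * Nat.clog 2 N + 6 ≤ N ∧
    N ≤ 2 ^ Nat.clog 2 N := by
  have h7 : 7 < Nat.clog 2 N := (Nat.lt_clog_iff_pow_lt one_lt_two).2 (by norm_num; omega)
  obtain ⟨m, hm⟩ : ∃ m, Nat.clog 2 N = m + 1 := ⟨Nat.clog 2 N - 1, by omega⟩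
  have h8 : 2 ^ m < N := (Nat.lt_clog_iff_pow_lt one_lt_two).1 (by omega)
  have h9 := pow_big m (by omega)
  refine ⟨by omega, by rw [hm]; omega, Nat.le_pow_clog one_lt_two N⟩

lemma clog_half {N k : ℕ} (h : N ≤ 2 * k) : Nat.clog 2 N ≤ Nat.clog 2 k + 1 := by
  apply Nat.clog_le_of_le_pow
  have := Nat.le_pow_clog one_lt_two k
  rw [pow_succ]
  omega

lemma D_nonneg {ν T E D : ℝ} {G : Set ℝ} {u : ℝ → V → V} {p : ℝ → V → ℝ}
    (h : Turb ν T E D G u p) : 0 ≤ D :=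
  le_trans (integral_nonneg fun _ => W221.NS.enstrophy_nonneg _) h.enst_le

lemma sum_shift {f : ℕ → ℝ≥0∞} {S : Finset ℕ} {g : ℕ → ℕ} (hg : Set.InjOn g S) {B : ℝ≥0∞}
    (hB : ∀ S' : Finset ℕ, ∑ k ∈ S', f k ≤ B) : ∑ a ∈ S, f (g a) ≤ B := by
  classical
  rw [← Finset.sum_image (f := f) hg]
  exact hB _

/-- The real inequality behind the pigeonhole argument. -/
lemma final_arith {C₁ A ε N L D γ J K : ℝ} (hC₁ : 1 ≤ C₁) (hA : 0 < A)
    (hL : 1 ≤ L) (hD : 0 ≤ D) (hγ : γ * L ^ 4 = 3 * ε * N) (hγ0 : 0 ≤ γ) (hJ : J = 7 * L)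
    (hK : K = 12 * L) :
    4096 * γ * (81 * (A * D)) + (2 * J + 1) * (128 * C₁ ^ 2 * (J + 1) ^ 2 * γ *
      (81 * ((K + 1) * (125 * D))))
      ≤ N * ((4096 * 81 * 3 * A + 12480 * 128 * 81 * 125 * 3 * C₁ ^ 2) * ε * D) := by
  have h1 : γ ≤ 3 * ε * N := by
    rw [← hγ]
    nlinarith [one_le_pow₀ hL (n := 4)]
  have h2 : 2 * J + 1 ≤ 15 * L := by rw [hJ]; linarith
  have h3 : (J + 1) ^ 2 ≤ 64 * L ^ 2 := by
    have : J + 1 ≤ 8 * L := by rw [hJ]; linarith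
    calc (J + 1) ^ 2 ≤ (8 * L) ^ 2 := pow_le_pow_left₀ (by rw [hJ]; linarith) this 2
      _ = 64 * L ^ 2 := by ring
  have h4 : K + 1 ≤ 13 * L := by rw [hK]; linarith
  have hK1 : 0 ≤ K + 1 := by rw [hK]; linarith
  have hJ1 : 0 ≤ 2 * J + 1 := by rw [hJ]; linarith
  calc 4096 * γ * (81 * (A * D)) + (2 * J + 1) * (128 * C₁ ^ 2 * (J + 1) ^ 2 * γ *
      (81 * ((K + 1) * (125 * D))))
      ≤ 4096 * (3 * ε * N) * (81 * (A * D)) + (15 * L) * (128 * C₁ ^ 2 * (64 * L ^ 2) * γ *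
      (81 * ((13 * L) * (125 * D)))) := by gcongr
    _ = 4096 * (3 * ε * N) * (81 * (A * D)) + 12480 * 128 * 81 * 125 * C₁ ^ 2 * D * (γ * L ^ 4) := by
        ring
    _ = _ := by rw [hγ]; ring

/-- The levels of the dissipation. -/
lemma lev_arith {C₁ A₀ N X : ℝ} {L j : ℕ} (hA₀ : A₀ = 32 * N ^ 3) (e0 : 0 < X) (e1 : X ≤ N)
    (hNC : 65536 * C₁ ^ 2 ≤ N) (hN12 : N ^ 12 ≤ 2 ^ (12 * L)) (hC₁ : 1 ≤ C₁) :
    4 ^ j * (128 * C₁ * X * A₀) ^ 2 ≤ 4 ^ j / (16 * C₁ * X) ^ 2 * 2 ^ (12 * L) := by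
  have hN0 : 0 < N := e0.trans_le e1
  have h1 : 65536 * C₁ ^ 2 * X ^ 2 * N ^ 3 ≤ N * N ^ 2 * N ^ 3 := by gcongr
  rw [div_mul_eq_mul_div, le_div_iff₀ (by positivity)]
  have h2 : 4 ^ j * (128 * C₁ * X * A₀) ^ 2 * (16 * C₁ * X) ^ 2
      = 4 ^ j * (65536 * C₁ ^ 2 * X ^ 2 * N ^ 3) ^ 2 := by
    rw [hA₀]
    ring
  rw [h2]
  have h3 : (65536 * C₁ ^ 2 * X ^ 2 * N ^ 3) ^ 2 ≤ 2 ^ (12 * L) := by
    calc (65536 * C₁ ^ 2 * X ^ 2 * N ^ 3) ^ 2 ≤ (N * N ^ 2 * N ^ 3) ^ 2 :=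
          pow_le_pow_left₀ (by positivity) h1 2
      _ = N ^ 12 := by ring
      _ ≤ 2 ^ (12 * L) := hN12
  exact mul_le_mul_of_nonneg_left h3 (by positivity)

lemma cost_real {γ A D B : ℝ} {J K : ℕ} (hγ : 0 ≤ γ) (hA : 0 ≤ A) (hD : 0 ≤ D) (hB : 0 ≤ B) :
    ENNReal.ofReal (4096 * γ) * (81 * ENNReal.ofReal (A * D)) + ((2 * J + 1 : ℕ) : ℝ≥0∞) *
      (ENNReal.ofReal B * (81 * (((K : ℝ≥0∞) + 1) * (125 * ENNReal.ofReal D))))
    = ENNReal.ofReal (4096 * γ * (81 * (A * D)) + (2 * (J : ℝ) + 1) *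
            (B * (81 * (((K : ℝ) + 1) * (125 * D))))) := by
  have e81 : (81 : ℝ≥0∞) = ENNReal.ofReal 81 := by norm_num
  have e125 : (125 : ℝ≥0∞) = ENNReal.ofReal 125 := by norm_num
  have eK : ((K : ℝ≥0∞) + 1) = ENNReal.ofReal ((K : ℝ) + 1) := by
    rw [ENNReal.ofReal_add (by positivity) (by norm_num)]
    simp
  have eJ : ((2 * J + 1 : ℕ) : ℝ≥0∞) = ENNReal.ofReal (2 * (J : ℝ) + 1) := by
    rw [← ENNReal.ofReal_natCast]
    push_cast
    rfl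
  rw [e81, e125, eK, eJ, ← ENNReal.ofReal_mul (by norm_num), ← ENNReal.ofReal_mul (by positivity),
    ← ENNReal.ofReal_mul (by norm_num), ← ENNReal.ofReal_mul (by positivity),
    ← ENNReal.ofReal_mul (by norm_num), ← ENNReal.ofReal_mul (by positivity),
    ← ENNReal.ofReal_mul (by positivity), ← ENNReal.ofReal_add (by positivity) (by positivity)]

theorem typ : ∃ C₂ : ℝ, 0 < C₂ ∧ ∀ (T E D : ℝ) (G : Set ℝ) (u : ℝ → V → V)
    (p : ℝ → V → ℝ), Turb 1 T E D G u p → ∀ (h : ℝ → ℝ), Gau h → ∀ (δ ε α β : ℝ), 0 < δ → 0 < ε →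
      0 < α → β < T → ∀ k₀ : ℕ,
      CovLe h δ {z | z.1 ∈ Icc α β ∧ z.2 ∈ cube ∧ SingPt G u z.1 z.2 ∧
        ∀ j ≥ k₀, Ps G u (cyl j z) ≤ ENNReal.ofReal ((j : ℝ) ^ 3 * rr j)}
        (ENNReal.ofReal (C₂ * ε * D)) := by
  obtain ⟨C₁, η, hC₁, hη, hlev⟩ := level
  obtain ⟨A, hA, hMb⟩ := Mb_sum η hη
  refine ⟨4096 * 81 * 3 * A + 12480 * 128 * 81 * 125 * 3 * C₁ ^ 2, by positivity, ?_⟩
  intro T E D G u p hN h hg δ ε α β hδ hε hα hβ k₀
  have hD := D_nonneg hN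
  obtain ⟨k₁, hk₁⟩ := hg ε hε
  obtain ⟨k₂, hk₂⟩ : ∃ k₂ : ℕ, rr k₂ < min δ (min α (T - β)) := by
    unfold rr
    exact exists_pow_lt_of_lt_one (lt_min hδ (lt_min hα (by linarith))) (by norm_num)
  obtain ⟨hk₂δ, hk₂'⟩ := lt_min_iff.1 hk₂
  obtain ⟨hk₂α, hk₂β⟩ := lt_min_iff.1 hk₂'
  -- the block
  obtain ⟨N, hNL⟩ : ∃ N : ℕ, 256 ≤ N ∧ 2 * k₁ ≤ N ∧ 2 * k₂ ≤ N ∧ k₀ ≤ N ∧ 65536 * C₁ ^ 2 ≤ N ∧
      C₁ * (1 + E ^ 2) ^ 2 ≤ N ∧ 125 * D * 2 ^ k₀ ≤ N := by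
    obtain ⟨m, hm⟩ := exists_nat_ge (max (65536 * C₁ ^ 2) (max (C₁ * (1 + E ^ 2) ^ 2)
      (125 * D * 2 ^ k₀)))
    refine ⟨256 + 2 * k₁ + 2 * k₂ + k₀ + m, by omega, by omega, by omega, by omega, ?_, ?_, ?_⟩
    all_goals
      push_cast
      have h1 := (le_max_left _ _).trans hm
      have h2 := ((le_max_left _ _).trans (le_max_right _ _)).trans hm
      have h3 := ((le_max_right _ _).trans (le_max_right _ _)).trans hm
      have h4 : (0 : ℝ) ≤ k₁ := by positivity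
      have h5 : (0 : ℝ) ≤ k₂ := by positivity
      have h6 : (0 : ℝ) ≤ k₀ := by positivity
      linarith
  obtain ⟨hN256, hNk₁, hNk₂, hNk₀, hNC, hNE, hND⟩ := hNL
  obtain ⟨L, hL⟩ : ∃ L, L = Nat.clog 2 N := ⟨_, rfl⟩
  obtain ⟨hL8, hL14, hN2L⟩ := clog_facts hN256
  rw [← hL] at hL8 hL14 hN2L
  have hN2L' : (N : ℝ) ≤ 2 ^ L := by exact_mod_cast hN2L
  have hN1 : (256 : ℝ) ≤ N := by exact_mod_cast hN256
  have hL1 : (1 : ℝ) ≤ L := by
    have : 1 ≤ L := by omega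
    exact_mod_cast this
  have hLN : 14 * (L : ℝ) + 6 ≤ N := by exact_mod_cast hL14
  obtain ⟨A₀, hA₀⟩ : ∃ A₀ : ℝ, A₀ = 32 * (N : ℝ) ^ 3 := ⟨_, rfl⟩
  obtain ⟨γ, hγ⟩ : ∃ γ : ℝ, γ = 3 * ε * N / (L : ℝ) ^ 4 := ⟨_, rfl⟩
  have hL4 : (0 : ℝ) < (L : ℝ) ^ 4 := by positivity
  have hγ0 : 0 ≤ γ := by rw [hγ]; positivity
  have hγ1 : γ * (L : ℝ) ^ 4 = 3 * ε * N := by
    rw [hγ]
    field_simp
  have hC₁N : 64 * C₁ ≤ N := by nlinarith
  have hA1 : 1 ≤ A₀ := by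
    rw [hA₀]
    nlinarith [pow_le_pow_left₀ (by norm_num) hN1 3]
  have hN4 : (N : ℝ) ^ 4 ≤ 4 ^ (2 * L) := by
    calc (N : ℝ) ^ 4 ≤ (2 ^ L) ^ 4 := pow_le_pow_left₀ (by positivity) hN2L' 4
      _ = 4 ^ (2 * L) := by
        rw [← pow_mul, show (4 : ℝ) = 2 ^ 2 by norm_num, ← pow_mul]
        congr 1
        ring
  have hq : C₁ * A₀ ≤ 4 ^ (2 * L) := by
    refine le_trans ?_ hN4
    rw [hA₀]
    have : (0 : ℝ) ≤ (N : ℝ) ^ 3 := by positivity
    nlinarith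
  have hN5 : (N : ℝ) ^ 5 ≤ 2 ^ (5 * L) := by
    calc (N : ℝ) ^ 5 ≤ (2 ^ L) ^ 5 := pow_le_pow_left₀ (by positivity) hN2L' 5
      _ = 2 ^ (5 * L) := by
        rw [← pow_mul]
        congr 1
        ring
  have hN12 : (N : ℝ) ^ 12 ≤ 2 ^ (12 * L) := by
    calc (N : ℝ) ^ 12 ≤ (2 ^ L) ^ 12 := pow_le_pow_left₀ (by positivity) hN2L' 12
      _ = 2 ^ (12 * L) := by
        rw [← pow_mul]
        congr 1
        ring
  have hNpow : (N : ℝ) ≤ 2 ^ N := by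
    exact_mod_cast (Nat.lt_two_pow_self (n := N)).le
  -- the level
  have key : ∀ a ∈ Finset.Ico N (2 * N), CovLe h δ {z | z.1 ∈ Icc α β ∧ z.2 ∈ cube ∧
      SingPt G u z.1 z.2 ∧ ∀ j ≥ k₀, Ps G u (cyl j z) ≤ ENNReal.ofReal ((j : ℝ) ^ 3 * rr j)}
      (ENNReal.ofReal (4096 * γ) * (81 * Mb η G u (a + 7 * L - 4) univ)
        + ∑ j ∈ Finset.range (2 * (7 * L) + 1),
          ENNReal.ofReal (128 * C₁ ^ 2 * (((7 * L : ℕ) : ℝ) + 1) ^ 2 * γ)
          * (81 * Ps G u (Lv G u (4 ^ j / (16 * C₁ * (((7 * L : ℕ) : ℝ) + 1)) ^ 2)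
            (4 ^ j * (128 * C₁ * (((7 * L : ℕ) : ℝ) + 1) * A₀) ^ 2) (a + 7 * L - j)))) := by
    intro a ha
    rw [Finset.mem_Ico] at ha
    have haN : (N : ℝ) ≤ a := by exact_mod_cast ha.1
    have ha2N : (a : ℝ) ≤ 2 * N := by exact_mod_cast ha.2.le
    refine hlev T E D G u p hN a (7 * L) (2 * L) A₀ (by omega) hA1 hq ?_ ?_ h δ γ ?_ hγ0 ?_ _ ?_
    · calc C₁ * (a * A₀ * 2 ^ (2 * L)) ≤ C₁ * (2 * N * A₀ * 2 ^ (2 * L)) := by gcongr
        _ = (64 * C₁) * N ^ 4 * 2 ^ (2 * L) := by rw [hA₀]; ring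
        _ ≤ N * N ^ 4 * 2 ^ (2 * L) := by gcongr
        _ = N ^ 5 * 2 ^ (2 * L) := by ring
        _ ≤ 2 ^ (5 * L) * 2 ^ (2 * L) := by gcongr
        _ = 2 ^ (7 * L) := by rw [← pow_add]; congr 1; ring
    · calc C₁ * (1 + E ^ 2) ^ 2 ≤ N := hNE
        _ ≤ 2 ^ N := hNpow
        _ ≤ 2 ^ a := pow_le_pow_right₀ (by norm_num) ha.1
    · exact (rr_mono (by omega : k₂ ≤ a - 7 * L - 2)).trans hk₂δ.le
    · intro k hk1 hk2
      have hkN : N ≤ 2 * k := by omega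
      have h1 := hk₁ k (by omega)
      have h2 : (L : ℝ) ≤ (Nat.clog 2 k : ℝ) + 1 := by
        have := clog_half hkN
        rw [← hL] at this
        exact_mod_cast this
      have hr := rrp k
      have hk3 : (k : ℝ) ≤ 3 * N := by
        have : k ≤ 3 * N := by omega
        exact_mod_cast this
      rcases le_or_gt (h (rr k)) 0 with hneg | hpos
      · exact hneg.trans (by positivity)
      · rw [hγ, div_mul_eq_mul_div, le_div_iff₀ hL4]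
        calc h (rr k) * (L : ℝ) ^ 4 ≤ h (rr k) * ((Nat.clog 2 k : ℝ) + 1) ^ 4 := by gcongr
          _ ≤ ε * (k * rr k) := h1
          _ ≤ ε * (3 * N * rr k) := by gcongr
          _ = _ := by ring
    · rintro z ⟨hz1, hz2, hz3, hz4⟩
      have hrq : rr (a + 2 * L) ^ 2 ≤ rr k₂ := by
        have h1 := rrp (a + 2 * L)
        have h2 := rr_le1 (a + 2 * L)
        calc rr (a + 2 * L) ^ 2 ≤ rr (a + 2 * L) := by nlinarith
          _ ≤ rr k₂ := rr_mono (by omega)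
      refine ⟨hz2, hz3, ?_, ?_, ?_⟩
      · linarith [hz1.1]
      · linarith [hz1.2]
      · intro j hj
        have hr := rrp j
        rcases le_or_gt k₀ j with hjk | hjk
        · refine (hz4 j hjk).trans (ENNReal.ofReal_le_ofReal ?_)
          have hj3 : (j : ℝ) ≤ 3 * N := by
            have : j ≤ 3 * N := by omega
            exact_mod_cast this
          have h5 : (j : ℝ) ^ 3 ≤ A₀ := by
            calc (j : ℝ) ^ 3 ≤ (3 * N) ^ 3 := pow_le_pow_left₀ (by positivity) hj3 3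
              _ = 27 * (N : ℝ) ^ 3 := by ring
              _ ≤ A₀ := by
                rw [hA₀]
                have : (0 : ℝ) ≤ (N : ℝ) ^ 3 := by positivity
                linarith
          gcongr
        · have h1 : Ps G u (cyl j z) ≤ 125 * ENNReal.ofReal D :=
            (measure_mono (subset_univ _)).trans (Ps_univ hN)
          refine h1.trans ?_
          have h2 : (125 : ℝ≥0∞) = ENNReal.ofReal 125 := by norm_num
          rw [h2, ← ENNReal.ofReal_mul (by norm_num)]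
          apply ENNReal.ofReal_le_ofReal
          have h3 : (2 : ℝ) ^ j ≤ 2 ^ k₀ := pow_le_pow_right₀ (by norm_num) hjk.le
          have h4 : 2 ^ j * rr j = 1 := by
            unfold rr
            rw [← mul_pow]
            norm_num
          have h5 : (N : ℝ) ≤ A₀ := by
            rw [hA₀]
            nlinarith [pow_le_pow_left₀ (by norm_num) hN1 2, pow_le_pow_left₀ (by norm_num) hN1 3]
          calc 125 * D = 125 * D * (2 ^ j * rr j) := by rw [h4, mul_one]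
            _ = 125 * D * 2 ^ j * rr j := by ring
            _ ≤ 125 * D * 2 ^ k₀ * rr j := by gcongr
            _ ≤ A₀ * rr j := by
              have := hND.trans h5
              gcongr
  -- the sum of the costs
  have hsum : ∑ a ∈ Finset.Ico N (2 * N),
      (ENNReal.ofReal (4096 * γ) * (81 * Mb η G u (a + 7 * L - 4) univ)
        + ∑ j ∈ Finset.range (2 * (7 * L) + 1),
          ENNReal.ofReal (128 * C₁ ^ 2 * (((7 * L : ℕ) : ℝ) + 1) ^ 2 * γ)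
          * (81 * Ps G u (Lv G u (4 ^ j / (16 * C₁ * (((7 * L : ℕ) : ℝ) + 1)) ^ 2)
            (4 ^ j * (128 * C₁ * (((7 * L : ℕ) : ℝ) + 1) * A₀) ^ 2) (a + 7 * L - j))))
      ≤ ∑ _a ∈ Finset.Ico N (2 * N), ENNReal.ofReal
        ((4096 * 81 * 3 * A + 12480 * 128 * 81 * 125 * 3 * C₁ ^ 2) * ε * D) := by
    have s1 : ∑ a ∈ Finset.Ico N (2 * N), Mb η G u (a + 7 * L - 4) univ
        ≤ ENNReal.ofReal (A * D) := by
      refine sum_shift (g := fun a => a + 7 * L - 4) ?_ (f := fun k => Mb η G u k univ) ?_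
      · intro a ha b hb hab
        simp only [Finset.coe_Ico, mem_Ico] at ha hb hab
        omega
      · intro S'
        exact (ENNReal.sum_le_tsum S').trans (hMb T E D G u p hN)
    have s2 : ∀ j ∈ Finset.range (2 * (7 * L) + 1), ∑ a ∈ Finset.Ico N (2 * N),
        Ps G u (Lv G u (4 ^ j / (16 * C₁ * (((7 * L : ℕ) : ℝ) + 1)) ^ 2)
            (4 ^ j * (128 * C₁ * (((7 * L : ℕ) : ℝ) + 1) * A₀) ^ 2) (a + 7 * L - j))
        ≤ (((12 * L : ℕ) : ℝ≥0∞) + 1) * (125 * ENNReal.ofReal D) := by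
      intro j hj
      rw [Finset.mem_range] at hj
      refine sum_shift (g := fun a => a + 7 * L - j) ?_
        (f := fun k => Ps G u (Lv G u (4 ^ j / (16 * C₁ * (((7 * L : ℕ) : ℝ) + 1)) ^ 2)
            (4 ^ j * (128 * C₁ * (((7 * L : ℕ) : ℝ) + 1) * A₀) ^ 2) k)) ?_
      · intro a ha b hb hab
        simp only [Finset.coe_Ico, mem_Ico] at ha hb hab
        omega
      · intro S'
        refine Lv_sum hN (by positivity) ?_ S'
        have e1 : (((7 * L : ℕ) : ℝ) + 1) ≤ N := by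
          push_cast
          linarith
        have e0 : (0 : ℝ) < ((7 * L : ℕ) : ℝ) + 1 := by positivity
        exact lev_arith hA₀ e0 e1 hNC hN12 hC₁
    calc _ = ENNReal.ofReal (4096 * γ) *
          (81 * ∑ a ∈ Finset.Ico N (2 * N), Mb η G u (a + 7 * L - 4) univ)
        + ∑ j ∈ Finset.range (2 * (7 * L) + 1),
          ENNReal.ofReal (128 * C₁ ^ 2 * (((7 * L : ℕ) : ℝ) + 1) ^ 2 * γ)
          * (81 * ∑ a ∈ Finset.Ico N (2 * N),
            Ps G u (Lv G u (4 ^ j / (16 * C₁ * (((7 * L : ℕ) : ℝ) + 1)) ^ 2)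
            (4 ^ j * (128 * C₁ * (((7 * L : ℕ) : ℝ) + 1) * A₀) ^ 2) (a + 7 * L - j))) := by
          rw [Finset.sum_add_distrib, Finset.sum_comm]
          simp only [Finset.mul_sum]
      _ ≤ ENNReal.ofReal (4096 * γ) * (81 * ENNReal.ofReal (A * D))
        + ∑ j ∈ Finset.range (2 * (7 * L) + 1),
          ENNReal.ofReal (128 * C₁ ^ 2 * (((7 * L : ℕ) : ℝ) + 1) ^ 2 * γ)
          * (81 * ((((12 * L : ℕ) : ℝ≥0∞) + 1) * (125 * ENNReal.ofReal D))) := by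
          refine add_le_add (mul_le_mul_right (mul_le_mul_right s1 _) _)
            (Finset.sum_le_sum fun j hj => mul_le_mul_right (mul_le_mul_right (s2 j hj) _) _)
      _ = ENNReal.ofReal (4096 * γ * (81 * (A * D)) + (2 * ((7 * L : ℕ) : ℝ) + 1) *
            (128 * C₁ ^ 2 * (((7 * L : ℕ) : ℝ) + 1) ^ 2 * γ *
            (81 * ((((12 * L : ℕ) : ℝ) + 1) * (125 * D))))) := by
          rw [Finset.sum_const, Finset.card_range, nsmul_eq_mul]
          exact cost_real hγ0 (by positivity) hD (by positivity)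
      _ ≤ ENNReal.ofReal (N * ((4096 * 81 * 3 * A + 12480 * 128 * 81 * 125 * 3 * C₁ ^ 2)
            * ε * D)) := by
          apply ENNReal.ofReal_le_ofReal
          exact final_arith hC₁ hA hL1 hD hγ1 hγ0 (by push_cast; ring)
            (by push_cast; ring)
      _ = _ := by
          rw [Finset.sum_const, Nat.card_Ico, nsmul_eq_mul, ENNReal.ofReal_mul (by positivity),
            ENNReal.ofReal_natCast]
          congr 2
          omega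
  obtain ⟨a, ha, hcost⟩ := ENNReal.exists_le_of_sum_le (by
    rw [Finset.nonempty_Ico]
    omega) hsum
  exact (key a ha).mono subset_rfl hcost

end Pool.Agent.Q193.NS
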