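import Pool.Agent.Q193.NS.Final2

/-!
Gauges (helper193).
-/

set_option autoImplicit false

open MeasureTheory Set Metric Filter Topology
open scoped ContDiff ENNReal

namespace Pool.Agent.Q193.NS

open H459R3.NS W221.NS Pool.Agent.Y7 Pool.Agent.Y8 Pool.Agent.Y458.NS

lemma log_rr (k : ℕ) : Real.log (rr k)⁻¹ = k * Real.log 2 := by
  unfold rr
  rw [one_div, inv_pow, inv_inv, Real.log_pow]

lemma clog_log {k : ℕ} (hk : 16 ≤ k) :
    (Nat.clog 2 k : ℝ) + 1 ≤ 4 * Real.log (k * Real.log 2) := by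
  obtain ⟨m, hm⟩ : ∃ m, Nat.clog 2 k = m + 1 := by
    have : 0 < Nat.clog 2 k := Nat.clog_pos one_lt_two (by omega)
    exact ⟨Nat.clog 2 k - 1, by omega⟩
  have h8 : 2 ^ m < k := (Nat.lt_clog_iff_pow_lt one_lt_two).1 (by omega)
  have h9 : (2 : ℝ) ^ m < k := by exact_mod_cast h8
  have hk0 : (0 : ℝ) < k := by
    have : 0 < k := by omega
    exact_mod_cast this
  have hX1 := Real.log_two_gt_d9
  have hX2 := Real.log_two_lt_d9
  obtain ⟨X, hX⟩ : ∃ X, X = Real.log 2 := ⟨_, rfl⟩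
  obtain ⟨y, hy⟩ : ∃ y, y = Real.log k := ⟨_, rfl⟩
  have h10 : m * X < y := by
    have := Real.log_lt_log (by positivity) h9
    rwa [Real.log_pow, ← hX, ← hy] at this
  have h16 : 4 * X ≤ y := by
    have h1 : (16 : ℝ) ≤ k := by exact_mod_cast hk
    have h2 := Real.log_le_log (by norm_num) h1
    have h3 : Real.log 16 = 4 * Real.log 2 := by
      rw [show (16 : ℝ) = 2 ^ 4 by norm_num, Real.log_pow]
      norm_num
    rwa [h3, ← hX, ← hy] at h2
  rw [← hX] at hX1 hX2 ⊢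
  have hLL : y - X ≤ Real.log (k * X) := by
    have h1 : (k : ℝ) / 2 ≤ k * X := by nlinarith
    have h2 := Real.log_le_log (by positivity) h1
    rwa [Real.log_div hk0.ne' (by norm_num), ← hX, ← hy] at h2
  rw [hm]
  push_cast
  have h11 : (m : ℝ) ≤ 2 * y := by
    have hm0 : (0 : ℝ) ≤ m := by positivity
    nlinarith
  nlinarith

lemma rr_tendsto : Tendsto rr atTop (𝓝[>] 0) := by
  refine tendsto_nhdsWithin_iff.2 ⟨?_, Eventually.of_forall fun k => rrp k⟩
  unfold rr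
  exact tendsto_pow_atTop_nhds_zero_of_lt_one (by norm_num) (by norm_num)

lemma gau_of {h : ℝ → ℝ} (H : Tendsto (fun r : ℝ => h r * Real.log (Real.log r⁻¹) ^ 4 /
    (r * Real.log r⁻¹)) (𝓝[>] 0) (𝓝 0)) : Gau h := by
  intro ε hε
  have h1 := H.comp rr_tendsto
  have h2 := h1.eventually (gt_mem_nhds (by positivity : 0 < ε / 256))
  obtain ⟨k₀, hk₀⟩ := eventually_atTop.1 h2
  refine ⟨k₀ + 16, fun k hk => ?_⟩
  have h3 := hk₀ k (by omega)
  simp only [Function.comp_apply] at h3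
  rw [log_rr] at h3
  have hr := rrp k
  have hk0 : (0 : ℝ) < k := by
    have : 0 < k := by omega
    exact_mod_cast this
  have hX1 := Real.log_two_gt_d9
  have hX2 := Real.log_two_lt_d9
  have hX0 : 0 < Real.log 2 := by linarith
  rw [div_lt_iff₀ (by positivity)] at h3
  have h4 := clog_log (by omega : 16 ≤ k)
  rcases le_or_gt (h (rr k)) 0 with hneg | hpos
  · have : h (rr k) * ((Nat.clog 2 k : ℝ) + 1) ^ 4 ≤ 0 :=
      mul_nonpos_of_nonpos_of_nonneg hneg (by positivity)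
    exact this.trans (by positivity)
  · calc h (rr k) * ((Nat.clog 2 k : ℝ) + 1) ^ 4
        ≤ h (rr k) * (4 * Real.log (k * Real.log 2)) ^ 4 := by gcongr
      _ = 256 * (h (rr k) * Real.log (k * Real.log 2) ^ 4) := by ring
      _ ≤ 256 * (ε / 256 * (rr k * (k * Real.log 2))) := by gcongr
      _ = ε * (k * rr k) * Real.log 2 := by ring
      _ ≤ ε * (k * rr k) * 1 := by
        have : Real.log 2 ≤ 1 := by linarith
        gcongr
      _ = _ := mul_one _

lemma log_inv_tendsto : Tendsto (fun r : ℝ => Real.log r⁻¹) (𝓝[>] 0) atTop :=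
  Real.tendsto_log_atTop.comp tendsto_inv_nhdsGT_zero

lemma pow_gauge {σ : ℝ} (hσ : σ < 1) :
    Tendsto (fun r : ℝ => r * Real.log r⁻¹ ^ σ * Real.log (Real.log r⁻¹) ^ 4 /
      (r * Real.log r⁻¹)) (𝓝[>] 0) (𝓝 0) := by
  have h1 : Tendsto (fun x : ℝ => Real.log x ^ (4 : ℝ) / x ^ (1 - σ)) atTop (𝓝 0) :=
    (isLittleO_log_rpow_rpow_atTop 4 (sub_pos.2 hσ)).tendsto_div_nhds_zero
  refine (h1.comp log_inv_tendsto).congr' ?_
  filter_upwards [log_inv_tendsto.eventually_gt_atTop 0, self_mem_nhdsWithin] with r hr hr0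
  have hr0 : 0 < r := hr0
  simp only [Function.comp_apply]
  obtain ⟨x, hx⟩ : ∃ x, x = Real.log r⁻¹ := ⟨_, rfl⟩
  rw [← hx] at hr ⊢
  have e1 : Real.log x ^ (4 : ℝ) = Real.log x ^ 4 := by
    rw [← Real.rpow_natCast]
    norm_num
  have e2 : x ^ (1 - σ) * x ^ σ = x := by
    rw [← Real.rpow_add hr]
    norm_num
  have h3 : 0 < x ^ (1 - σ) := Real.rpow_pos_of_pos hr _
  rw [e1, div_eq_div_iff h3.ne' (by positivity)]
  calc Real.log x ^ 4 * (r * x) = Real.log x ^ 4 * (r * (x ^ (1 - σ) * x ^ σ)) := by rw [e2]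
    _ = _ := by ring

end Pool.Agent.Q193.NS
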