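import Pool.Agent.Q193.NS.Fast5

/-!
From oscillation to mass at a level (helper193).
-/

set_option autoImplicit false

open MeasureTheory Set Metric Filter Topology
open scoped ContDiff ENNReal

namespace Pool.Agent.Q193.NS

open H459R3.NS W221.NS Pool.Agent.Y8 Pool.Agent.Y458.NS

lemma ball_Bx {x₀ : V} (hx₀ : x₀ ∈ cube) {ρ : ℝ} (hρ : ρ ≤ 1) : ball x₀ ρ ⊆ Bx := by
  intro y hy
  rw [Bx, mem_univ_pi]
  intro i
  rw [mem_ball, dist_eq_norm] at hy
  have h1 : |y i - x₀ i| ≤ ‖y - x₀‖ := norm_le_pi_norm (y - x₀) i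
  obtain ⟨h2, h3⟩ := abs_le.1 h1
  have h4 := hx₀.1 i
  have h5 := hx₀.2 i
  simp only [Pi.zero_apply, Pi.one_apply] at h4 h5
  constructor <;> linarith

section

variable {T E D : ℝ} {G : Set ℝ} {u : ℝ → V → V} {p : ℝ → V → ℝ}

lemma bG_eq (h : Turb 1 T E D G u p) {t : ℝ} (ht : t ∈ G) (x : V) (ρ : ℝ) :
    bG G u ρ (t, x) = ENNReal.ofReal (B2 x ρ (u t)) := by
  unfold bG B2
  rw [ofReal_integral_eq_lintegral_ofReal (ballint (gsq_sm (h.spv ht).1).continuous x ρ)
    (Eventually.of_forall fun y => gsq_nn (u t) y)]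
  exact lintegral_congr fun y => gG_eq ht y

lemma bG_mono {ρ σ : ℝ} {t : ℝ} {x y : V} (hs : ball x ρ ⊆ ball y σ) :
    bG G u ρ (t, x) ≤ bG G u σ (t, y) := lintegral_mono_set hs

/-- The mass of a product set. -/
lemma Ps_prod (h : Turb 1 T E D G u p) {J' : Set ℝ} (hJ : MeasurableSet J') {x₀ : V}
    (hx₀ : x₀ ∈ cube) {ρ : ℝ} (hρ : ρ ≤ 1) {S : Set (ℝ × V)} (hS : MeasurableSet S) :
    ∫⁻ t in J', ∫⁻ y in ball x₀ ρ, S.indicator (gG G u) (t, y)
      ≤ Ps G u (S ∩ (J' ×ˢ ball x₀ ρ)) := by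
  rw [Ps_apply h (hS.inter (hJ.prod measurableSet_ball)), ← lintegral_indicator hJ]
  refine lintegral_mono fun t => ?_
  by_cases ht : t ∈ J'
  · rw [indicator_of_mem ht, ← lintegral_indicator measurableSet_ball,
      ← lintegral_indicator Bx_meas]
    refine lintegral_mono fun y => ?_
    by_cases hy : y ∈ ball x₀ ρ
    · rw [indicator_of_mem hy, indicator_of_mem (ball_Bx hx₀ hρ hy)]
      by_cases hz : (t, y) ∈ S
      · rw [indicator_of_mem hz, indicator_of_mem (show (t, y) ∈ S ∩ (J' ×ˢ ball x₀ ρ) from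
          ⟨hz, ht, hy⟩)]
      · rw [indicator_of_notMem hz]
        exact zero_le
    · rw [indicator_of_notMem hy]
      exact zero_le
  · rw [indicator_of_notMem ht]
    exact zero_le

/-- The integral of the dissipation in a ball. -/
lemma B2_Ps (h : Turb 1 T E D G u p) {J' : Set ℝ} (hJ : MeasurableSet J')
    (hJG : J' ≤ᵐ[volume] G) {x₀ : V} (hx₀ : x₀ ∈ cube) {ρ : ℝ} (hρ : ρ ≤ 1) :
    ENNReal.ofReal (∫ t in J', B2 x₀ ρ (u t)) ≤ Ps G u (J' ×ˢ ball x₀ ρ) := by
  have h1 := Ps_prod h hJ hx₀ hρ MeasurableSet.univ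
  rw [univ_inter] at h1
  refine le_trans ?_ h1
  rw [ofReal_integral_eq_lintegral_ofReal ((B2_int h x₀ ρ).mono_set_ae hJG)
    (Eventually.of_forall fun t => B2_nn' _ _ _)]
  refine lintegral_mono_ae ?_
  have hae : ∀ᵐ t ∂(volume.restrict J'), t ∈ G := by
    rw [ae_restrict_iff' hJ]
    exact hJG
  filter_upwards [hae] with t ht
  simp only [indicator_univ]
  exact (bG_eq h ht x₀ ρ).ge

lemma split_pt {F H l L : ℝ} (hF : 0 ≤ F) (hFH : F ≤ H) (hl : 0 < l) (hL : 0 < L) :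
    √F ≤ l + H / L + (if l ^ 2 ≤ F ∧ H ≤ L ^ 2 then F / l else 0) := by
  have hH : 0 ≤ H := hF.trans hFH
  have h1 : 0 ≤ H / L := by positivity
  have hs := Real.sqrt_nonneg F
  by_cases hc : l ^ 2 ≤ F ∧ H ≤ L ^ 2
  · rw [if_pos hc]
    have h2 : √F ≤ F / l := by
      rw [le_div_iff₀ hl]
      have h3 : l ≤ √F := by
        rw [Real.le_sqrt hl.le]
        · exact hc.1
        · exact hF
      calc √F * l ≤ √F * √F := mul_le_mul_of_nonneg_left h3 hs
        _ = F := Real.mul_self_sqrt hF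
    linarith
  · rw [if_neg hc]
    by_cases h2 : l ^ 2 ≤ F
    · have h3 : L ^ 2 < H := by
        by_contra h4
        exact hc ⟨h2, not_lt.1 h4⟩
      have h4 : √F ≤ H / L := by
        rw [le_div_iff₀ hL]
        have h5 : √F ≤ √H := Real.sqrt_le_sqrt hFH
        have h6 : L ≤ √H := by
          rw [Real.le_sqrt hL.le]
          · exact h3.le
          · exact hH
        calc √F * L ≤ √H * √H := mul_le_mul h5 h6 hL.le (Real.sqrt_nonneg _)
          _ = H := Real.mul_self_sqrt hH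
      linarith
    · have h3 : √F ≤ l := by
        rw [Real.sqrt_le_left hl.le]
        exact (not_le.1 h2).le
      linarith

theorem heavy {C₁ A' : ℝ} (hC₁ : 1 ≤ C₁) (hA' : 1 ≤ A') (h : Turb 1 T E D G u p) {k j J : ℕ}
    {t₀ : ℝ} {x₀ : V} (hx₀ : x₀ ∈ cube) (hsub : II (k + 4 + j) t₀ ⊆ Ioo 0 T)
    (hTy : ∫ t in II (k + 4 + j) t₀, B2 x₀ (rr k) (u t) ≤ A' * rr k)
    (hbe : rr (k + 4 + j) ≤ C₁ * (J + 1) * ∫ t in II (k + 4 + j) t₀, be (k + 4) (u t) x₀) :
    ENNReal.ofReal (rr (k + 4) / (32 * C₁ ^ 2 * (J + 1) ^ 2))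
      ≤ Ps G u (Lv G u (4 ^ j / (16 * C₁ * (J + 1)) ^ 2) (4 ^ j * (128 * C₁ * (J + 1) * A') ^ 2)
        (k + 4) ∩ cyl (k + 2) (t₀, x₀)) := by
  obtain ⟨n, hn⟩ : ∃ n, n = k + 4 + j := ⟨_, rfl⟩
  obtain ⟨i, hi⟩ : ∃ i, i = k + 4 := ⟨_, rfl⟩
  have hnij : n = i + j := by omega
  rw [← hn, ← hi] at hbe
  rw [← hn] at hsub hTy
  rw [← hi]
  obtain ⟨a, ha⟩ : ∃ a : ℝ, a = 4 ^ j / (16 * C₁ * (J + 1)) ^ 2 := ⟨_, rfl⟩
  obtain ⟨b, hb⟩ : ∃ b : ℝ, b = 4 ^ j * (128 * C₁ * (J + 1) * A') ^ 2 := ⟨_, rfl⟩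
  rw [← ha, ← hb]
  have hC₁0 : 0 < C₁ := by linarith
  have hA'0 : 0 < A' := by linarith
  have hJ1 : (0 : ℝ) < J + 1 := by positivity
  obtain ⟨Kc, hKc⟩ : ∃ Kc : ℝ, Kc = C₁ * (J + 1) := ⟨_, rfl⟩
  have hKc0 : 0 < Kc := by rw [hKc]; positivity
  obtain ⟨l, hl⟩ : ∃ l : ℝ, l = 2 ^ n / (16 * Kc) := ⟨_, rfl⟩
  obtain ⟨L, hL⟩ : ∃ L : ℝ, L = 2 ^ n * (128 * Kc * A') := ⟨_, rfl⟩
  have hl0 : 0 < l := by rw [hl]; positivity
  have hL0 : 0 < L := by rw [hL]; positivity
  have hrn := rrp n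
  have hri := rrp i
  have h2n := two_rr n
  have h2i := two_rr i
  have e4 : 4 * rr i = rr (k + 2) := by
    rw [hi, rr_add' k 4, rr_add' k 2]
    unfold rr
    ring
  have e16 : 16 * rr i = rr k := by
    rw [hi, rr_add' k 4]
    unfold rr
    ring
  have hk1 := rr_le1 k
  have hk2 := rr_le1 (k + 2)
  have hIae := sub_ae h hsub
  have hI0 : MeasurableSet (II n t₀) := measurableSet_Ioo
  have hvol : volume (II n t₀) = ENNReal.ofReal (2 * rr n ^ 2) := by
    unfold II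
    rw [Real.volume_Ioo]
    congr 1
    ring
  have hae : ∀ᵐ t ∂(volume.restrict (II n t₀)), t ∈ G := by
    rw [ae_restrict_iff' hI0]
    exact hIae
  obtain ⟨F, hF⟩ : ∃ F : ℝ → ℝ, F = fun t => 2 ^ i * B2 x₀ (4 * rr i) (u t) := ⟨_, rfl⟩
  obtain ⟨H, hH⟩ : ∃ H : ℝ → ℝ, H = fun t => 2 ^ i * B2 x₀ (rr k) (u t) := ⟨_, rfl⟩
  have hF0 : ∀ t, 0 ≤ F t := fun t => by
    rw [hF]
    exact mul_nonneg (by positivity) (B2_nn' _ _ _)
  have hFH : ∀ t ∈ G, F t ≤ H t := fun t ht => by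
    rw [hF, hH]
    refine mul_le_mul_of_nonneg_left (B2_mono (h.spv ht).1 ?_) (by positivity)
    apply ball_subset_ball
    rw [← e16]
    linarith
  -- the bound in the middle
  obtain ⟨S, hS⟩ : ∃ S : Set (ℝ × V), S = Lv G u a b i := ⟨_, rfl⟩
  have hSm : MeasurableSet S := by rw [hS]; exact Lv_meas h a b i
  have hmid : ∀ t ∈ G, l ^ 2 ≤ F t → H t ≤ L ^ 2 →
      ENNReal.ofReal (F t) ≤ ENNReal.ofReal (2 ^ i) *
        ∫⁻ y in ball x₀ (4 * rr i), S.indicator (gG G u) (t, y) := by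
    intro t ht h1 h2
    have h3 : ENNReal.ofReal (F t) = ENNReal.ofReal (2 ^ i) * bG G u (4 * rr i) (t, x₀) := by
      rw [hF, bG_eq h ht, ← ENNReal.ofReal_mul (by positivity)]
    rw [h3]
    refine mul_le_mul_right (le_of_eq ?_) _
    unfold bG
    refine setLIntegral_congr_fun measurableSet_ball fun y hy => ?_
    have hy' : dist y x₀ < 4 * rr i := hy
    show gG G u (t, y) = S.indicator (gG G u) (t, y)
    rw [indicator_of_mem]
    rw [hS]
    have hi4 : (4 : ℝ) ^ i = 2 ^ i * 2 ^ i := by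
      rw [← mul_pow]
      norm_num
    have hn4 : (2 : ℝ) ^ n * 2 ^ n = 4 ^ j * (2 ^ i * 2 ^ i) := by
      rw [← mul_pow, ← mul_pow, hnij, pow_add]
      norm_num
      ring
    constructor
    · have h4 : bG G u (4 * rr i) (t, x₀) ≤ bG G u (8 * rr i) (t, y) := by
        apply bG_mono
        apply ball_subset_ball'
        rw [dist_comm]
        linarith
      refine le_trans ?_ h4
      rw [bG_eq h ht]
      apply ENNReal.ofReal_le_ofReal
      have h5 : a * 2 ^ i * 2 ^ i = l ^ 2 := by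
        rw [ha, hl, div_pow, hKc]
        have : (2 ^ n : ℝ) ^ 2 = 4 ^ j * (2 ^ i * 2 ^ i) := by rw [← hn4]; ring
        rw [this]
        field_simp
      have h6 : a * 2 ^ i * 2 ^ i ≤ B2 x₀ (4 * rr i) (u t) * 2 ^ i := by
        rw [h5, mul_comm (B2 _ _ _)]
        rw [hF] at h1
        exact h1
      exact le_of_mul_le_mul_right h6 (by positivity)
    · have h4 : bG G u (8 * rr i) (t, y) ≤ bG G u (rr k) (t, x₀) := by
        apply bG_mono
        apply ball_subset_ball'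
        rw [← e16]
        linarith
      refine h4.trans ?_
      rw [bG_eq h ht]
      apply ENNReal.ofReal_le_ofReal
      have h5 : b * 2 ^ i * 2 ^ i = L ^ 2 := by
        rw [hb, hL, mul_pow (2 ^ n : ℝ), hKc]
        have : (2 ^ n : ℝ) ^ 2 = 4 ^ j * (2 ^ i * 2 ^ i) := by rw [← hn4]; ring
        rw [this]
        ring
      have h6 : B2 x₀ (rr k) (u t) * 2 ^ i ≤ b * 2 ^ i * 2 ^ i := by
        rw [h5, mul_comm (B2 _ _ _)]
        rw [hH] at h2
        exact h2
      exact le_of_mul_le_mul_right h6 (by positivity)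
  -- the mass
  obtain ⟨W, hW⟩ : ∃ W, W = ∫⁻ t in II n t₀, ∫⁻ y in ball x₀ (4 * rr i),
    S.indicator (gG G u) (t, y) := ⟨_, rfl⟩
  have hWP : W ≤ Ps G u (S ∩ cyl (k + 2) (t₀, x₀)) := by
    rw [hW]
    refine (Ps_prod h hI0 hx₀ (by rw [e4]; exact hk2) hSm).trans (measure_mono ?_)
    apply inter_subset_inter_right
    rintro ⟨t, y⟩ ⟨ht, hy⟩
    constructor
    · show |t - t₀| < (1 / 4) ^ (k + 2)
      have h1 : t₀ - rr n ^ 2 < t := ht.1
      have h2 : t < t₀ + rr n ^ 2 := ht.2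
      have h3 : rr n ^ 2 ≤ rr (k + 2) ^ 2 :=
        pow_le_pow_left₀ hrn.le (rr_mono (by omega)) 2
      have h4 : rr (k + 2) ^ 2 = (1 / 4) ^ (k + 2) := by
        unfold rr
        rw [← pow_mul, mul_comm, pow_mul]
        norm_num
      rw [h4] at h3
      rw [abs_lt]
      constructor <;> linarith
    · show ‖y - x₀‖ < (1 / 2) ^ (k + 2)
      have h1 : dist y x₀ < 4 * rr i := hy
      rw [dist_eq_norm, e4] at h1
      exact h1
  rw [← hS]
  refine le_trans ?_ hWP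
  -- the splitting
  have hbi : IntegrableOn (fun t => be i (u t) x₀) (II n t₀) := (be_int h i x₀).mono_set_ae hIae
  have hHi : IntegrableOn H (II n t₀) := by
    rw [hH]
    exact ((B2_int h x₀ _).mono_set_ae hIae).const_mul _
  have hHm : AEMeasurable (fun t => ENNReal.ofReal (H t / L)) (volume.restrict (II n t₀)) :=
    (hHi.div_const L).aestronglyMeasurable.aemeasurable.ennreal_ofReal
  have hH0 : ∀ t, 0 ≤ H t := fun t => by
    rw [hH]
    exact mul_nonneg (by positivity) (B2_nn' _ _ _)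
  have hmain : ENNReal.ofReal (∫ t in II n t₀, be i (u t) x₀)
      ≤ ENNReal.ofReal (l * (2 * rr n ^ 2)) + ENNReal.ofReal (∫ t in II n t₀, H t / L)
        + ENNReal.ofReal (2 ^ i / l) * W := by
    rw [ofReal_integral_eq_lintegral_ofReal hbi (Eventually.of_forall fun t => be_nn _ _ _),
      ofReal_integral_eq_lintegral_ofReal (hHi.div_const L)
        (Eventually.of_forall fun t => div_nonneg (hH0 t) hL0.le),
      ENNReal.ofReal_mul hl0.le, ← hvol]
    have h1 : ∫⁻ t in II n t₀, ENNReal.ofReal (be i (u t) x₀)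
        ≤ ∫⁻ t in II n t₀, (ENNReal.ofReal l + (ENNReal.ofReal (H t / L)
          + ENNReal.ofReal (2 ^ i / l) * ∫⁻ y in ball x₀ (4 * rr i),
            S.indicator (gG G u) (t, y))) := by
      refine lintegral_mono_ae ?_
      filter_upwards [hae] with t ht
      have h2 := split_pt (hF0 t) (hFH t ht) hl0 hL0
      have h3 : be i (u t) x₀ = √(F t) := by
        rw [hF]
        rfl
      rw [h3]
      refine (ENNReal.ofReal_le_ofReal h2).trans ?_
      have h4 : 0 ≤ H t / L := div_nonneg (hH0 t) hL0.le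
      by_cases hc : l ^ 2 ≤ F t ∧ H t ≤ L ^ 2
      · rw [if_pos hc, ENNReal.ofReal_add (by positivity) (div_nonneg (hF0 t) hl0.le),
          ENNReal.ofReal_add hl0.le h4, add_assoc]
        refine add_le_add_right (add_le_add_right ?_ _) _
        have h5 := hmid t ht hc.1 hc.2
        have h6 : ENNReal.ofReal (F t / l) = ENNReal.ofReal (1 / l) * ENNReal.ofReal (F t) := by
          rw [← ENNReal.ofReal_mul (by positivity)]
          congr 1
          ring
        rw [h6]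
        refine (mul_le_mul_right h5 _).trans (le_of_eq ?_)
        rw [← mul_assoc, ← ENNReal.ofReal_mul (by positivity)]
        congr 2
        ring
      · rw [if_neg hc, add_zero, ENNReal.ofReal_add hl0.le h4]
        exact add_le_add_right le_self_add _
    refine h1.trans (le_of_eq ?_)
    rw [lintegral_add_left' aemeasurable_const, lintegral_add_left' hHm,
      lintegral_const_mul' _ _ ENNReal.ofReal_ne_top, lintegral_const,
      Measure.restrict_apply_univ, hW, ← add_assoc]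
  -- arithmetic
  have hT1 : l * (2 * rr n ^ 2) = rr n / (8 * Kc) := by
    rw [hl]
    have : 2 ^ n / (16 * Kc) * (2 * rr n ^ 2) = (2 ^ n * rr n) * rr n / (8 * Kc) := by
      field_simp
      ring
    rw [this, h2n, one_mul]
  have hT2 : ∫ t in II n t₀, H t / L ≤ rr n / (8 * Kc) := by
    rw [integral_div, div_le_iff₀ hL0, hH]
    simp only
    rw [integral_const_mul]
    have h1 := mul_le_mul_of_nonneg_left hTy (by positivity : (0 : ℝ) ≤ 2 ^ i)
    refine h1.trans (le_of_eq ?_)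
    rw [hL, ← e16]
    have h2 : 2 ^ i * (A' * (16 * rr i)) = 16 * A' * (2 ^ i * rr i) := by ring
    have h3 : rr n / (8 * Kc) * (2 ^ n * (128 * Kc * A')) = 16 * A' * (2 ^ n * rr n) := by
      field_simp
      ring
    rw [h2, h3, h2n, h2i]
  have hlow : rr n / Kc ≤ ∫ t in II n t₀, be i (u t) x₀ := by
    rw [div_le_iff₀ hKc0, hKc]
    linarith
  by_contra hcon
  have hcon' := not_le.1 hcon
  have h5 : ENNReal.ofReal (2 ^ i / l) * W ≤ ENNReal.ofReal (rr n / (2 * Kc)) := by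
    refine (mul_le_mul_right hcon'.le _).trans ?_
    rw [← ENNReal.ofReal_mul (by positivity)]
    apply ENNReal.ofReal_le_ofReal
    rw [hl]
    have h6 : 2 ^ i / (2 ^ n / (16 * Kc)) * (rr i / (32 * C₁ ^ 2 * (J + 1) ^ 2))
        = (2 ^ i * rr i) * (16 * Kc) / (2 ^ n * (32 * Kc ^ 2)) := by
      rw [hKc]
      field_simp
    rw [h6, h2i]
    have h7 : (1 : ℝ) * (16 * Kc) / (2 ^ n * (32 * Kc ^ 2)) = 1 / 2 ^ n / (2 * Kc) := by
      field_simp
      norm_num
    rw [h7]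
    have h8 : 1 / 2 ^ n = rr n := by
      unfold rr
      rw [one_div_pow]
    rw [h8]
  have h6 : ENNReal.ofReal (rr n / Kc)
      ≤ ENNReal.ofReal (rr n / (8 * Kc) + rr n / (8 * Kc) + rr n / (2 * Kc)) := by
    refine (ENNReal.ofReal_le_ofReal hlow).trans (hmain.trans ?_)
    rw [ENNReal.ofReal_add (by positivity) (by positivity),
      ENNReal.ofReal_add (by positivity) (by positivity), hT1]
    exact add_le_add (add_le_add_right (ENNReal.ofReal_le_ofReal hT2) _) h5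
  have h7 : rr n / Kc ≤ rr n / (8 * Kc) + rr n / (8 * Kc) + rr n / (2 * Kc) :=
    (ENNReal.ofReal_le_ofReal_iff (by positivity)).1 h6
  have h8 : rr n / (8 * Kc) + rr n / (8 * Kc) + rr n / (2 * Kc) = 3 / 4 * (rr n / Kc) := by
    field_simp
    norm_num
  rw [h8] at h7
  have h9 : 0 < rr n / Kc := by positivity
  linarith

end

end Pool.Agent.Q193.NS
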