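import Pool.Agent.Y8.WCore
import Pool.Agent.Q193.NS.Cover

/-!
The masses: dissipation, bad windows of the maximal function, level sets (helper193).
-/

set_option autoImplicit false

open MeasureTheory Set Metric Filter Topology
open scoped ContDiff ENNReal

namespace Pool.Agent.Q193.NS

open H459R3.NS W221.NS Pool.Agent.Y7 Pool.Agent.Y8 Pool.Agent.Y8.WS Pool.Agent.TH305.LG
open Pool.Agent.Y7.Cov1

/-- The region of space. -/
def Bx : Set V := univ.pi fun _ => Ico (-2 : ℝ) 3

lemma Bx_meas : MeasurableSet Bx := MeasurableSet.univ_pi fun _ => measurableSet_Ico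

lemma per_lint {g : V → ℝ≥0∞} (hp : ∀ (x : V) (n : K3), g (x - iv n) = g x) :
    ∫⁻ y in Bx, g y ≤ 125 * ∫⁻ y in cell, g y := by
  classical
  obtain ⟨S, hS⟩ : ∃ S : Finset K3, S = Fintype.piFinset (fun _ => Finset.Icc (-2) 2) := ⟨_, rfl⟩
  have hcard : S.card = 125 := by
    rw [hS, Fintype.card_piFinset]
    simp
  have hsub : Bx ⊆ ⋃ n : S, {y | y - iv n.1 ∈ cell} := by
    intro y hy
    have hy' : ∀ i, y i ∈ Ico (-2 : ℝ) 3 := fun i => by
      simpa [Bx] using (mem_univ_pi.1 hy) i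
    refine mem_iUnion.2 ⟨⟨fun i => ⌊y i⌋, ?_⟩, floor_cell y⟩
    rw [hS, Fintype.mem_piFinset]
    intro i
    rw [Finset.mem_Icc]
    obtain ⟨h1, h2⟩ := hy' i
    constructor
    · rw [Int.le_floor]
      exact_mod_cast h1
    · have : ⌊y i⌋ < 3 := by
        rw [Int.floor_lt]
        exact_mod_cast h2
      omega
  have hone : ∀ n : S, ∫⁻ y in {y | y - iv n.1 ∈ cell}, g y = ∫⁻ y in cell, g y := by
    intro n
    have hm : MeasurableSet {y : V | y - iv n.1 ∈ cell} :=
      (measurable_id.sub_const (iv n.1)) meas_cell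
    rw [← lintegral_indicator hm, ← lintegral_indicator meas_cell]
    rw [← lintegral_sub_right_eq_self (fun y => cell.indicator g y) (iv n.1)]
    refine lintegral_congr fun y => ?_
    by_cases hy : y - iv n.1 ∈ cell
    · rw [indicator_of_mem (show y ∈ {y : V | y - iv n.1 ∈ cell} from hy), indicator_of_mem hy, hp]
    · rw [indicator_of_notMem (show y ∉ {y : V | y - iv n.1 ∈ cell} from hy),
        indicator_of_notMem hy]
  calc ∫⁻ y in Bx, g y ≤ ∫⁻ y in ⋃ n : S, {y | y - iv n.1 ∈ cell}, g y := lintegral_mono_set hsub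
    _ ≤ ∑' n : S, ∫⁻ y in {y | y - iv n.1 ∈ cell}, g y := lintegral_iUnion_le _ _
    _ = ∑' _n : S, ∫⁻ y in cell, g y := tsum_congr hone
    _ = 125 * ∫⁻ y in cell, g y := by
        rw [tsum_fintype, Finset.sum_const, Finset.card_univ, Fintype.card_coe, hcard,
          nsmul_eq_mul]
        norm_num

section

variable {T E D : ℝ} {G : Set ℝ} {u : ℝ → V → V} {p : ℝ → V → ℝ}

/-- The density of the dissipation. -/
noncomputable def gG (G : Set ℝ) (u : ℝ → V → V) : ℝ × V → ℝ≥0∞ :=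
  (G ×ˢ (univ : Set V)).indicator (fun z => ENNReal.ofReal (gsq (u z.1) z.2))

lemma gG_meas (h : Turb 1 T E D G u p) : Measurable (gG G u) := by
  have hgs : ContinuousOn (fun z : ℝ × V => gsq (u z.1) z.2) (G ×ˢ univ) :=
    (gsq_joint h.openG h.smooth_u).continuousOn
  have hS : MeasurableSet (G ×ˢ (univ : Set V)) := h.openG.measurableSet.prod MeasurableSet.univ
  exact W919.MH.MARK3.measurable_indicator hS hgs

lemma gG_eq {t : ℝ} (ht : t ∈ G) (x : V) : gG G u (t, x) = ENNReal.ofReal (gsq (u t) x) :=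
  indicator_of_mem (show (t, x) ∈ G ×ˢ (univ : Set V) from ⟨ht, mem_univ _⟩) _

lemma gG_eq0 {t : ℝ} (ht : t ∉ G) (x : V) : gG G u (t, x) = 0 :=
  indicator_of_notMem (show (t, x) ∉ G ×ˢ (univ : Set V) from fun h => ht h.1) _

lemma gG_cell (h : Turb 1 T E D G u p) :
    ∫⁻ t, ∫⁻ y in cell, gG G u (t, y) ≤ ENNReal.ofReal D := by
  have h1 : ∀ t, ∫⁻ y in cell, gG G u (t, y)
      ≤ G.indicator (fun t => ENNReal.ofReal (enstrophy (u t))) t := by
    intro t
    by_cases ht : t ∈ G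
    · rw [indicator_of_mem ht]
      have hs := h.spv ht
      rw [enst_eq hs.1, ofReal_integral_eq_lintegral_ofReal (cube_int (gsq_sm hs.1).continuous)
        (Eventually.of_forall fun x => gsq_nn (u t) x)]
      refine (lintegral_congr fun y => gG_eq ht y).le.trans (lintegral_mono_set ?_)
      intro y hy
      rw [mem_cell] at hy
      exact ⟨fun i => (hy i).1, fun i => (hy i).2.le⟩
    · rw [indicator_of_notMem ht]
      simp only [gG_eq0 ht, lintegral_zero, le_refl]
  refine (lintegral_mono h1).trans ?_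
  rw [lintegral_indicator h.openG.measurableSet,
    ← ofReal_integral_eq_lintegral_ofReal h.enst_int (Eventually.of_forall fun t => enst_nn _)]
  exact ENNReal.ofReal_le_ofReal h.enst_le

lemma gG_per (h : Turb 1 T E D G u p) (t : ℝ) (x : V) (n : K3) :
    gG G u (t, x - iv n) = gG G u (t, x) := by
  by_cases ht : t ∈ G
  · rw [gG_eq ht, gG_eq ht, per_iv' (gsq_per (h.per_u t ht)) n x]
  · rw [gG_eq0 ht, gG_eq0 ht]

/-- The dissipation as a measure. -/
noncomputable def Ps (G : Set ℝ) (u : ℝ → V → V) : Measure (ℝ × V) :=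
  (volume.restrict (univ ×ˢ Bx)).withDensity (gG G u)

lemma Ps_apply (h : Turb 1 T E D G u p) {S : Set (ℝ × V)} (hS : MeasurableSet S) :
    Ps G u S = ∫⁻ t, ∫⁻ y in Bx, S.indicator (gG G u) (t, y) := by
  unfold Ps
  rw [withDensity_apply _ hS, ← lintegral_indicator hS]
  have e : (volume : Measure (ℝ × V)).restrict (univ ×ˢ Bx)
      = (volume : Measure ℝ).prod ((volume : Measure V).restrict Bx) := by
    rw [Measure.volume_eq_prod, ← Measure.prod_restrict, Measure.restrict_univ]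
  rw [e, lintegral_prod _ ((gG_meas h).indicator hS).aemeasurable]

lemma Ps_univ (h : Turb 1 T E D G u p) : Ps G u univ ≤ 125 * ENNReal.ofReal D := by
  rw [Ps_apply h MeasurableSet.univ]
  simp only [indicator_univ]
  calc ∫⁻ t, ∫⁻ y in Bx, gG G u (t, y) ≤ ∫⁻ t, 125 * ∫⁻ y in cell, gG G u (t, y) :=
        lintegral_mono fun t => per_lint fun x n => gG_per h t x n
    _ = 125 * ∫⁻ t, ∫⁻ y in cell, gG G u (t, y) := lintegral_const_mul' _ _ (by norm_num)
    _ ≤ _ := mul_le_mul_right (gG_cell h) _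

/-! ### Bad windows -/

/-- The points whose windows of the scale `k` are bad. -/
def Ub (η : ℝ) (G : Set ℝ) (u : ℝ → V → V) (k : ℕ) : Set (ℝ × V) :=
  {z | z.1 ∈ bad (fun τ => FtO 1 G u (τ, z.2)) (sc 1 0 ^ 2) η k}

/-- The mass of the bad windows. -/
noncomputable def Mb (η : ℝ) (G : Set ℝ) (u : ℝ → V → V) (k : ℕ) : Measure (ℝ × V) :=
  (ENNReal.ofReal (1 / hh (sc 1 0 ^ 2) k ^ 2)) •
    (volume.restrict (univ ×ˢ Bx)).restrict (Ub η G u k)

lemma Ub_meas (h : Turb 1 T E D G u p) (η : ℝ) (k : ℕ) : MeasurableSet (Ub η G u k) :=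
  bad_meas (FtO_meas 1 h.openG h.smooth_u) _ _ _

lemma FtO_eq0 {t : ℝ} (ht : t ∉ G) (x : V) : FtO 1 G u (t, x) = 0 := by
  have e : (fun y => (G ×ˢ (univ : Set V)).indicator (fun z => Sp.gw (u z.1) z.2) (t, y))
      = fun _ => 0 := by
    funext y
    exact indicator_of_notMem (show (t, y) ∉ G ×ˢ (univ : Set V) from fun h => ht h.1) _
  unfold FtO
  rw [show (t, x).1 = t from rfl, e]
  unfold Hl.Mx
  simp

lemma FtO_cell : ∃ A : ℝ, 0 < A ∧ ∀ (T E D : ℝ) (G : Set ℝ) (u : ℝ → V → V) (p : ℝ → V → ℝ),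
    Turb 1 T E D G u p → ∫⁻ t, ∫⁻ y in Bx, FtO 1 G u (t, y) ≤ ENNReal.ofReal (A * D) := by
  obtain ⟨A, hA, hFx⟩ := FxP
  refine ⟨125 * (A * 216), by positivity, fun T E D G u p h => ?_⟩
  have h1 : ∀ t, ∫⁻ y in Bx, FtO 1 G u (t, y)
      ≤ 125 * G.indicator (fun t => ENNReal.ofReal (A * 216) *
        ENNReal.ofReal (enstrophy (u t))) t := by
    intro t
    by_cases ht : t ∈ G
    · rw [indicator_of_mem ht]
      refine (per_lint fun x n => ?_).trans (mul_le_mul_right ?_ _)
      · rw [FtO_eq 1 u ht, FtO_eq 1 u ht]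
        exact Fx_per 1 (h.per_u t ht) x n
      · refine le_trans (le_of_eq (lintegral_congr fun y => FtO_eq 1 u ht y)) ?_
        exact hFx (u t) (sl_sm h.smooth_u ht) (h.per_u t ht)
    · rw [indicator_of_notMem ht]
      simp only [FtO_eq0 ht, lintegral_zero, mul_zero, le_refl]
  refine (lintegral_mono h1).trans ?_
  rw [lintegral_const_mul' _ _ (by norm_num), lintegral_indicator h.openG.measurableSet,
    lintegral_const_mul' _ _ ENNReal.ofReal_ne_top,
    ← ofReal_integral_eq_lintegral_ofReal h.enst_int (Eventually.of_forall fun t => enst_nn _)]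
  have e : (125 : ℝ≥0∞) = ENNReal.ofReal 125 := by norm_num
  rw [e, ← ENNReal.ofReal_mul (by positivity), ← ENNReal.ofReal_mul (by positivity)]
  apply ENNReal.ofReal_le_ofReal
  have := mul_le_mul_of_nonneg_left h.enst_le (by positivity : 0 ≤ 125 * (A * 216))
  linarith

lemma Mb_sum (η : ℝ) (hη : 0 < η) : ∃ A : ℝ, 0 < A ∧
    ∀ (T E D : ℝ) (G : Set ℝ) (u : ℝ → V → V) (p : ℝ → V → ℝ), Turb 1 T E D G u p →
      ∑' k, Mb η G u k univ ≤ ENNReal.ofReal (A * D) := by
  obtain ⟨A, hA, hF⟩ := FtO_cell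
  refine ⟨16 / 3 / η * A, by positivity, fun T E D G u p h => ?_⟩
  have hfm : Measurable (FtO 1 G u) := FtO_meas 1 h.openG h.smooth_u
  have hh₀ : 0 < sc 1 0 ^ 2 := by
    have := sc_pos (R₀ := 1) one_pos 0
    positivity
  have e1 : ∀ k, Mb η G u k univ = ∫⁻ y in Bx, ∫⁻ t, ENNReal.ofReal (1 / hh (sc 1 0 ^ 2) k ^ 2)
      * (bad (fun τ => FtO 1 G u (τ, y)) (sc 1 0 ^ 2) η k).indicator (fun _ => 1) t := by
    intro k
    unfold Mb
    rw [Measure.smul_apply, Measure.restrict_apply MeasurableSet.univ, univ_inter, smul_eq_mul]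
    have e : (volume : Measure (ℝ × V)).restrict (univ ×ˢ Bx)
        = (volume : Measure ℝ).prod ((volume : Measure V).restrict Bx) := by
      rw [Measure.volume_eq_prod, ← Measure.prod_restrict, Measure.restrict_univ]
    rw [e, Measure.prod_apply_symm (Ub_meas h η k), ← lintegral_const_mul' _ _ ENNReal.ofReal_ne_top]
    refine lintegral_congr fun y => ?_
    have hm : MeasurableSet (bad (fun τ => FtO 1 G u (τ, y)) (sc 1 0 ^ 2) η k) := by
      have h1 : Measurable (fun t : ℝ => (t, y)) := measurable_id.prodMk measurable_const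
      exact h1 (bad_meas hfm (sc 1 0 ^ 2) η k)
    rw [lintegral_const_mul' _ _ ENNReal.ofReal_ne_top, lintegral_indicator hm, lintegral_const,
      Measure.restrict_apply_univ, one_mul]
    rfl
  have hmk : ∀ k, Measurable fun z : ℝ × V => ENNReal.ofReal (1 / hh (sc 1 0 ^ 2) k ^ 2)
      * (bad (fun τ => FtO 1 G u (τ, z.2)) (sc 1 0 ^ 2) η k).indicator (fun _ => (1 : ℝ≥0∞)) z.1 := by
    intro k
    refine Measurable.const_mul ?_ _
    have e : (fun z : ℝ × V => (bad (fun τ => FtO 1 G u (τ, z.2)) (sc 1 0 ^ 2) η k).indicator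
        (fun _ => (1 : ℝ≥0∞)) z.1)
        = {z : ℝ × V | z.1 ∈ bad (fun τ => FtO 1 G u (τ, z.2)) (sc 1 0 ^ 2) η k}.indicator
          (fun _ => 1) := by
      funext z
      by_cases hz : z.1 ∈ bad (fun τ => FtO 1 G u (τ, z.2)) (sc 1 0 ^ 2) η k
      · rw [indicator_of_mem hz, indicator_of_mem (show z ∈ {z : ℝ × V |
          z.1 ∈ bad (fun τ => FtO 1 G u (τ, z.2)) (sc 1 0 ^ 2) η k} from hz)]
      · rw [indicator_of_notMem hz, indicator_of_notMem (show z ∉ {z : ℝ × V |
          z.1 ∈ bad (fun τ => FtO 1 G u (τ, z.2)) (sc 1 0 ^ 2) η k} from hz)]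
    rw [e]
    exact measurable_const.indicator (bad_meas hfm (sc 1 0 ^ 2) η k)
  have hsl : ∀ k (y : V), AEMeasurable (fun t => ENNReal.ofReal (1 / hh (sc 1 0 ^ 2) k ^ 2)
      * (bad (fun τ => FtO 1 G u (τ, y)) (sc 1 0 ^ 2) η k).indicator (fun _ => (1 : ℝ≥0∞)) t) := by
    intro k y
    exact ((hmk k).comp (measurable_id.prodMk measurable_const :
      Measurable fun t : ℝ => (t, y))).aemeasurable
  have hsw : ∀ k, AEMeasurable (fun y : V => ∫⁻ t, ENNReal.ofReal (1 / hh (sc 1 0 ^ 2) k ^ 2)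
      * (bad (fun τ => FtO 1 G u (τ, y)) (sc 1 0 ^ 2) η k).indicator (fun _ => (1 : ℝ≥0∞)) t)
      (volume.restrict Bx) := by
    intro k
    exact (Measurable.lintegral_prod_left' (hmk k)).aemeasurable
  calc ∑' k, Mb η G u k univ
      = ∫⁻ y in Bx, ∫⁻ t, Hs (FtO 1 G u) (sc 1 0 ^ 2) η (t, y) := by
        rw [tsum_congr e1, ← lintegral_tsum hsw]
        refine lintegral_congr fun y => ?_
        unfold Hs
        rw [lintegral_tsum fun k => hsl k y]
    _ ≤ ∫⁻ y in Bx, ENNReal.ofReal (16 / 3 / η) * ∫⁻ τ, FtO 1 G u (τ, y) :=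
        lintegral_mono fun y => Hs_int hfm hh₀ hη y
    _ = ENNReal.ofReal (16 / 3 / η) * ∫⁻ y in Bx, ∫⁻ τ, FtO 1 G u (τ, y) :=
        lintegral_const_mul' _ _ ENNReal.ofReal_ne_top
    _ = ENNReal.ofReal (16 / 3 / η) * ∫⁻ τ, ∫⁻ y in Bx, FtO 1 G u (τ, y) := by
        rw [lintegral_lintegral_swap (f := fun τ a => FtO 1 G u (τ, a)) hfm.aemeasurable]
    _ ≤ ENNReal.ofReal (16 / 3 / η) * ENNReal.ofReal (A * D) :=
        mul_le_mul_right (hF T E D G u p h) _
    _ = ENNReal.ofReal (16 / 3 / η * A * D) := by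
        rw [← ENNReal.ofReal_mul (by positivity)]
        congr 1
        ring

/-! ### Level sets -/

/-- The dissipation in a ball. -/
noncomputable def bG (G : Set ℝ) (u : ℝ → V → V) (ρ : ℝ) (z : ℝ × V) : ℝ≥0∞ :=
  ∫⁻ y in ball z.2 ρ, gG G u (z.1, y)

lemma bG_meas (h : Turb 1 T E D G u p) (ρ : ℝ) : Measurable (bG G u ρ) := by
  have e : bG G u ρ = fun z : ℝ × V => ∫⁻ y, ({q : (ℝ × V) × V | dist q.2 q.1.2 < ρ}.indicator
        (fun q => gG G u (q.1.1, q.2))) (z, y) := by
    funext z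
    unfold bG
    rw [← lintegral_indicator measurableSet_ball]
    rfl
  rw [e]
  apply Measurable.lintegral_prod_right' (f := {q : (ℝ × V) × V |
    dist q.2 q.1.2 < ρ}.indicator (fun q => gG G u (q.1.1, q.2)))
  refine Measurable.indicator ?_ ?_
  · exact (gG_meas h).comp ((measurable_fst.comp measurable_fst).prodMk measurable_snd)
  · exact measurableSet_lt (measurable_snd.dist (measurable_snd.comp measurable_fst))
      measurable_const

/-- The points with the dissipation in the ball of radius `8 rr i` between `a 2ⁱ` and `b 2ⁱ`. -/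
def Lv (G : Set ℝ) (u : ℝ → V → V) (a b : ℝ) (i : ℕ) : Set (ℝ × V) :=
  {z | ENNReal.ofReal (a * 2 ^ i) ≤ bG G u (8 * rr i) z ∧
    bG G u (8 * rr i) z ≤ ENNReal.ofReal (b * 2 ^ i)}

lemma Lv_meas (h : Turb 1 T E D G u p) (a b : ℝ) (i : ℕ) : MeasurableSet (Lv G u a b i) :=
  (measurableSet_le measurable_const (bG_meas h _)).inter
    (measurableSet_le (bG_meas h _) measurable_const)

lemma Lv_count {a b : ℝ} (ha : 0 < a) {K : ℕ} (hK : b ≤ a * 2 ^ K) (S : Finset ℕ) (z : ℝ × V) :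
    ∑ i ∈ S, (Lv G u a b i).indicator (fun _ => (1 : ℝ≥0∞)) z ≤ K + 1 := by
  classical
  have e : ∑ i ∈ S, (Lv G u a b i).indicator (fun _ => (1 : ℝ≥0∞)) z
      = (S.filter fun i => z ∈ Lv G u a b i).card := by
    rw [Finset.card_filter]
    push_cast
    refine Finset.sum_congr rfl fun i _ => ?_
    by_cases hz : z ∈ Lv G u a b i
    · rw [indicator_of_mem hz, if_pos hz]
    · rw [indicator_of_notMem hz, if_neg hz]
  rw [e]
  obtain ⟨F, hF⟩ : ∃ F, F = S.filter fun i => z ∈ Lv G u a b i := ⟨_, rfl⟩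
  rw [← hF]
  rcases F.eq_empty_or_nonempty with h0 | h0
  · rw [h0]
    simp
  obtain ⟨m, hm, hmin⟩ := F.exists_min_image id h0
  have hsub : F ⊆ Finset.Icc m (m + K) := by
    intro i hi
    have h1 : m ≤ i := hmin i hi
    rw [Finset.mem_Icc]
    refine ⟨h1, ?_⟩
    by_contra hc
    push Not at hc
    have hm2 : z ∈ Lv G u a b m := by
      rw [hF] at hm
      exact (Finset.mem_filter.1 hm).2
    have hi2 : z ∈ Lv G u a b i := by
      rw [hF] at hi
      exact (Finset.mem_filter.1 hi).2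
    have hmono : bG G u (8 * rr i) z ≤ bG G u (8 * rr m) z := by
      unfold bG
      apply lintegral_mono_set
      apply ball_subset_ball
      have : rr i ≤ rr m := by
        unfold rr
        exact pow_le_pow_of_le_one (by norm_num) (by norm_num) h1
      linarith
    have h3 := hi2.1.trans (hmono.trans hm2.2)
    have h4 : a * 2 ^ i ≤ b * 2 ^ m := by
      by_contra hc2
      push Not at hc2
      exact absurd h3 (not_le.2 ((ENNReal.ofReal_lt_ofReal_iff (by positivity)).2 hc2))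
    have h5 : b * 2 ^ m ≤ a * 2 ^ K * 2 ^ m := mul_le_mul_of_nonneg_right hK (by positivity)
    have h6 : a * 2 ^ K * 2 ^ m < a * 2 ^ i := by
      rw [mul_assoc, ← pow_add]
      apply mul_lt_mul_of_pos_left _ ha
      apply pow_lt_pow_right₀ (by norm_num)
      omega
    linarith
  have h7 := Finset.card_le_card hsub
  rw [Nat.card_Icc] at h7
  have h8 : F.card ≤ K + 1 := by omega
  exact_mod_cast h8

/-- The sum of the masses at the levels. -/
lemma Lv_sum (h : Turb 1 T E D G u p) {a b : ℝ} (ha : 0 < a) {K : ℕ} (hK : b ≤ a * 2 ^ K)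
    (S : Finset ℕ) : ∑ i ∈ S, Ps G u (Lv G u a b i) ≤ (K + 1) * (125 * ENNReal.ofReal D) := by
  have e : ∀ i, Ps G u (Lv G u a b i)
      = ∫⁻ z, (Lv G u a b i).indicator (fun _ => (1 : ℝ≥0∞)) z ∂(Ps G u) := by
    intro i
    rw [lintegral_indicator (Lv_meas h a b i), lintegral_const, Measure.restrict_apply_univ,
      one_mul]
  calc ∑ i ∈ S, Ps G u (Lv G u a b i)
      = ∫⁻ z, ∑ i ∈ S, (Lv G u a b i).indicator (fun _ => (1 : ℝ≥0∞)) z ∂(Ps G u) := by
        rw [lintegral_finsetSum _ fun i _ => measurable_const.indicator (Lv_meas h a b i)]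
        exact Finset.sum_congr rfl fun i _ => e i
    _ ≤ ∫⁻ _z, (K + 1) ∂(Ps G u) := lintegral_mono fun z => Lv_count ha hK S z
    _ = (K + 1) * Ps G u univ := lintegral_const _
    _ ≤ _ := mul_le_mul_right (Ps_univ h) _

end

end Pool.Agent.Q193.NS
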